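import Pool.Agent.NH25.DL.Rep

/-!
# Families with unipotent monodromy over number fields: counting and windows
-/

set_option autoImplicit false

open PowerSeries Module
open scoped Matrix

namespace Pool.Agent.NH25.DL

open Pool.Agent.Y113 Pool.Agent.Y921.DB Pool.Agent.Y916 Pool.Agent.Y916.Af Pool.Agent.Y916.Al Pool.Agent.NH25.DG

variable {k : ℕ} {ι : Type} {L : Type} [Field L] [NumberField L] [Algebra L ℂ] {nn : Fin k → ℕ}

/-- functions which are represented by families with unipotent monodromy -/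
structure RepL (P : (Fin k → ℂ) → (Fin k → ℂ) → ι → ℂ) (ρ : ℝ) (H : ∀ l, Matrix (Fin (nn l)) (Fin (nn l)) L⟦X⟧) where
  e : ℕ
  co : ι → Fin k
  c₀ : ι → Fin (e + 1) → ℂ
  c : ∀ i, Fin (e + 1) → Matrix (Fin (nn (co i))) (Fin (nn (co i))) ℂ
  eq : ∀ z : Fin k → ℂ, (∀ l, ‖z l‖ < ρ) → ∀ (t : Fin k → ℂ) i, P z t i =
    ∑ j, (c₀ i j + ∑ a, ∑ a', c i j a a' * VL (H (co i) a a') (z (co i))) * t (co i) ^ (j : ℕ)

variable {P : (Fin k → ℂ) → (Fin k → ℂ) → ι → ℂ} {ρ : ℝ} {H : ∀ l, Matrix (Fin (nn l)) (Fin (nn l)) L⟦X⟧}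

open Classical in
/-- the coefficients -/
noncomputable def RepL.lam (R : RepL P ρ H) {d : ℕ} (b : Module.Basis (Fin d) ℚ L) (l : Fin k) (i : ι) :
    Option (Option (Fin ((nn l * d) * (nn l * d))) × Fin (R.e + 1)) → ℂ :=
  if h : R.co i = l then
    Eq.rec (motive := fun l _ => Option (Option (Fin ((nn l * d) * (nn l * d))) × Fin (R.e + 1)) → ℂ)
      (lam1 b (R.c₀ i) (R.c i)) h
  else fun _ => 0

lemma RepL.lam_same (R : RepL P ρ H) {d : ℕ} (b : Module.Basis (Fin d) ℚ L) (i : ι) :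
    R.lam b (R.co i) i = lam1 b (R.c₀ i) (R.c i) := by
  unfold RepL.lam
  rw [dif_pos rfl]

lemma RepL.lam_ne (R : RepL P ρ H) {d : ℕ} (b : Module.Basis (Fin d) ℚ L) {l : Fin k} {i : ι} (h : R.co i ≠ l) :
    R.lam b l i = fun _ => 0 := by
  unfold RepL.lam
  rw [dif_neg h]

lemma hr_surj {n d : ℕ} (b : Module.Basis (Fin d) ℚ L) (M : Matrix (Fin n) (Fin n) L⟦X⟧) (i j : Fin n) (x y : Fin d) :
    ∃ q, hr b M q = rho b (M i j) x y := by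
  refine ⟨(Pool.Agent.Y119.HZ.ix (n * d)).symm ((Pool.Agent.Y921.DB.ix n d).symm (j, y),
    (Pool.Agent.Y921.DB.ix n d).symm (i, x)), ?_⟩
  simp only [hr, Pool.Agent.NH25.AP.hT, Equiv.apply_symm_apply, Matrix.of_apply, Zr]

/-- the setting of the abstract theorems -/
theorem RepL.setup (R : RepL P ρ H) (hρ : 0 < ρ) {N : ∀ l, Matrix (Fin (nn l)) (Fin (nn l)) ℤ}
    (hH : ∀ l, LFam (N l) (H l)) : ∃ (d : ℕ) (b : Module.Basis (Fin d) ℚ L) (r : ℝ), 0 < r ∧ r ≤ ρ ∧ ∀ δ : ℕ,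
      ∃ bl : ∀ l, BasL (hr b (H l)) (δ * (R.e + 1)), (∀ l, ∃ G : ℕ, 1 ≤ G ∧ Wp (phi (bl l)) G) ∧
        (∀ l, Nonempty (Ex (phi (bl l)) (yl (hr b (H l)) R.e) r δ)) ∧
        ∀ (κ : IntermediateField ℚ ℂ) (s t : Fin k → ℂ), (∀ l, ‖s l‖ < r) →
          SpecT κ (pf (R.lam b) fun l => yl (hr b (H l)) R.e) r δ s t → SpecT κ P r δ s t := by
  classical
  obtain ⟨d, b, hd, hb1, hb2⟩ : ∃ (d : ℕ) (b : Module.Basis (Fin d) ℚ L), 1 ≤ d ∧ (∀ i, IsIntegral ℤ (b i)) ∧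
      (∀ x : L, IsIntegral ℤ x → ∀ i, ∃ a : ℤ, b.repr x i = a) := by
    obtain ⟨d, b, hb1, hb2⟩ := exists_ibasis L
    refine ⟨d, b, ?_, hb1, hb2⟩
    rcases Nat.eq_zero_or_pos d with h0 | h0
    · subst h0
      have h1 := b.index_nonempty
      exact h1.some.elim0
    · exact h0
  choose T A hG using fun l => (hH l).gfs hd b hb1 hb2
  choose C₀ hC₀ using fun l => (hG l).hsize
  choose G₀ hG₀ hwin using fun l => win_phi (hG l)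
  set C : ℝ := 1 + ∑ l, |C₀ l| with hC
  have hC1 : 1 ≤ C := le_add_of_nonneg_right (Finset.sum_nonneg fun l _ => abs_nonneg _)
  have hC0 : 0 < C := by linarith
  have hbd : ∀ l q m, |((coeff m (hr b (H l) q) : ℚ) : ℝ)| ≤ C ^ (m + 1) := by
    intro l q m
    refine (hC₀ l q m).trans ?_
    refine (le_abs_self _).trans ?_
    rw [abs_pow]
    refine pow_le_pow_left₀ (abs_nonneg _) ?_ _
    refine (Finset.single_le_sum (f := fun l => |C₀ l|) (fun l _ => abs_nonneg _) (Finset.mem_univ l)).trans ?_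
    rw [hC]
    linarith
  set r : ℝ := min ρ (1 / C) with hr'
  have hr0 : 0 < r := lt_min hρ (by positivity)
  have hrC : r ≤ 1 / C := min_le_right _ _
  refine ⟨d, b, r, hr0, min_le_left _ _, fun δ => ?_⟩
  choose bl hbl using fun l => hwin l (δ * (R.e + 1))
  refine ⟨bl, fun l => ⟨G₀ l, hG₀ l, hbl l (G₀ l) le_rfl⟩, fun l => ?_, fun κ s t hs h => ?_⟩
  · obtain ⟨E⟩ := Ex_phi R.e δ (bl l) hC0 (hbd l)
    exact ⟨⟨E.D, E.N, E.hD, fun z hz => E.red z (hz.trans_le hrC)⟩⟩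
  · have hcv : ∀ z : Fin k → ℂ, (∀ l, ‖z l‖ < r) → ∀ l q, Cvc (z l) (hr b (H l) q) := fun z hz l q =>
      cvc_bd hC0 (hbd l q) ((hz l).trans_le hrC)
    have h1 : SpecT κ (fun z t i => pf (R.lam b) (fun l => yl (hr b (H l)) R.e) z t (R.co i, i)) r δ s t := by
      refine SpecT.rename (g := fun i : ι => (R.co i, i)) (fun v v' hv => (Prod.ext_iff.1 hv).2) (fun z t i => rfl)
        (fun z t i' hi' => ?_) h
      unfold pf
      refine Finset.sum_eq_zero fun q _ => ?_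
      rw [R.lam_ne b (fun hh => hi' ⟨i'.2, Prod.ext hh rfl⟩), zero_mul]
    refine SpecT.congr (fun z hz t' => ?_) hs h1
    funext i
    rw [R.eq z (fun l => (hz l).trans_le (min_le_left _ _)) t' i]
    unfold pf
    rw [R.lam_same b i]
    refine (lam1_eq b (H (R.co i)) (R.c₀ i) (R.c i) (fun i' j' x y => ?_) (t' (R.co i))).symm
    obtain ⟨q, hq⟩ := hr_surj b (H (R.co i)) i' j' x y
    rw [← hq]
    exact hcv z hz _ q

open Classical in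
/-- **Counting** -/
theorem RepL.count [Fintype ι] (R : RepL P ρ H) (hρ : 0 < ρ) {N : ∀ l, Matrix (Fin (nn l)) (Fin (nn l)) ℤ}
    (hH : ∀ l, LFam (N l) (H l)) :
    ∃ r : ℝ, 0 < r ∧ r ≤ ρ ∧
      (∀ (δ D : ℕ) (m : Fin k → ℕ) (η : ℝ), 0 < η → η ≤ 1 → ∃ c C : ℝ, 0 < c ∧ 0 ≤ C ∧
      ∀ K₀ : IntermediateField ℚ ℂ, FiniteDimensional ℚ K₀ → finrank ℚ K₀ ≤ D → ∀ T : ℕ, 1 ≤ T →
      ∀ a : Fin k → ℕ, (∀ i, 1 ≤ a i ∧ (a i : ℝ) ≤ (T : ℝ) ^ (1 - η)) →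
      (((Fintype.piFinset fun l : Fin k => Sl.NF (m l) T).filter fun β =>
        ¬ Gd K₀ P r δ (fun l => (a l : ℂ) / β l)).card : ℝ) ≤ C * (T : ℝ) ^ (((∑ l, Sl.Mm (m l) : ℕ) : ℝ) - c)) ∧
      (∀ δ D m A₀ : ℕ, ∃ M E' : ℕ, ∀ K₀ : IntermediateField ℚ ℂ, FiniteDimensional ℚ K₀ → finrank ℚ K₀ ≤ D →
      ∀ (g₀ : Fin k → ℕ) (K : Fin k → IntermediateField ℚ ℂ) (ξ : ∀ l, K l) (X : Fin k → ℝ),
      (∀ l, FiniteDimensional ℚ (K l)) → (∀ l, finrank ℚ (K l) ≤ m) → (∀ l, Pt (K l) (ξ l) (X l)) →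
      (∀ l, ((g₀ l : ℝ) + 2) ^ E' ≤ ‖(ξ l : ℂ)‖) → (∀ l, X l ≤ ‖(ξ l : ℂ)‖ ^ A₀) →
      ((Fintype.piFinset fun l : Fin k => Finset.Icc (-(g₀ l : ℤ)) (g₀ l)).filter fun g =>
        ¬ Gd K₀ P r δ (fun l => 1 / ((ξ l : ℂ) + (g l : ℂ)))).card ≤
        M * ∑ l, ∏ l' ∈ Finset.univ.erase l, (2 * g₀ l' + 1)) := by
  obtain ⟨d, b, r, hr0, hrρ, hall⟩ := R.setup hρ hH
  refine ⟨r, hr0, hrρ, fun δ D m η hη hη1 => ?_, fun δ D m A₀ => ?_⟩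
  · obtain ⟨bl, hW, hE, hS⟩ := hall δ
    obtain ⟨c, C, hc, hC0, hC⟩ := specT_count hW (fun l => Bp_phi (bl l)) hr0 (fun l => (hE l).some) (R.lam b) D m hη hη1
    refine ⟨c, C, hc, hC0, fun K₀ hK₀ hKD T hT a ha => le_trans ?_ (hC K₀ hK₀ hKD T hT a ha)⟩
    refine Nat.cast_le.2 (Finset.card_le_card fun β hβ => ?_)
    obtain ⟨hβ1, hβ2⟩ := Finset.mem_filter.1 hβ
    exact Finset.mem_filter.2 ⟨hβ1, fun hh => hβ2 ⟨hh.1, fun t ht => hS _ _ _ hh.1 (hh.2 t ht)⟩⟩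
  · obtain ⟨bl, hW, hE, hS⟩ := hall δ
    have hWz : ∀ l, Wz (phi (bl l)) := fun l => by
      obtain ⟨G, hG, hG'⟩ := hW l
      exact Wz.of hG hG'
    obtain ⟨M, E', hM⟩ := specT_win hWz (fun l => Bp_phi (bl l)) hr0 (fun l => (hE l).some) (R.lam b) D m A₀
    refine ⟨M, E', fun K₀ hK₀ hKD g₀ K ξ X h1 h2 h3 h4 h5 => le_trans ?_ (hM K₀ hK₀ hKD g₀ K ξ X h1 h2 h3 h4 h5)⟩
    refine Finset.card_le_card fun g hg => ?_
    obtain ⟨hg1, hg2⟩ := Finset.mem_filter.1 hg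
    exact Finset.mem_filter.2 ⟨hg1, fun hh => hg2 ⟨hh.1, fun t ht => hS _ _ _ hh.1 (hh.2 t ht)⟩⟩

end Pool.Agent.NH25.DL
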