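import Pool.Agent.NH25.DL.Inst
import Pool.Agent.NH25.AP.Crv
import Pool.Agent.Y921.DB.Res
import Pool.Agent.Y120.A.Gf

/-!
# Families over number fields with unipotent monodromy: restriction of scalars
-/

set_option autoImplicit false

open PowerSeries Module
open scoped Matrix

namespace Pool.Agent.NH25.DL

open Pool.Agent.Y113 Pool.Agent.Y921.DB Pool.Agent.Y916.Af

/-- a common denominator for finitely many polynomials -/
lemma exists_intP {α : Type} [Fintype α] (P : α → Polynomial ℚ) : ∃ (m : ℤ) (Q : α → Polynomial ℤ), m ≠ 0 ∧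
    ∀ a, (Q a).map (Int.castRingHom ℚ) = Polynomial.C (m : ℚ) * P a := by
  classical
  have h1 : ∀ a, ∃ (m : ℤ) (Q : Polynomial ℤ), m ≠ 0 ∧ Q.map (Int.castRingHom ℚ) = Polynomial.C (m : ℚ) * P a := by
    intro a
    obtain ⟨b, hb⟩ := IsLocalization.integerNormalization_map_to_map (nonZeroDivisors ℤ) (P a)
    refine ⟨b, IsLocalization.integerNormalization (nonZeroDivisors ℤ) (P a), nonZeroDivisors.coe_ne_zero b, ?_⟩
    have h2 : (algebraMap ℤ ℚ) = Int.castRingHom ℚ := rfl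
    rw [h2] at hb
    rw [Polynomial.C_mul', Int.cast_smul_eq_zsmul]
    exact hb
  choose m Q hm hQ using h1
  refine ⟨∏ a, m a, fun a => Polynomial.C (∏ a' ∈ Finset.univ.erase a, m a') * Q a,
    Finset.prod_ne_zero_iff.2 fun a _ => hm a, fun a => ?_⟩
  rw [Polynomial.map_mul, Polynomial.map_C, hQ, ← mul_assoc, ← Polynomial.C_mul, eq_intCast]
  congr 2
  rw [← Finset.mul_prod_erase Finset.univ m (Finset.mem_univ a)]
  push_cast
  ring


variable {L : Type} [Field L] [NumberField L] {n : ℕ}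

/-- families over `L` with unipotent monodromy (rows: solutions) -/
structure LFam (N : Matrix (Fin n) (Fin n) ℤ) (H : Matrix (Fin n) (Fin n) L⟦X⟧) : Prop where
  nil : N ^ n = 0
  one : ∀ i j, coeff 0 (H i j) = if i = j then 1 else 0
  ode : ∃ (T : Polynomial L) (A : Fin n → Fin n → Polynomial L), T.coeff 0 ≠ 0 ∧ ∀ i j,
    (T : L⟦X⟧) * (X * PowerSeries.derivative L (H i j) + ∑ l, C (N i l : L) * H l j) = ∑ l, H i l * (A l j : L⟦X⟧)
  gfun : ∀ i j, GFn (H i j)
  inv : ∃ W : Matrix (Fin n) (Fin n) L⟦X⟧, H * W = 1 ∧ ∀ i j, GFn (W i j)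

/-- the restricted nilpotent matrix -/
def Nr (d : ℕ) (N : Matrix (Fin n) (Fin n) ℤ) : Matrix (Fin (n * d)) (Fin (n * d)) ℤ := fun r s =>
  if (Pool.Agent.Y921.DB.ix n d r).2 = (Pool.Agent.Y921.DB.ix n d s).2 then
    N (Pool.Agent.Y921.DB.ix n d r).1 (Pool.Agent.Y921.DB.ix n d s).1 else 0

lemma Nr_pow (d : ℕ) (N : Matrix (Fin n) (Fin n) ℤ) (k : ℕ) : Nr d N ^ k = Nr d (N ^ k) := by
  classical
  induction k with
  | zero =>
    rw [pow_zero, pow_zero]
    ext r s
    unfold Nr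
    rw [Matrix.one_apply, Matrix.one_apply]
    by_cases hrs : r = s
    · subst hrs
      simp
    · rw [if_neg hrs]
      by_cases h2 : (Pool.Agent.Y921.DB.ix n d r).2 = (Pool.Agent.Y921.DB.ix n d s).2
      · rw [if_pos h2, if_neg]
        intro h1
        exact hrs ((Pool.Agent.Y921.DB.ix n d).injective (Prod.ext h1 h2))
      · rw [if_neg h2]
  | succ k ih =>
    rw [pow_succ, pow_succ, ih]
    ext r s
    rw [Matrix.mul_apply, ← (Pool.Agent.Y921.DB.ix n d).symm.sum_comp, Fintype.sum_prod_type]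
    unfold Nr
    simp only [Equiv.apply_symm_apply]
    by_cases h2 : (Pool.Agent.Y921.DB.ix n d r).2 = (Pool.Agent.Y921.DB.ix n d s).2
    · rw [if_pos h2, Matrix.mul_apply]
      refine Finset.sum_congr rfl fun l _ => ?_
      rw [Finset.sum_eq_single (Pool.Agent.Y921.DB.ix n d s).2]
      · rw [if_pos h2, if_pos rfl]
      · intro c _ hc
        rw [if_neg hc, mul_zero]
      · intro hh
        exact absurd (Finset.mem_univ _) hh
    · rw [if_neg h2]
      refine Finset.sum_eq_zero fun l _ => Finset.sum_eq_zero fun c _ => ?_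
      by_cases h3 : (Pool.Agent.Y921.DB.ix n d r).2 = c
      · rw [if_neg (fun h4 : c = _ => h2 (h3.trans h4)), mul_zero]
      · rw [if_neg h3, zero_mul]

lemma Nr_nil {d : ℕ} (hd : 1 ≤ d) {N : Matrix (Fin n) (Fin n) ℤ} (hN : N ^ n = 0) : Nr d N ^ (n * d) = 0 := by
  have h1 : Nr d N ^ n = 0 := by
    rw [Nr_pow, hN]
    ext r s
    unfold Nr
    split_ifs <;> rfl
  exact pow_eq_zero_of_le (Nat.le_mul_of_pos_right n hd) h1

/-- **Restriction of scalars.** -/
theorem LFam.gfs {N : Matrix (Fin n) (Fin n) ℤ} {H : Matrix (Fin n) (Fin n) L⟦X⟧} (h : LFam N H) {d : ℕ} (hd : 1 ≤ d)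
    (b : Module.Basis (Fin d) ℚ L) (hb1 : ∀ i, IsIntegral ℤ (b i))
    (hb2 : ∀ x : L, IsIntegral ℤ x → ∀ i, ∃ a : ℤ, b.repr x i = a) :
    ∃ (T : Polynomial ℤ) (A : Fin ((n * d) * (n * d)) → Fin ((n * d) * (n * d)) → Polynomial ℤ),
      GFs T A (Pool.Agent.NH25.AP.hT (Matrix.of (Zr b fun i j => H i j))) := by
  classical
  obtain ⟨T, A, hT0, hode⟩ := h.ode
  obtain ⟨W, hW1, hW2⟩ := h.inv
  obtain ⟨F, g, hF0, hFg⟩ := exists_rat_mult T hT0
  set P : Option (Fin (n * d) × Fin (n * d)) → Polynomial ℚ := fun o => o.elim F fun p =>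
    rhoP b (g * A (Pool.Agent.Y921.DB.ix n d p.1).1 (Pool.Agent.Y921.DB.ix n d p.2).1)
      (Pool.Agent.Y921.DB.ix n d p.1).2 (Pool.Agent.Y921.DB.ix n d p.2).2 with hP
  obtain ⟨m, Q, hm, hQ⟩ := exists_intP P
  have hF : F ≠ 0 := by
    rintro rfl
    simp at hF0
  have hQ0 : Q none ≠ 0 := by
    intro h0
    have h1 := hQ none
    rw [h0, Polynomial.map_zero] at h1
    have h2 : Polynomial.C (m : ℚ) * F ≠ 0 := mul_ne_zero (by
      rw [Ne, Polynomial.C_eq_zero]
      exact_mod_cast hm) hF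
    exact h2 h1.symm
  set Hr : Matrix (Fin (n * d)) (Fin (n * d)) ℚ⟦X⟧ := Matrix.of (Zr b fun i j => H i j) with hHr
  set Wr : Matrix (Fin (n * d)) (Fin (n * d)) ℚ⟦X⟧ := Matrix.of (Zr b fun i j => W i j) with hWr
  have hpsQ : ∀ o, ps (Q o) = C (m : ℚ) * (P o : ℚ⟦X⟧) := by
    intro o
    show ((((Q o).map (Int.castRingHom ℚ)) : Polynomial ℚ) : ℚ⟦X⟧) = _
    rw [hQ, Polynomial.coe_mul, Polynomial.coe_C]
  have hHW : Hr * Wr = 1 := by
    ext1 r s
    rw [Matrix.mul_apply, ← (Pool.Agent.Y921.DB.ix n d).symm.sum_comp, Fintype.sum_prod_type]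
    simp only [hHr, hWr, Matrix.of_apply, Zr, Equiv.apply_symm_apply]
    have h1 : ∀ k, ∑ l, rho b (H (Pool.Agent.Y921.DB.ix n d r).1 k) (Pool.Agent.Y921.DB.ix n d r).2 l *
        rho b (W k (Pool.Agent.Y921.DB.ix n d s).1) l (Pool.Agent.Y921.DB.ix n d s).2 =
        rho b (H (Pool.Agent.Y921.DB.ix n d r).1 k * W k (Pool.Agent.Y921.DB.ix n d s).1)
          (Pool.Agent.Y921.DB.ix n d r).2 (Pool.Agent.Y921.DB.ix n d s).2 := fun k => (rho_mul b _ _ _ _).symm
    rw [Finset.sum_congr rfl fun k _ => h1 k, ← rho_sum]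
    have h2 := congrFun (congrFun hW1 (Pool.Agent.Y921.DB.ix n d r).1) (Pool.Agent.Y921.DB.ix n d s).1
    rw [Matrix.mul_apply, Matrix.one_apply] at h2
    rw [h2, Matrix.one_apply]
    by_cases hrs : r = s
    · subst hrs
      rw [if_pos rfl, if_pos rfl, rho_one, if_pos rfl]
    · rw [if_neg hrs]
      split_ifs with h3
      · rw [rho_one, if_neg]
        intro h4
        exact hrs ((Pool.Agent.Y921.DB.ix n d).injective (Prod.ext h3 h4))
      · exact rho_zero b _ _
  have hone : ∀ r s, coeff 0 (Hr r s) = if r = s then 1 else 0 := by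
    intro r s
    show coeff 0 (rho b _ _ _) = _
    rw [coeff_rho, h.one]
    by_cases hrs : r = s
    · subst hrs
      rw [if_pos rfl, if_pos rfl, map_one, Matrix.one_apply_eq]
    · rw [if_neg hrs]
      split_ifs with h3
      · rw [map_one, Matrix.one_apply_ne]
        intro h4
        exact hrs ((Pool.Agent.Y921.DB.ix n d).injective (Prod.ext h3 h4))
      · rw [map_zero]; rfl
  have hodeR : ∀ r s, ps (Q none) * (X * PowerSeries.derivative ℚ (Hr r s) + ∑ l, C (Nr d N r l : ℚ) * Hr l s) =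
      ∑ l, Hr r l * ps (Q (some (l, s))) := by
    intro r s
    obtain ⟨⟨i, a⟩, rfl⟩ := (Pool.Agent.Y921.DB.ix n d).symm.surjective r
    obtain ⟨⟨j, c⟩, rfl⟩ := (Pool.Agent.Y921.DB.ix n d).symm.surjective s
    have h1 : PowerSeries.map (algebraMap ℚ L) (F : ℚ⟦X⟧) * (X * PowerSeries.derivative L (H i j) +
        ∑ l, C (N i l : L) * H l j) = ∑ l, H i l * ((g * A l j : Polynomial L) : L⟦X⟧) := by
      have e1 : PowerSeries.map (algebraMap ℚ L) (F : ℚ⟦X⟧) = ((F.map (algebraMap ℚ L) : Polynomial L) : L⟦X⟧) :=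
        (Polynomial.polynomial_map_coe).symm
      rw [e1, hFg, Polynomial.coe_mul, mul_assoc, hode, Finset.mul_sum]
      refine Finset.sum_congr rfl fun k _ => ?_
      rw [Polynomial.coe_mul]
      ring
    have h2 := congrArg (fun Y => rho b Y a c) h1
    beta_reduce at h2
    rw [rho_rat, rho_sum] at h2
    have hadd : ∀ Y Y' : L⟦X⟧, rho b (Y + Y') a c = rho b Y a c + rho b Y' a c := by
      intro Y Y'
      ext k
      rw [map_add, coeff_rho, coeff_rho, coeff_rho, map_add, map_add, Matrix.add_apply]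
    have hX : ∀ Y : L⟦X⟧, rho b (X * Y) a c = X * rho b Y a c := by
      intro Y
      have h3 := rho_rat b (X : ℚ⟦X⟧) Y a c
      rw [PowerSeries.map_X] at h3
      exact h3
    have hCm : ∀ (z : ℤ) (Y : L⟦X⟧), rho b (C (z : L) * Y) a c = C (z : ℚ) * rho b Y a c := by
      intro z Y
      have h3 := rho_rat b (C (z : ℚ)) Y a c
      rw [PowerSeries.map_C, map_intCast] at h3
      exact h3
    rw [hadd, hX, rho_sum] at h2
    have h4 : ∑ l, C (Nr d N ((Pool.Agent.Y921.DB.ix n d).symm (i, a)) l : ℚ) *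
        Hr l ((Pool.Agent.Y921.DB.ix n d).symm (j, c)) = ∑ l, rho b (C (N i l : L) * H l j) a c := by
      rw [← (Pool.Agent.Y921.DB.ix n d).symm.sum_comp, Fintype.sum_prod_type]
      refine Finset.sum_congr rfl fun l _ => ?_
      rw [hCm, Finset.sum_eq_single a]
      · simp only [Nr, hHr, Matrix.of_apply, Zr, Equiv.apply_symm_apply, if_true]
      · intro e _ he
        simp only [Nr, Equiv.apply_symm_apply]
        rw [if_neg (Ne.symm he)]
        simp
      · intro hh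
        exact absurd (Finset.mem_univ _) hh
    have h5 : ∑ l, Hr ((Pool.Agent.Y921.DB.ix n d).symm (i, a)) l *
        ps (Q (some (l, (Pool.Agent.Y921.DB.ix n d).symm (j, c)))) =
        C (m : ℚ) * ∑ l, rho b (H i l * ((g * A l j : Polynomial L) : L⟦X⟧)) a c := by
      rw [← (Pool.Agent.Y921.DB.ix n d).symm.sum_comp, Fintype.sum_prod_type, Finset.mul_sum]
      refine Finset.sum_congr rfl fun l _ => ?_
      rw [rho_mul, Finset.mul_sum]
      refine Finset.sum_congr rfl fun e _ => ?_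
      rw [hpsQ]
      simp only [hP, Option.elim_some, hHr, Matrix.of_apply, Zr, Equiv.apply_symm_apply, coe_rhoP]
      ring
    have h6 : PowerSeries.derivative ℚ (Hr ((Pool.Agent.Y921.DB.ix n d).symm (i, a))
        ((Pool.Agent.Y921.DB.ix n d).symm (j, c))) = rho b (PowerSeries.derivative L (H i j)) a c := by
      rw [← rho_der]
      simp only [hHr, Matrix.of_apply, Zr, Equiv.apply_symm_apply]
    have h7 : (P none : ℚ⟦X⟧) = (F : ℚ⟦X⟧) := rfl
    rw [h5, ← h2, h4, h6, hpsQ, h7, mul_assoc]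
  have hN0 : ((Nr d N).map (Int.cast : ℤ → ℚ))ᵀ ^ (n * d) = 0 := by
    have h1 := map_pow (RingHom.mapMatrix (m := Fin (n * d)) (Int.castRingHom ℚ)) (Nr d N) (n * d)
    rw [Nr_nil hd h.nil, map_zero] at h1
    rw [← Matrix.transpose_pow]
    have h2 : ((Nr d N).map (Int.cast : ℤ → ℚ)) ^ (n * d) = 0 := h1.symm
    rw [h2, Matrix.transpose_zero]
  have hf := Pool.Agent.Y120.J.A.gfs_gen (H := Hrᵀ) (W := Wrᵀ) (N := ((Nr d N).map (Int.cast : ℤ → ℚ))ᵀ)
    (Nz := fun i j => Nr d N j i) (T₁ := Q none) (A := fun i j => Q (some (j, i))) hN0 (fun i j => rfl) hQ0 (by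
      rw [← Matrix.transpose_mul, mul_eq_one_comm.1 hHW, Matrix.transpose_one])
    (fun i j => by
      rw [Matrix.transpose_apply, hone]
      simp only [eq_comm])
    (fun i j => by
      have h1 := hodeR j i
      have h2 : ∑ l, C (Nr d N j l : ℚ) * Hr l i = ∑ l, Hrᵀ i l * C (((Nr d N).map (Int.cast : ℤ → ℚ))ᵀ l j) := by
        refine Finset.sum_congr rfl fun l _ => ?_
        rw [mul_comm]
        rfl
      have h3 : ∑ l, Hr j l * ps (Q (some (l, i))) = ∑ l, ps (Q (some (l, i))) * Hrᵀ l j := by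
        refine Finset.sum_congr rfl fun l _ => ?_
        rw [mul_comm]
        rfl
      rw [h2, h3] at h1
      exact h1)
    (fun i j => SDc_rho b hb1 hb2 (h.gfun _ _) _ _) (fun i j => SDc_rho b hb1 hb2 (hW2 _ _) _ _)
  exact ⟨_, _, hf⟩

end Pool.Agent.NH25.DL
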