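import Pool.Agent.Y916.Af.Gs
import Pool.Agent.NH25.DG.Win

/-!
# Windows for words in G-functions and powers of the logarithm

The proof of `famE` is that of helper547 (`famC`), with more information on the basis.
-/

set_option autoImplicit false
set_option maxHeartbeats 400000

open PowerSeries Module

namespace Pool.Agent.NH25.DL

open PowerSeries Pool.Agent.Y113 Pool.Agent.Y120.GF Pool.Agent.Y120.GH Pool.Agent.Y916.Al Pool.Agent.Y118.UL
  Pool.Agent.Y916.Af Pool.Agent.Y547.AF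

/-- **Windows for the words and powers of the logarithm**, with the properties of the basis -/
theorem famE {r : ℕ} {h : Fin r → ℚ⟦X⟧} {T : Polynomial ℤ} {A : Fin r → Fin r → Polynomial ℤ} (hT : T ≠ 0)
    (hode : ∀ i, ps T * d⁄dX ℚ (h i) = ∑ j, ps (A i j) * h j)
    (hsize : ∃ C : ℝ, ∀ i m, |((coeff m (h i) : ℚ) : ℝ)| ≤ C ^ (m + 1))
    (hgs : ∃ (q : ℕ) (C : ℝ), GSys q C T h)
    (hqu : QU0 T A) :
    ∃ R : ℕ, ∀ δ : ℕ,
      ∃ B : Finset (Fin δ → Option (Fin r)), (fun _ => none) ∈ B ∧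
        LinearIndependent (Polynomial ℚ) (fun b : B => (yw h b.1 : ℚ⟦X⟧)) ∧
        (∃ (a : Polynomial ℤ) (M : (Fin δ → Option (Fin r)) → B → Polynomial ℤ), a ≠ 0 ∧
          ∀ b : Fin δ → Option (Fin r), ps a * yw h b = ∑ β, ps (M b β) * yw h β.1) ∧
        (∃ C : ℝ, 1 ≤ C ∧ ∀ (b : Fin δ → Option (Fin r)) m, |((coeff m (yw h b : ℚ⟦X⟧) : ℚ) : ℝ)| ≤ C ^ (m + 1)) ∧
        ∀ N d A : ℕ, ∃ E : ℕ, ∀ (H : ℕ) (K : IntermediateField ℚ ℂ) (ξ : K) (X : ℝ), FiniteDimensional ℚ K →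
        Module.finrank ℚ K ≤ d → Pt K ξ X → ((H : ℝ) + 2) ^ E ≤ ‖(ξ : ℂ)‖ → X ≤ ‖(ξ : ℂ)‖ ^ A →
        ∀ g : Fin N → ℕ, SepR R g → (∀ l, g l ≤ H) → ∀ (n : ℕ) (a : Fin n → (Fin N → B × Fin (δ + 1)) → ℚ),
        LinearIndependent ℚ a → (∀ i, ∑ b, ((a i b : ℚ) : ℂ) *
          ∏ l, evc (1 / (ξ : ℂ)) (Fg (δ + 1) (fun β : B => yw h β.1) (g l) (b l)) = 0) →
        2 * A * d * (Fintype.card (Fin N → B × Fin (δ + 1)) - n) ≤ Fintype.card (Fin N → B × Fin (δ + 1)) → False := by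
  classical
  obtain ⟨q, C, hG⟩ := hgs
  obtain ⟨Ch, hCh⟩ := hsize
  obtain ⟨e, he, M₀, K, Φ, hΦc, hΦe, hΦd⟩ := hqu
  -- the radii
  set τ : ℝ := |K| + |Ch| + 1 with hτd
  have hτ1 : 1 ≤ τ := by
    have := abs_nonneg K
    have := abs_nonneg Ch
    linarith
  have hτ0 : 0 < τ := by linarith
  have hτe : τ ≤ τ ^ e := le_self_pow₀ hτ1 he
  set τ' : ℝ := τ + 1 with hτ'd
  have hρρ : τ ^ e < τ' ^ e := pow_lt_pow_left₀ (by linarith) hτ0.le he
  obtain ⟨R, hR⟩ := exists_nat_gt (τ ^ e + τ' ^ e)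
  refine ⟨R, fun δ => ?_⟩
  obtain ⟨C', hG'⟩ := gsys_tens (gsys_opt hG) δ
  have hyw : (fun b : Fin δ → Option (Fin r) => ∏ j, (fun o : Option (Fin r) => o.elim 1 h) (b j)) = fun b => yw h b := rfl
  rw [hyw] at hG'
  have hone : yw h (fun _ : Fin δ => none) = 1 := by
    unfold yw
    exact Finset.prod_eq_one fun j _ => rfl
  obtain ⟨B, hBB, hLI, a, M, ha, hM⟩ := max_li' (fun b : Fin δ → Option (Fin r) => yw h b) {fun _ => none} (by
    intro g hg i hi
    rw [Finset.sum_singleton, hone, mul_one] at hg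
    rw [Finset.mem_singleton.1 hi]
    exact Polynomial.coe_injective ℚ (hg.trans (Polynomial.coe_zero (R := ℚ)).symm))
  have hb₀ : (fun _ => none) ∈ B := hBB (Finset.mem_singleton_self _)
  refine ⟨B, hb₀, hLI, ⟨a, M, ha, hM⟩, ⟨C', hG'.one_le, hG'.size⟩, fun N d₁ A₁ => ?_⟩
  obtain ⟨q', C'', hG''⟩ := gsys_sub hG' (fun β : B => yw h β.1) (fun β => β.1) (fun β => rfl) a M hM
  have hmem1 : ∀ i, cx (h i) ∈ Cw (τ ^ e) := fun i =>
    Cw_mono (by
      have := abs_nonneg K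
      linarith) (cx_mem (abs_nonneg Ch) fun m => (hCh i m).trans (by
        rw [← abs_pow]
        exact le_abs_self _))
  have hmem : ∀ b : Fin δ → Option (Fin r), cx (yw h b : ℚ⟦X⟧) ∈ Cw (τ ^ e) := by
    intro b
    unfold yw
    rw [map_prod]
    refine Subring.prod_mem _ fun j _ => ?_
    rcases b j with _ | i
    · show cx 1 ∈ _
      rw [map_one]
      exact Subring.one_mem _
    · exact hmem1 i
  set Tc : Polynomial ℂ := T.map (Int.castRingHom ℂ) with hTc
  set Ac : Fin r → Fin r → Polynomial ℂ := fun i j => (A i j).map (Int.castRingHom ℂ) with hAc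
  have hTc0 : Tc ≠ 0 := (Polynomial.map_ne_zero_iff (Int.castRingHom ℂ).injective_int).2 hT
  have hQU : QU he τ Tc (AT (δ := δ) (A1 Ac)) := by
    refine qu_tens he δ (qu_one he ⟨M₀, Φ, fun i j k => mem_Cw_of_bound ?_ (hΦc i j k), hΦe, hΦd⟩)
    have := abs_nonneg Ch
    linarith
  -- the differential equation of the products
  have hodeC : ∀ i, (Tc : PowerSeries ℂ) * PowerSeries.derivative ℂ (cx (h i)) = ∑ j, (Ac i j : PowerSeries ℂ) * cx (h j) := by
    intro i
    have h1 := congrArg cx (hode i)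
    rw [map_mul, map_sum, cx_der, cx_ps] at h1
    rw [h1]
    refine Finset.sum_congr rfl fun j _ => ?_
    rw [map_mul, cx_ps]
  have hodeT : ∀ b : Fin δ → Option (Fin r), (Tc : PowerSeries ℂ) * PowerSeries.derivative ℂ (cx (yw h b)) =
      ∑ b', ((AT (δ := δ) (A1 Ac) b b' : Polynomial ℂ) : PowerSeries ℂ) * cx (yw h b') := by
    intro b
    have h1 := tens_der (δ := δ) (fun f : PowerSeries ℂ => PowerSeries.derivative ℂ f) (Derivation.map_one_eq_zero _)
      (fun f g => by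
        rw [Derivation.leibniz]
        rfl) (Tc : PowerSeries ℂ) 0
      (fun i l : Option (Fin r) => ((A1 Ac i l : Polynomial ℂ) : PowerSeries ℂ))
      (fun _ o => cx (o.elim 1 h)) (fun j o => by
        rw [zero_mul, zero_add, Fintype.sum_option]
        rcases o with _ | i
        · show _ * PowerSeries.derivative ℂ (cx 1) = ((0 : Polynomial ℂ) : PowerSeries ℂ) * _ +
            ∑ j, ((0 : Polynomial ℂ) : PowerSeries ℂ) * _
          rw [map_one, Derivation.map_one_eq_zero]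
          simp
        · show _ = ((0 : Polynomial ℂ) : PowerSeries ℂ) * _ + ∑ j, (Ac i j : PowerSeries ℂ) * cx (h j)
          rw [← hodeC i]
          simp) b
    have h2 : ∀ b : Fin δ → Option (Fin r), cx (yw h b) = ∏ j, cx ((b j).elim 1 h) := fun b => map_prod _ _ _
    rw [h2 b]
    refine h1.trans ?_
    rw [mul_zero, zero_mul, zero_add]
    refine Finset.sum_congr rfl fun b' _ => ?_
    rw [h2 b']
    congr 1
    let f : Polynomial ℂ →+ PowerSeries ℂ := (Polynomial.coeToPowerSeries.ringHom (R := ℂ)).toAddMonoidHom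
    exact (AT_map f (A1 Ac) b b').symm
  have hdisc : Disc (τ ^ e) (τ' ^ e) fun b : (B : Set (Fin δ → Option (Fin r))) => cx (yw h b.1) :=
    disc_of_qu he hτ0 (by linarith) (fun b => cx (yw h b)) hmem Tc hTc0 _ hodeT hQU
      (B : Set (Fin δ → Option (Fin r))) (by
      intro G hG
      refine li_cx (κ := (B : Set (Fin δ → Option (Fin r)))) ?_ G hG
      exact hLI)
  obtain ⟨q₀, E₀, hsys⟩ := gsys_Fg hG'' δ
  obtain ⟨c, hc⟩ := Tg_neC (mul_ne_zero ha hT) hG''.degT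
  obtain ⟨E, hE⟩ := gsys_shift hG''
  obtain ⟨E₁, hE₁⟩ := liC (F := Fg (δ + 1) (fun β : B => yw h β.1)) (Tg := Pool.Agent.Y120.GH.Tg q' (a * T)) (c := c)
    (b₀ := ((⟨fun _ => none, hb₀⟩ : B), (0 : Fin (δ + 1)))) (by
      intro g
      show sf g (yw h fun _ : Fin δ => none) * yQ g ((0 : Fin (δ + 1)) : ℕ) = 1
      rw [hone]
      have h1 : sf g 1 = 1 := by
        have := sf_nat g 1
        simpa using this
      rw [h1, one_mul]
      exact yQ_nil g) hsys hc N d₁ A₁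
  refine ⟨E₁, fun H K' ξ X hK' hd hPt hHt hX g hg hgH => hE₁ H K' ξ X hK' hd hPt hHt hX g hgH ?_⟩
  refine li_shift (ρ := τ ^ e) (ρ' := τ' ^ e) (C := C'') (y := fun β : B => yw h β.1) (by positivity) hρρ
    (by have := hG''.one_le; linarith) (fun β => hmem _) hdisc hG''.size (fun g => ⟨((g : ℝ) + 2) ^ E, by positivity,
      (hE g).size⟩) hR (δ + 1) N g (fun l => by exact_mod_cast hg.1 l) fun l l' hl => ?_
  rcases hg.2 l l' hl with h1 | h1
  · have h2 : (g l : ℝ) + R ≤ g l' := by exact_mod_cast h1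
    rw [abs_sub_comm]
    exact le_trans (by linarith) (le_abs_self _)
  · have h2 : (g l' : ℝ) + R ≤ g l := by exact_mod_cast h1
    exact le_trans (by linarith) (le_abs_self _)

end Pool.Agent.NH25.DL
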