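import Pool.Agent.NH25.DL.Main

/-!
# The values of words in G-functions and powers of the logarithm: the hypotheses of the abstract theorems
-/

set_option autoImplicit false
set_option maxHeartbeats 400000

open PowerSeries Module

namespace Pool.Agent.NH25.DL

open Pool.Agent.Y113 Pool.Agent.Y113.GG Pool.Agent.Y120.GF Pool.Agent.Y120.GH Pool.Agent.Y118.HG Pool.Agent.Y916 Pool.Agent.Y916.Al
  Pool.Agent.Y916.Af Pool.Agent.Y547.AF Pool.Agent.Y921.DB Pool.Agent.NH25.DG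

variable {r : ℕ} {h : Fin r → ℚ⟦X⟧}

theorem Bp_phi {δ : ℕ} (b : BasL h δ) : Bp (phi b) := by
  classical
  refine ⟨Fintype.card b.B * 3 ^ δ, fun x => ?_⟩
  set f : Option (Option Unit) → ℂ := fun o => o.elim 1 fun o => o.elim (2 * Real.pi * Complex.I) fun _ => Complex.log x
    with hf
  set W : Submodule ℚ ℂ := Submodule.span ℚ (Set.range f) with hW
  have hW1 : (1 : ℂ) ∈ W := Submodule.subset_span ⟨none, rfl⟩
  have hWpi : (2 * Real.pi * Complex.I : ℂ) ∈ W := Submodule.subset_span ⟨some none, rfl⟩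
  have hWl : Complex.log x ∈ W := Submodule.subset_span ⟨some (some ()), rfl⟩
  have hWf : Module.Finite ℚ W := Module.Finite.span_of_finite ℚ (Set.finite_range _)
  have hWd : finrank ℚ W ≤ 3 := by
    refine (finrank_range_le_card _).trans ?_
    simp
  obtain ⟨hp1, hp2⟩ := Pool.Agent.Y916.Om.finrank_pow_le W δ
  set w : b.B → ℂ := fun β => yw (fun j => evc (1 / x) (h j)) β.1 with hw
  set S : Submodule ℚ ℂ := Submodule.span ℚ (Set.range w) with hS
  have hSf : Module.Finite ℚ S := Module.Finite.span_of_finite ℚ (Set.finite_range _)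
  have hSd : finrank ℚ S ≤ Fintype.card b.B := finrank_range_le_card _
  obtain ⟨hq1, hq2⟩ := finrank_mul_le S (W ^ δ)
  refine ⟨S * W ^ δ, hq1, hq2.trans (Nat.mul_le_mul hSd (hp2.trans (Nat.pow_le_pow_left hWd _))), fun t ht e => ?_⟩
  have hx0 : x ≠ 0 := by
    rw [← ht]
    exact Complex.exp_ne_zero _
  obtain ⟨n, hn⟩ := Complex.exp_eq_exp_iff_exists_int.1 (ht.trans (Complex.exp_log hx0).symm)
  have h4 : t ∈ W := by
    rw [hn]
    refine add_mem hWl ?_
    rw [← zsmul_eq_mul]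
    exact Submodule.smul_of_tower_mem _ _ hWpi
  refine Submodule.mul_mem_mul (Submodule.subset_span ⟨e.1, rfl⟩) ?_
  have h5 := Submodule.pow_mem_pow W h4 (e.2 : ℕ)
  obtain ⟨c, hc⟩ := Nat.exists_eq_add_of_le (show (e.2 : ℕ) ≤ δ by have := e.2.2; omega)
  have h6 := Submodule.mul_mem_mul h5 (Submodule.pow_mem_pow W hW1 c)
  rw [one_pow, mul_one, ← pow_add, ← hc] at h6
  exact h6

/-- padding of words -/
lemma exists_pad {δ δ' : ℕ} (hδ : δ ≤ δ') (b : Fin δ → Option (Fin r)) : ∃ b' : Fin δ' → Option (Fin r),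
    ∀ (M : Type) [CommMonoid M] (z : Fin r → M), yw z b' = yw z b := by
  obtain ⟨c, rfl⟩ := Nat.exists_eq_add_of_le hδ
  refine ⟨Fin.append b fun _ => none, fun M _ z => ?_⟩
  unfold yw
  rw [Fin.prod_univ_add]
  simp

/-- the letters -/
noncomputable def yl (h : Fin r → ℚ⟦X⟧) (e : ℕ) (z t : ℂ) (p : Option (Fin r) × Fin (e + 1)) : ℂ :=
  p.1.elim 1 (fun q => evc z (h q)) * t ^ (p.2 : ℕ)

lemma wv_yl (e : ℕ) {δ : ℕ} (z t : ℂ) (g : Fin δ → Option (Option (Fin r) × Fin (e + 1))) :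
    wv (yl h e z t) g = yw (fun q => evc z (h q)) (fun a => (g a).elim none fun p => p.1) *
      t ^ (∑ a, (g a).elim 0 fun p => (p.2 : ℕ)) := by
  unfold wv yw
  rw [← Finset.prod_pow_eq_pow_sum, ← Finset.prod_mul_distrib]
  refine Finset.prod_congr rfl fun a _ => ?_
  cases hga : g a with
  | none => simp [hga]
  | some p =>
    simp only [hga, Option.elim_some]
    rfl

lemma evc_ps (z : ℂ) (P : Polynomial ℤ) : evc z (ps P) = Polynomial.aeval z P := by
  show evc z ((P.map (Int.castRingHom ℚ) : Polynomial ℚ) : ℚ⟦X⟧) = _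
  rw [Pool.Agent.Y916.Al.ev_coe]
  exact Polynomial.aeval_map_algebraMap ℚ z P

lemma cvc_ps (z : ℂ) (P : Polynomial ℤ) : Cvc z (ps P) := Cvc.coe _

lemma cvc_yw {z : ℂ} (hc : ∀ j, Cvc z (h j)) {δ : ℕ} (g : Fin δ → Option (Fin r)) :
    Cvc z (yw h g) ∧ evc z (yw h g) = yw (fun q => evc z (h q)) g := by
  have hcv : ∀ o : Option (Fin r), Cvc z (o.elim 1 h) := by
    rintro (_ | j)
    · exact Cvc.one
    · exact hc j
  unfold yw
  refine ⟨Cvc.prod _ _ fun j _ => hcv _, ?_⟩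
  rw [Cvc.ev_prod _ _ fun j _ => hcv _]
  refine Finset.prod_congr rfl fun j _ => ?_
  rcases g j with _ | i
  · exact Pool.Agent.Y916.Al.ev_one
  · rfl

/-- evaluation of the expansions -/
lemma red_ev {δ : ℕ} (b : BasL h δ) {z : ℂ} (hc : ∀ j, Cvc z (h j))
    (g : Fin δ → Option (Fin r)) : Polynomial.aeval z b.D * yw (fun q => evc z (h q)) g =
      ∑ β, Polynomial.aeval z (b.M g β) * yw (fun q => evc z (h q)) β.1 := by
  have h1 := congrArg (evc z) (b.red g)
  have h2 := Cvc.ev_sum (x := z) Finset.univ (fun β : b.B => ps (b.M g β) * yw h β.1)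
    (fun β _ => (cvc_ps z (b.M g β)).mul (cvc_yw hc β.1).1)
  have h3 := (cvc_ps z b.D).ev_mul (cvc_yw hc g).1
  rw [evc_ps, (cvc_yw hc g).2] at h3
  rw [← h3]
  refine (h1.trans h2).trans ?_
  refine Finset.sum_congr rfl fun β _ => ?_
  exact ((cvc_ps z _).ev_mul (cvc_yw hc β.1).1).trans (congrArg₂ (· * ·) (evc_ps z _) (cvc_yw hc β.1).2)

lemma cvc_bd {C : ℝ} (hC : 0 < C) {f : ℚ⟦X⟧} (hh : ∀ m, |((coeff m f : ℚ) : ℝ)| ≤ C ^ (m + 1)) {z : ℂ}
    (hz : ‖z‖ < 1 / C) : Cvc z f := by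
  refine Cvc.of_bound (A := C) (B := C) hC.le ?_ fun m => ?_
  · rw [lt_div_iff₀ hC] at hz
    linarith
  · rw [Complex.norm_ratCast, ← pow_succ']
    exact hh m

/-- the expansions -/
theorem Ex_phi (e δ : ℕ) (b : BasL h (δ * (e + 1))) {C : ℝ} (hC : 0 < C)
    (hh : ∀ j m, |((coeff m (h j) : ℚ) : ℝ)| ≤ C ^ (m + 1)) : Nonempty (Ex (phi b) (yl h e) (1 / C) δ) := by
  classical
  have hδ : δ ≤ δ * (e + 1) := Nat.le_mul_of_pos_right _ (Nat.succ_pos _)
  choose pad hpad using fun g : Fin δ → Option (Fin r) => exists_pad hδ g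
  set J : (Fin δ → Option (Option (Fin r) × Fin (e + 1))) → ℕ := fun g => ∑ a, (g a).elim 0 fun p => (p.2 : ℕ) with hJ
  have hJle : ∀ g, J g < δ * (e + 1) + 1 := by
    intro g
    have h1 : J g ≤ ∑ _a : Fin δ, e := by
      refine Finset.sum_le_sum fun a _ => ?_
      rcases g a with _ | ⟨q, j⟩
      · exact Nat.zero_le _
      · show (j : ℕ) ≤ e
        have := j.2
        omega
    rw [Finset.sum_const, Finset.card_univ, Fintype.card_fin, smul_eq_mul] at h1
    have h2 : δ * e ≤ δ * (e + 1) := Nat.mul_le_mul_left _ (Nat.le_succ _)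
    omega
  refine ⟨⟨b.D, fun g p => if (p.2 : ℕ) = J g then b.M (pad fun a => (g a).elim none fun q => q.1) p.1 else 0, b.hD,
    fun z hz t g => ?_⟩⟩
  have h1 := red_ev b (fun j => cvc_bd hC (hh j) hz) (pad fun a => (g a).elim none fun q => q.1)
  rw [hpad] at h1
  rw [wv_yl, ← mul_assoc, h1, Finset.sum_mul, Fintype.sum_prod_type]
  refine Finset.sum_congr rfl fun β _ => ?_
  rw [Finset.sum_eq_single (⟨J g, hJle g⟩ : Fin (δ * (e + 1) + 1))]
  · rw [if_pos rfl]
    unfold phi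
    rw [one_div_one_div]
    ring
  · intro j _ hj
    rw [if_neg (fun hh => hj (Fin.ext hh)), map_zero, zero_mul]
  · intro hh
    exact absurd (Finset.mem_univ _) hh

end Pool.Agent.NH25.DL
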