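import Pool.Agent.NH25.DL.Nd

/-!
# Windows of all integral translates
-/

set_option autoImplicit false

open PowerSeries Module

namespace Pool.Agent.NH25.DL

open Pool.Agent.Y113 Pool.Agent.Y916 Pool.Agent.Y916.Al Pool.Agent.NH25.DG Pool.Agent.Y921.DB

/-- translation of a point by an integer -/
theorem pt_add {K : IntermediateField ℚ ℂ} {ξ : K} {X : ℝ} (h : Al.Pt K ξ X) (c : ℕ) :
    Al.Pt K (ξ + (c : K)) ((1 + c) * X) := by
  obtain ⟨u, w, hu, hw, hw0, hx, hσ⟩ := h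
  have hc : IsIntegral ℤ (c : K) := by
    have h1 : ((c : ℤ) : K) = (c : K) := by norm_cast
    rw [← h1, ← eq_intCast (algebraMap ℤ K)]
    exact isIntegral_algebraMap
  have hX0 : 0 ≤ X := (norm_nonneg _).trans (hσ (algebraMap K ℂ)).1
  refine ⟨u + c * w, w, hu.add (hc.mul hw), hw, hw0, ?_, fun σ => ⟨?_, ?_⟩⟩
  · rw [hx]
    field_simp
  · rw [map_add, map_mul, map_natCast]
    refine (norm_add_le _ _).trans ?_
    rw [norm_mul, Complex.norm_natCast]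
    have h1 := (hσ σ).1
    have h2 : (c : ℝ) * ‖σ w‖ ≤ c * X := mul_le_mul_of_nonneg_left (hσ σ).2 (Nat.cast_nonneg c)
    linarith
  · refine (hσ σ).2.trans ?_
    have : 0 ≤ (c : ℝ) * X := by positivity
    linarith

/-- windows of integral translates in both directions -/
def Wz {κ : Type} [Fintype κ] (Φ : ℂ → ℂ → κ → ℂ) : Prop :=
  ∀ m A₀ D : ℕ, ∃ M E : ℕ, ∀ V : Submodule ℚ ℂ,
      Module.Finite ℚ V → finrank ℚ V ≤ D → ∀ (H : ℕ) (K : IntermediateField ℚ ℂ) (ξ : K) (X : ℝ),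
      FiniteDimensional ℚ K → finrank ℚ K ≤ m → Pt K ξ X → ((H : ℝ) + 2) ^ E ≤ ‖(ξ : ℂ)‖ → X ≤ ‖(ξ : ℂ)‖ ^ A₀ →
      ∀ S : Finset ℤ, (∀ g ∈ S, |g| ≤ (H : ℤ) ∧ ∃ t : ℂ, Complex.exp t = (ξ : ℂ) + (g : ℂ) ∧
        BadV V (Φ ((ξ : ℂ) + (g : ℂ)) t)) → S.card ≤ M

theorem Wz.of {κ : Type} [Fintype κ] {Φ : ℂ → ℂ → κ → ℂ} {G : ℕ} (hG : 1 ≤ G) (h : Wp Φ G) : Wz Φ := by
  classical
  intro m A₀ D
  obtain ⟨M, E, hE⟩ := h m (2 * (A₀ + 1)) D
  refine ⟨G * M, 2 * E + G + 4, fun V hV hVD H K ξ X hKf hKd hPt hξ hX S hS => ?_⟩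
  have hH0 : (0 : ℝ) ≤ H := Nat.cast_nonneg H
  have hH1 : (1 : ℝ) ≤ (H : ℝ) + 2 := by linarith
  have hpow : ∀ e, e ≤ 2 * E + G + 4 → ((H : ℝ) + 2) ^ e ≤ ‖(ξ : ℂ)‖ := fun e he =>
    (pow_le_pow_right₀ hH1 he).trans hξ
  have hGR : (1 : ℝ) ≤ G := by exact_mod_cast hG
  have hHG : 2 * ((H : ℝ) + G) ≤ ((H : ℝ) + 2) ^ (G + 2) := by
    have h1 : (G : ℝ) + 1 ≤ ((H : ℝ) + 2) ^ G := by
      have h2 : (G : ℝ) + 1 ≤ (2 : ℝ) ^ G := by
        have : G + 1 ≤ 2 ^ G := Nat.lt_two_pow_self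
        exact_mod_cast this
      exact h2.trans (pow_le_pow_left₀ (by norm_num) (by linarith) _)
    have h3 : (H : ℝ) + G ≤ ((H : ℝ) + 2) * ((H : ℝ) + 2) ^ G := by nlinarith
    calc 2 * ((H : ℝ) + G) ≤ ((H : ℝ) + 2) * (((H : ℝ) + 2) * ((H : ℝ) + 2) ^ G) := by nlinarith
      _ = _ := by ring
  have hξHG : 2 * ((H : ℝ) + G) ≤ ‖(ξ : ℂ)‖ := hHG.trans (hpow _ (by omega))
  have hξ16 : 16 ≤ ‖(ξ : ℂ)‖ := by
    refine le_trans ?_ (hpow 4 (by omega))
    calc (16 : ℝ) = 2 ^ 4 := by norm_num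
      _ ≤ _ := pow_le_pow_left₀ (by norm_num) (by linarith) 4
  have hX0 : 0 ≤ X := by
    obtain ⟨u, w, -, -, -, -, hσ⟩ := hPt
    exact (norm_nonneg _).trans (hσ (algebraMap K ℂ)).1
  -- the residue classes
  have hcov : S = (Finset.range G).biUnion fun j => S.filter fun g => (g - (H : ℤ)) % G = j := by
    ext g
    rw [Finset.mem_biUnion]
    constructor
    · intro hg
      have h1 := Int.emod_nonneg (g - (H : ℤ)) (show (G : ℤ) ≠ 0 by omega)
      have h2 := Int.emod_lt_of_pos (g - (H : ℤ)) (show (0 : ℤ) < G by omega)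
      obtain ⟨j, hj⟩ := Int.eq_ofNat_of_zero_le h1
      refine ⟨j, Finset.mem_range.2 (by omega), Finset.mem_filter.2 ⟨hg, hj⟩⟩
    · rintro ⟨j, -, hg⟩
      exact (Finset.mem_filter.1 hg).1
  rw [hcov]
  refine Finset.card_biUnion_le.trans ?_
  refine (Finset.sum_le_card_nsmul _ _ M fun j hj => ?_).trans (by simp)
  have hjG : j < G := Finset.mem_range.1 hj
  set Sj := S.filter fun g => (g - (H : ℤ)) % G = j with hSj
  set q : ℤ → ℕ := fun g => (((H : ℤ) + j - g) / G).toNat with hq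
  have hqg : ∀ g ∈ Sj, ((H : ℤ) + j - g) = G * (q g : ℤ) ∧ q g ≤ 2 * H + 1 := by
    intro g hg
    obtain ⟨hgS, hgj⟩ := Finset.mem_filter.1 hg
    have hgH := (hS g hgS).1
    rw [abs_le] at hgH
    have h1 : (G : ℤ) ∣ ((H : ℤ) + j - g) := by
      have h2 := Int.emod_add_mul_ediv (g - (H : ℤ)) G
      rw [hgj] at h2
      exact ⟨-((g - (H : ℤ)) / G), by linarith⟩
    obtain ⟨q', hq'⟩ := h1
    have h3 : ((H : ℤ) + j - g) / G = q' := by
      rw [hq']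
      exact Int.mul_ediv_cancel_left _ (by omega)
    have h4 : 0 ≤ q' := by
      have h5 : 0 ≤ (G : ℤ) * q' := by rw [← hq']; omega
      by_contra hneg
      push Not at hneg
      nlinarith
    have h6 : (q g : ℤ) = q' := by
      rw [hq]
      simp only
      rw [h3, Int.toNat_of_nonneg h4]
    refine ⟨by rw [h6]; exact hq', ?_⟩
    have h7 : q' ≤ 2 * H + 1 := by
      by_contra hcon
      push Not at hcon
      have h8 : (G : ℤ) * (2 * H + 2) ≤ G * q' := mul_le_mul_of_nonneg_left (by omega) (by omega)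
      rw [← hq'] at h8
      nlinarith
    omega
  have hinj : Set.InjOn q (Sj : Set ℤ) := by
    intro g hg g' hg' hgg
    have h1 := (hqg g hg).1
    have h2 := (hqg g' hg').1
    have h3 : (q g : ℤ) = q g' := by exact_mod_cast hgg
    rw [h3] at h1
    linarith
  rw [← Finset.card_image_of_injOn hinj]
  set c : ℕ := H + j with hc
  have hcR : (c : ℝ) ≤ (H : ℝ) + G := by
    have : c ≤ H + G := by omega
    exact_mod_cast this
  have hξc : ‖(ξ : ℂ)‖ ≤ 2 * ‖(ξ : ℂ) + (c : ℂ)‖ := by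
    have h1 := norm_sub_norm_le (ξ : ℂ) (-(c : ℂ))
    rw [norm_neg, Complex.norm_natCast, sub_neg_eq_add] at h1
    linarith
  have hcast : ((ξ + (c : K) : K) : ℂ) = (ξ : ℂ) + (c : ℂ) := by
    push_cast
    rfl
  refine hE V hV hVD (2 * H + 1) K (ξ + (c : K)) ((1 + c) * X) hKf hKd (pt_add hPt c) ?_ ?_ _ ?_
  · rw [hcast]
    have h1 : (((2 * H + 1 : ℕ) : ℝ) + 2) ≤ ((H : ℝ) + 2) ^ 2 := by
      push_cast
      nlinarith
    have h2 : (((2 * H + 1 : ℕ) : ℝ) + 2) ^ E ≤ ((H : ℝ) + 2) ^ (2 * E) := by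
      rw [pow_mul]
      exact pow_le_pow_left₀ (by positivity) h1 E
    have h3 := hpow (2 * E + 1) (by omega)
    rw [pow_succ] at h3
    have h4 : 0 ≤ ((H : ℝ) + 2) ^ (2 * E) := by positivity
    nlinarith
  · rw [hcast]
    have h1 : (1 + (c : ℝ)) * X ≤ ‖(ξ : ℂ)‖ * ‖(ξ : ℂ)‖ ^ A₀ :=
      mul_le_mul (by linarith) hX hX0 (norm_nonneg _)
    have h2 : ‖(ξ : ℂ)‖ * ‖(ξ : ℂ)‖ ^ A₀ = ‖(ξ : ℂ)‖ ^ (A₀ + 1) := by rw [pow_succ, mul_comm]
    have h3 : ‖(ξ : ℂ)‖ ≤ ‖(ξ : ℂ) + (c : ℂ)‖ ^ 2 := by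
      have h4 : 2 ≤ ‖(ξ : ℂ) + (c : ℂ)‖ := by linarith
      nlinarith
    rw [h2] at h1
    refine h1.trans ?_
    rw [pow_mul]
    exact pow_le_pow_left₀ (norm_nonneg _) h3 _
  · intro g' hg'
    obtain ⟨g, hg, rfl⟩ := Finset.mem_image.1 hg'
    obtain ⟨h1, h2⟩ := hqg g hg
    obtain ⟨-, t, ht, hb⟩ := hS g (Finset.mem_filter.1 hg).1
    have h3 : ((ξ + (c : K) : K) : ℂ) - ((G * q g : ℕ) : ℂ) = (ξ : ℂ) + (g : ℂ) := by
      rw [hcast]
      have h4 : ((G * q g : ℕ) : ℂ) = (c : ℂ) - (g : ℂ) := by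
        have h5 : (((G * q g : ℕ) : ℤ) : ℂ) = (((c : ℤ) - g : ℤ) : ℂ) := by
          congr 1
          push_cast
          rw [hc]
          push_cast
          linarith
        push_cast at h5 ⊢
        exact h5
      rw [h4]
      ring
    rw [h3]
    exact ⟨h2, t, ht, hb⟩

theorem Qs_addZ (ξ : ℂ) (n : ℤ) : Qs (ξ + n) = Qs ξ := by
  unfold Qs
  congr 1
  congr 1
  refine le_antisymm ?_ ?_
  · rw [IntermediateField.adjoin_simple_le_iff]
    exact add_mem (IntermediateField.mem_adjoin_simple_self ℚ ξ) (intCast_mem _ n)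
  · rw [IntermediateField.adjoin_simple_le_iff]
    have h1 : ξ = (ξ + n) - n := by ring
    have h2 : (ξ + n) - n ∈ IntermediateField.adjoin ℚ {ξ + (n : ℂ)} :=
      sub_mem (IntermediateField.mem_adjoin_simple_self ℚ _) (intCast_mem _ n)
    rwa [← h1] at h2

/-- the field of the point -/
lemma Qs_le {K : IntermediateField ℚ ℂ} (hK : FiniteDimensional ℚ K) {m : ℕ} (hd : finrank ℚ K ≤ m) (ξ : K) :
    Module.Finite ℚ (Qs (ξ : ℂ)) ∧ finrank ℚ (Qs (ξ : ℂ)) ≤ m := by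
  have h1 : IntermediateField.adjoin ℚ {(ξ : ℂ)} ≤ K := by
    rw [IntermediateField.adjoin_simple_le_iff]
    exact ξ.2
  have h2 : Qs (ξ : ℂ) ≤ Subalgebra.toSubmodule K.toSubalgebra := fun x hx => h1 hx
  have h3 : Module.Finite ℚ (Subalgebra.toSubmodule K.toSubalgebra) := hK
  refine ⟨Submodule.finiteDimensional_of_le h2, (Submodule.finrank_mono h2).trans hd⟩

open Classical in
/-- **Windows of tuples.** -/
theorem ndG_win (k : ℕ) :
    ∀ (κ : Fin k → Type) [∀ l, Fintype (κ l)] (Φ : ∀ l, ℂ → ℂ → κ l → ℂ), (∀ l, Wz (Φ l)) →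
      (∀ l, Bp (Φ l)) → ∀ m A₀ D : ℕ, ∃ M E : ℕ,
      ∀ V : Submodule ℚ ℂ, Module.Finite ℚ V → finrank ℚ V ≤ D →
      ∀ (H : Fin k → ℕ) (K : Fin k → IntermediateField ℚ ℂ) (ξ : ∀ l, K l) (X : Fin k → ℝ),
      (∀ l, FiniteDimensional ℚ (K l)) → (∀ l, finrank ℚ (K l) ≤ m) → (∀ l, Pt (K l) (ξ l) (X l)) →
      (∀ l, ((H l : ℝ) + 2) ^ E ≤ ‖(ξ l : ℂ)‖) → (∀ l, X l ≤ ‖(ξ l : ℂ)‖ ^ A₀) →
      ((Fintype.piFinset fun l : Fin k => Finset.Icc (-(H l : ℤ)) (H l)).filter fun g =>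
        ∃ t : Fin k → ℂ, (∀ l, Complex.exp (t l) = (ξ l : ℂ) + (g l : ℂ)) ∧
          ¬ NdG Φ (V * Qp fun l => (ξ l : ℂ)) (fun l => (ξ l : ℂ) + (g l : ℂ)) t).card ≤
        M * ∑ l, ∏ l' ∈ Finset.univ.erase l, (2 * H l' + 1) := by
  induction k with
  | zero =>
    intro κ _ Φ _ _ m A₀ D
    refine ⟨0, 0, fun V _ _ H K ξ X _ _ _ _ _ => ?_⟩
    have h0 : ∀ F : Finset (Fin 0 → ℤ), (∀ β ∈ F, False) → F.card ≤
        0 * ∑ l : Fin 0, ∏ l' ∈ Finset.univ.erase l, (2 * H l' + 1) := by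
      intro F hF
      rw [Finset.eq_empty_iff_forall_notMem.2 hF, Finset.card_empty]
      simp
    refine h0 _ fun β hβ => ?_
    simp only [Finset.mem_filter] at hβ
    obtain ⟨-, t, -, h⟩ := hβ
    exact h (ndG_zero Φ _ _)
  | succ k ih =>
    intro κ _ Φ hW hB m A₀ D
    obtain ⟨d₀, hd₀⟩ := prod_sp (fun l : Fin k => Φ l.succ) fun l => hB l.succ
    choose U hUf hUd hU using hd₀
    obtain ⟨M₁, E₁, h₁⟩ := ih (fun l => κ l.succ) (fun l => Φ l.succ) (fun l => hW l.succ) (fun l => hB l.succ)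
      m A₀ (D * m)
    obtain ⟨M₂, E₂, h₂⟩ := hW 0 m A₀ ((D * m ^ k * d₀) * m)
    refine ⟨M₁ + M₂, E₁ + E₂, fun V hV hVD H K ξ X hKf hKd hPt hξ hX => ?_⟩
    have hH1 : ∀ l, (1 : ℝ) ≤ (H l : ℝ) + 2 := fun l => by
      have : (0 : ℝ) ≤ H l := Nat.cast_nonneg _
      linarith
    obtain ⟨hQ0f, hQ0d⟩ := Qs_le (hKf 0) (hKd 0) (ξ 0)
    have hQpf : ∀ {k' : ℕ} (K : Fin k' → IntermediateField ℚ ℂ) (ξ : ∀ l, K l), (∀ l, FiniteDimensional ℚ (K l)) →
        (∀ l, finrank ℚ (K l) ≤ m) → Module.Finite ℚ (Qp fun l => (ξ l : ℂ)) ∧ finrank ℚ (Qp fun l => (ξ l : ℂ)) ≤ m ^ k' := by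
      intro k' K ξ hKf hKd
      obtain ⟨h3, h4⟩ := prod_leK (fun l => Qs (ξ l : ℂ)) fun l => (Qs_le (hKf l) (hKd l) (ξ l)).1
      refine ⟨h3, h4.trans ((Finset.prod_le_prod' fun l _ => (Qs_le (hKf l) (hKd l) (ξ l)).2).trans ?_)⟩
      simp
    set ξt : Fin k → ℂ := fun l => (ξ l.succ : ℂ) with hξt
    set tl : Finset (Fin k → ℤ) := Fintype.piFinset fun l : Fin k => Finset.Icc (-(H l.succ : ℤ)) (H l.succ) with htl
    set bad₁ : Finset (Fin k → ℤ) := tl.filter fun g =>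
      ∃ t : Fin k → ℂ, (∀ l, Complex.exp (t l) = ξt l + (g l : ℂ)) ∧
        ¬ NdG (fun l : Fin k => Φ l.succ) ((V * Qs (ξ 0 : ℂ)) * Qp ξt) (fun l => ξt l + (g l : ℂ)) t with hbad₁
    set bad₂ : (Fin k → ℤ) → Finset ℤ := fun g => (Finset.Icc (-(H 0 : ℤ)) (H 0)).filter fun g₀ =>
      ∃ t : ℂ, Complex.exp t = (ξ 0 : ℂ) + (g₀ : ℂ) ∧
        BadV (((V * Qp ξt) * U fun l => ξt l + (g l : ℂ)) * Qs (ξ 0 : ℂ)) (Φ 0 ((ξ 0 : ℂ) + (g₀ : ℂ)) t) with hbad₂
    have hsub : ((Fintype.piFinset fun l : Fin (k + 1) => Finset.Icc (-(H l : ℤ)) (H l)).filter fun g =>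
        ∃ t : Fin (k + 1) → ℂ, (∀ l, Complex.exp (t l) = (ξ l : ℂ) + (g l : ℂ)) ∧
          ¬ NdG Φ (V * Qp fun l => (ξ l : ℂ)) (fun l => (ξ l : ℂ) + (g l : ℂ)) t) ⊆
        (((Finset.Icc (-(H 0 : ℤ)) (H 0)) ×ˢ bad₁).image fun p => (Fin.cons p.1 p.2 : Fin (k + 1) → ℤ)) ∪
        ((tl.sigma bad₂).image fun p => (Fin.cons p.2 p.1 : Fin (k + 1) → ℤ)) := by
      intro g hg
      simp only [Finset.mem_filter] at hg
      obtain ⟨hg1, t, ht, hg2⟩ := hg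
      rw [Fintype.mem_piFinset] at hg1
      have htail : (fun i : Fin k => g i.succ) ∈ tl := by
        rw [htl, Fintype.mem_piFinset]
        exact fun i => hg1 i.succ
      have hcons : (Fin.cons (g 0) (fun i => g i.succ) : Fin (k + 1) → ℤ) = g := by
        funext i
        refine Fin.cases ?_ (fun i => ?_) i <;> simp
      rw [Finset.mem_union]
      by_cases h5 : NdG (fun l : Fin k => Φ l.succ) ((V * Qs (ξ 0 : ℂ)) * Qp ξt)
        (fun l : Fin k => ξt l + (g l.succ : ℂ)) fun l => t l.succ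
      · right
        by_cases h6 : BadV (((V * Qp ξt) * U fun l => ξt l + (g l.succ : ℂ)) * Qs (ξ 0 : ℂ))
          (Φ 0 ((ξ 0 : ℂ) + (g 0 : ℂ)) (t 0))
        · exact Finset.mem_image.2 ⟨⟨fun i => g i.succ, g 0⟩, Finset.mem_sigma.2
            ⟨htail, Finset.mem_filter.2 ⟨hg1 0, t 0, ht 0, h6⟩⟩, hcons⟩
        · exfalso
          apply hg2
          refine ndG_split Φ (U := U fun l => ξt l + (g l.succ : ℂ)) ?_ ?_ ?_
          · have : (V * Qp fun l => (ξ l : ℂ)) = (V * Qs (ξ 0 : ℂ)) * Qp ξt := by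
              rw [Qp_succ, mul_assoc]
            rw [this]
            exact h5
          · exact fun e => hU (fun l => ξt l + (g l.succ : ℂ)) (fun l => t l.succ) (fun l => ht l.succ) e
          · have : (V * Qp fun l => (ξ l : ℂ)) * (U fun l => ξt l + (g l.succ : ℂ)) =
                ((V * Qp ξt) * U fun l => ξt l + (g l.succ : ℂ)) * Qs (ξ 0 : ℂ) := by
              rw [Qp_succ]
              ring
            rw [this]
            exact h6
      · left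
        exact Finset.mem_image.2 ⟨(g 0, fun i => g i.succ), Finset.mem_product.2
          ⟨hg1 0, Finset.mem_filter.2 ⟨htail, fun l => t l.succ, fun l => ht l.succ, h5⟩⟩, hcons⟩
    have hIcc : ∀ H : ℕ, (Finset.Icc (-(H : ℤ)) (H : ℤ)).card = 2 * H + 1 := by
      intro H
      rw [Int.card_Icc]
      omega
    have h3 := (Finset.card_le_card hsub).trans ((Finset.card_union_le _ _).trans
      (add_le_add Finset.card_image_le Finset.card_image_le))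
    refine h3.trans ?_
    rw [Finset.card_product, Finset.card_sigma, hIcc]
    have h4 : bad₁.card ≤ M₁ * ∑ l : Fin k, ∏ l' ∈ Finset.univ.erase l, (2 * H l'.succ + 1) := by
      obtain ⟨hq1, hq2⟩ := finrank_mul_le V (Qs (ξ 0 : ℂ))
      exact h₁ (V * Qs (ξ 0 : ℂ)) hq1 (hq2.trans (Nat.mul_le_mul hVD hQ0d)) (fun l => H l.succ) (fun l => K l.succ)
        (fun l => ξ l.succ) (fun l => X l.succ) (fun l => hKf l.succ) (fun l => hKd l.succ) (fun l => hPt l.succ)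
        (fun l => (pow_le_pow_right₀ (hH1 _) (by omega)).trans (hξ l.succ)) fun l => hX l.succ
    have h5 : ∀ g ∈ tl, (bad₂ g).card ≤ M₂ := by
      intro g _
      obtain ⟨hpf, hpd⟩ := hQpf (fun l : Fin k => K l.succ) (fun l => ξ l.succ) (fun l => hKf l.succ) fun l => hKd l.succ
      obtain ⟨hq1, hq2⟩ := finrank_mul_le V (Qp ξt)
      have hs1 := hUf fun l => ξt l + (g l : ℂ)
      have hs2 := hUd fun l => ξt l + (g l : ℂ)
      obtain ⟨hr1, hr2⟩ := finrank_mul_le (V * Qp ξt) (U fun l => ξt l + (g l : ℂ))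
      obtain ⟨hv1, hv2⟩ := finrank_mul_le ((V * Qp ξt) * U fun l => ξt l + (g l : ℂ)) (Qs (ξ 0 : ℂ))
      refine h₂ _ hv1 (hv2.trans (Nat.mul_le_mul (hr2.trans (Nat.mul_le_mul (hq2.trans (Nat.mul_le_mul hVD hpd)) hs2))
        hQ0d)) (H 0) (K 0) (ξ 0) (X 0) (hKf 0) (hKd 0) (hPt 0) ((pow_le_pow_right₀ (hH1 _) (by omega)).trans (hξ 0))
        (hX 0) _ fun g₀ hg₀ => ?_
      obtain ⟨hg1, t, ht, hb⟩ := Finset.mem_filter.1 hg₀
      rw [Finset.mem_Icc] at hg1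
      exact ⟨abs_le.2 hg1, t, ht, hb⟩
    have h6 := Finset.sum_le_card_nsmul tl _ M₂ h5
    have h7 : tl.card = ∏ l : Fin k, (2 * H l.succ + 1) := by
      rw [htl, Fintype.card_piFinset]
      exact Finset.prod_congr rfl fun l _ => hIcc _
    rw [h7, smul_eq_mul] at h6
    rw [Fin.sum_univ_succ]
    have h8 : ∏ l' ∈ Finset.univ.erase (0 : Fin (k + 1)), (2 * H l' + 1) = ∏ l : Fin k, (2 * H l.succ + 1) := by
      have e1 : Finset.univ.erase (0 : Fin (k + 1)) = Finset.univ.map ⟨Fin.succ, Fin.succ_injective k⟩ := by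
        ext x
        simp only [Finset.mem_erase, Finset.mem_univ, and_true, Finset.mem_map, true_and, Function.Embedding.coeFn_mk]
        constructor
        · intro hx
          obtain ⟨y, hy⟩ := Fin.exists_succ_eq.2 hx
          exact ⟨y, hy⟩
        · rintro ⟨y, rfl⟩
          exact Fin.succ_ne_zero y
      rw [e1, Finset.prod_map]
      rfl
    have h9 : ∀ l : Fin k, ∏ l' ∈ Finset.univ.erase l.succ, (2 * H l' + 1) =
        (2 * H 0 + 1) * ∏ l' ∈ Finset.univ.erase l, (2 * H l'.succ + 1) := by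
      intro l
      have e1 : Finset.univ.erase l.succ = insert (0 : Fin (k + 1))
          ((Finset.univ.erase l).map ⟨Fin.succ, Fin.succ_injective k⟩) := by
        ext x
        refine Fin.cases ?_ (fun y => ?_) x
        · simp [(Fin.succ_ne_zero l).symm]
        · simp
      rw [e1, Finset.prod_insert (by simp), Finset.prod_map]
      rfl
    rw [h8, Finset.sum_congr rfl fun l _ => h9 l, ← Finset.mul_sum]
    set P := ∏ l : Fin k, (2 * H l.succ + 1) with hP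
    set Q := ∑ l : Fin k, ∏ l' ∈ Finset.univ.erase l, (2 * H l'.succ + 1) with hQ
    calc (2 * H 0 + 1) * bad₁.card + ∑ g ∈ tl, (bad₂ g).card ≤ (2 * H 0 + 1) * (M₁ * Q) + P * M₂ :=
          add_le_add (Nat.mul_le_mul_left _ h4) h6
      _ ≤ (M₁ + M₂) * (P + (2 * H 0 + 1) * Q) := by nlinarith [Nat.zero_le (M₁ * P), Nat.zero_le (M₂ * ((2 * H 0 + 1) * Q))]

end Pool.Agent.NH25.DL
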