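import Pool.Agent.NH25.DL.Spec
import Pool.Agent.NH25.DL.WinZ
import Pool.Agent.NH25.DG.Main

/-!
# The degree statement with values of the logarithm: counting and windows, abstract form
-/

set_option autoImplicit false

open PowerSeries Module

namespace Pool.Agent.NH25.DL

open Pool.Agent.Y113 Pool.Agent.Y118.HG Pool.Agent.Y916 Pool.Agent.Y916.Al Pool.Agent.Y921.DB Pool.Agent.NH25.DG

variable {k δ : ℕ} {ι : Type} {κ σ : Fin k → Type} [∀ l, Fintype (κ l)] [∀ l, Fintype (σ l)]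
  {Φ : ∀ l, ℂ → ℂ → κ l → ℂ} {y : ∀ l, ℂ → ℂ → σ l → ℂ} {r : ℝ}

/-- the statement at the point `1 / x` -/
def Gd (K₀ : IntermediateField ℚ ℂ) {τ : Type} (p : (Fin k → ℂ) → (Fin k → ℂ) → τ → ℂ) (r : ℝ) (δ : ℕ)
    (s : Fin k → ℂ) : Prop :=
  (∀ l, ‖s l‖ < r) ∧ ∀ t : Fin k → ℂ, (∀ l, Complex.exp (t l) = 1 / s l) →
    SpecT (K₀ ⊔ IntermediateField.adjoin ℚ (Set.range s)) p r δ s t

open Classical in
/-- **Counting.** -/
theorem specT_count [Fintype ι] (hW : ∀ l, ∃ G : ℕ, 1 ≤ G ∧ Wp (Φ l) G) (hBp : ∀ l, Bp (Φ l)) (hr : 0 < r)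
    (E : ∀ l, Ex (Φ l) (y l) r δ) (lam : ∀ l, ι → Option (σ l) → ℂ) (D : ℕ) (m : Fin k → ℕ) {η : ℝ}
    (hη : 0 < η) (hη1 : η ≤ 1) : ∃ c C : ℝ, 0 < c ∧ 0 ≤ C ∧
      ∀ K₀ : IntermediateField ℚ ℂ, FiniteDimensional ℚ K₀ → finrank ℚ K₀ ≤ D → ∀ T : ℕ, 1 ≤ T →
      ∀ a : Fin k → ℕ, (∀ i, 1 ≤ a i ∧ (a i : ℝ) ≤ (T : ℝ) ^ (1 - η)) →
      (((Fintype.piFinset fun l : Fin k => Sl.NF (m l) T).filter fun β =>
        ¬ Gd K₀ (pf lam y) r δ (fun l => (a l : ℂ) / β l)).card : ℝ) ≤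
          C * (T : ℝ) ^ (((∑ l, Sl.Mm (m l) : ℕ) : ℝ) - c) := by
  obtain ⟨B, hB, hBr⟩ : ∃ B : ℝ, 1 ≤ B ∧ 1 / r ≤ B := ⟨max 1 (1 / r), le_max_left _ _, le_max_right _ _⟩
  have hB0 : 0 < B := by linarith
  have h1B : 1 / B ≤ r := by
    rw [div_le_iff₀ hr] at hBr
    rw [div_le_iff₀ hB0]
    linarith
  obtain ⟨D₁, Δ, hΔ, hmain'⟩ := spec_main E lam
  set Δc : MvPolynomial (Fin k) ℂ := Δ.map (algebraMap Qb ℂ) with hΔc
  have hΔc0 : Δc ≠ 0 := by
    intro h0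
    apply hΔ
    exact MvPolynomial.map_injective _ (algebraMap Qb ℂ).injective (h0.trans (map_zero _).symm)
  obtain ⟨c, hc, C₁, hC₁, h₁⟩ := ndG_count hη hη1 k κ Φ hW hBp m (D₁ * D)
  obtain ⟨C₂, hC₂, h₂⟩ := zeros_NF hΔc0 m
  obtain ⟨C₃, hC₃, h₃⟩ := small_tup k hB (η := η) m
  set c' := min c (min 1 (η / 2)) with hc'
  have hc'1 : c' ≤ c := min_le_left _ _
  have hc'2 : c' ≤ 1 := (min_le_right _ _).trans (min_le_left _ _)
  have hc'3 : c' ≤ η / 2 := (min_le_right _ _).trans (min_le_right _ _)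
  refine ⟨c', C₁ + C₂ + C₃, lt_min hc (lt_min one_pos (by linarith)), by positivity, fun K₀ hK₀ hKD T hT a ha => ?_⟩
  obtain ⟨V, hV, hVD, hmain⟩ := hmain' K₀ hK₀
  have hVD' : finrank ℚ V ≤ D₁ * D := hVD.trans (Nat.mul_le_mul_left _ hKD)
  have hT1 : (1 : ℝ) ≤ T := by exact_mod_cast hT
  have hsub : ((Fintype.piFinset fun l : Fin k => Sl.NF (m l) T).filter fun β =>
      ¬ Gd K₀ (pf lam y) r δ (fun l => (a l : ℂ) / β l)) ⊆
      (((Fintype.piFinset fun l : Fin k => Sl.NF (m l) T).filter fun β =>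
        ∃ t : Fin k → ℂ, (∀ l, Complex.exp (t l) = β l / a l) ∧ ¬ NdG Φ (V * Qp β) (fun l => β l / a l) t) ∪
      ((Fintype.piFinset fun l : Fin k => Sl.NF (m l) T).filter fun β =>
        MvPolynomial.eval (fun l => (a l : ℂ) / β l) Δc = 0)) ∪
      ((Fintype.piFinset fun l : Fin k => Sl.NF (m l) T).filter fun β => ∃ l, ‖β l‖ ≤ B * a l) := by
    intro β hβ
    obtain ⟨hβ1, hβ2⟩ := Finset.mem_filter.1 hβ
    rw [Finset.mem_union, Finset.mem_union, Finset.mem_filter, Finset.mem_filter, Finset.mem_filter]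
    by_contra hcon
    push Not at hcon
    obtain ⟨⟨h4, h5⟩, h6⟩ := hcon
    have h4 := h4 hβ1
    have h5 := h5 hβ1
    have h6 := h6 hβ1
    rw [Fintype.mem_piFinset] at hβ1
    have ha0 : ∀ l, (0 : ℝ) < a l := fun l => by
      have := (ha l).1
      exact_mod_cast (by omega : 0 < a l)
    have hsmall : ∀ l, ‖(a l : ℂ) / β l‖ < r := by
      intro l
      refine lt_of_lt_of_le ?_ h1B
      have h7 := h6 l
      have h8 : 0 < B * a l := mul_pos hB0 (ha0 l)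
      rw [norm_div, Complex.norm_natCast, div_lt_div_iff₀ (by linarith) hB0]
      linarith
    have hint : ∀ l, IsIntegral ℚ ((a l : ℂ) / β l) := by
      intro l
      obtain ⟨g, g1, g2, g3, -⟩ := Sl.mem_NF.1 (hβ1 l)
      have h7 : IsIntegral ℚ (β l) := IsIntegral.tower_top (R := ℤ) ⟨g, g1, g3⟩
      have h8 : IsIntegral ℚ (a l : ℂ) := isIntegral_algebraMap (R := ℚ) (x := (a l : ℚ)) |> fun h => by simpa using h
      rw [div_eq_mul_inv]
      exact h8.mul (h7.inv)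
    set s : Fin k → Qb := fun l => ⟨(a l : ℂ) / β l, hint l⟩ with hs
    have hQ : (Qp fun l => ((s l : Qb) : ℂ)) = Qp β := by
      unfold Qp
      refine Finset.prod_congr rfl fun l _ => ?_
      exact Qs_div _ (ha l).1
    have hx : (fun l => 1 / ((s l : Qb) : ℂ)) = fun l => β l / (a l : ℂ) := by
      funext l
      show 1 / ((a l : ℂ) / β l) = _
      rw [one_div_div]
    apply hβ2
    refine ⟨hsmall, fun t ht => hmain s hsmall t ?_ ?_⟩
    · rw [hQ, hx]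
      refine h4 t fun l => ?_
      rw [ht l]
      exact congrFun hx l
    · intro h7
      apply h5
      have h8 : MvPolynomial.eval (fun l => ((s l : Qb) : ℂ)) Δc = algebraMap Qb ℂ (MvPolynomial.eval s Δ) := by
        rw [hΔc, MvPolynomial.eval_map]
        have h9 : (fun l => ((s l : Qb) : ℂ)) = algebraMap Qb ℂ ∘ s := rfl
        rw [h9, ← MvPolynomial.aeval_def, MvPolynomial.aeval_algebraMap_apply]
        rfl
      exact h8.trans (by rw [h7, map_zero])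
  have hcard : (((Fintype.piFinset fun l : Fin k => Sl.NF (m l) T).filter fun β =>
      ¬ Gd K₀ (pf lam y) r δ (fun l => (a l : ℂ) / β l)).card : ℝ) ≤
      C₁ * (T : ℝ) ^ (((∑ l, Sl.Mm (m l) : ℕ) : ℝ) - c) + C₂ * (T : ℝ) ^ (((∑ l, Sl.Mm (m l) : ℕ) : ℝ) - 1) +
        C₃ * (T : ℝ) ^ (((∑ l, Sl.Mm (m l) : ℕ) : ℝ) - η / 2) := by
    refine le_trans ?_ (add_le_add (add_le_add (h₁ V hV hVD' T hT a ha) (h₂ T hT a fun i => (ha i).1)) (h₃ T hT a ha))
    exact_mod_cast (Finset.card_le_card hsub).trans ((Finset.card_union_le _ _).trans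
      (Nat.add_le_add_right (Finset.card_union_le _ _) _))
  refine hcard.trans ?_
  rw [add_mul, add_mul]
  refine add_le_add (add_le_add (mul_le_mul_of_nonneg_left ?_ hC₁) (mul_le_mul_of_nonneg_left ?_ hC₂))
    (mul_le_mul_of_nonneg_left ?_ hC₃)
  · exact Real.rpow_le_rpow_of_exponent_le hT1 (by linarith)
  · exact Real.rpow_le_rpow_of_exponent_le hT1 (by linarith)
  · exact Real.rpow_le_rpow_of_exponent_le hT1 (by linarith)

open Classical in
/-- zeros of a polynomial in windows -/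
lemma zeros_win {p : MvPolynomial (Fin k) ℂ} (hp : p ≠ 0) (H : Fin k → ℕ) (ξ : Fin k → ℂ) :
    ((Fintype.piFinset fun l : Fin k => Finset.Icc (-(H l : ℤ)) (H l)).filter fun g =>
      MvPolynomial.eval (fun l => 1 / (ξ l + (g l : ℂ))) p = 0).card ≤
      (∑ l, p.degreeOf l) * ∑ l, ∏ l' ∈ Finset.univ.erase l, (2 * H l' + 1) := by
  have hinj : ∀ l, Function.Injective fun g : ℤ => ξ l + (g : ℂ) := fun l g g' h => by
    have h1 : (g : ℂ) = g' := add_left_cancel h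
    exact_mod_cast h1
  set S : Fin k → Finset ℂ := fun l => (Finset.Icc (-(H l : ℤ)) (H l)).image fun g : ℤ => ξ l + (g : ℂ) with hS
  have hSc : ∀ l, (S l).card = 2 * H l + 1 := by
    intro l
    rw [hS]
    simp only
    rw [Finset.card_image_of_injective _ (hinj l), Int.card_Icc]
    omega
  have hSn : ∀ l, (S l).Nonempty := fun l => Finset.card_pos.1 (by rw [hSc]; omega)
  have h1 := zeros_mul hp S hSn (fun _ => 1) fun _ => le_rfl
  have h2 : ((Fintype.piFinset fun l : Fin k => Finset.Icc (-(H l : ℤ)) (H l)).filter fun g =>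
      MvPolynomial.eval (fun l => 1 / (ξ l + (g l : ℂ))) p = 0).card ≤
      ((Fintype.piFinset S).filter fun β => MvPolynomial.eval (fun l => (((1 : ℕ) : ℂ)) / β l) p = 0).card := by
    refine Finset.card_le_card_of_injOn (fun g l => ξ l + (g l : ℂ)) ?_ ?_
    · intro g hg
      obtain ⟨hg1, hg2⟩ := Finset.mem_filter.1 hg
      rw [Finset.mem_coe, Finset.mem_filter]
      refine ⟨?_, by simpa using hg2⟩
      rw [Fintype.mem_piFinset] at hg1 ⊢
      exact fun l => Finset.mem_image_of_mem _ (hg1 l)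
    · intro g _ g' _ h
      funext l
      exact hinj l (congrFun h l)
  have h3 : (∏ i, ((S i).card : ℝ)) * ∑ i, (p.degreeOf i : ℝ) / ((S i).card : ℝ) =
      ∑ i, (p.degreeOf i : ℝ) * ∏ l ∈ Finset.univ.erase i, ((2 * H l + 1 : ℕ) : ℝ) := by
    rw [Finset.mul_sum]
    refine Finset.sum_congr rfl fun i _ => ?_
    rw [← Finset.mul_prod_erase Finset.univ _ (Finset.mem_univ i)]
    have h4 : ((S i).card : ℝ) ≠ 0 := by
      rw [hSc]
      positivity
    rw [aux_div _ _ _ h4]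
    congr 1
    exact Finset.prod_congr rfl fun l _ => by rw [hSc]
  rw [h3] at h1
  have h5 : ((((Fintype.piFinset fun l : Fin k => Finset.Icc (-(H l : ℤ)) (H l)).filter fun g =>
      MvPolynomial.eval (fun l => 1 / (ξ l + (g l : ℂ))) p = 0).card : ℕ) : ℝ) ≤
      (((∑ l, p.degreeOf l) * ∑ l, ∏ l' ∈ Finset.univ.erase l, (2 * H l' + 1) : ℕ) : ℝ) := by
    refine (Nat.cast_le.2 h2).trans (h1.trans ?_)
    rw [Nat.cast_mul, Nat.cast_sum, Nat.cast_sum, Finset.sum_mul]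
    refine Finset.sum_le_sum fun i _ => ?_
    refine mul_le_mul_of_nonneg_left ?_ (Nat.cast_nonneg _)
    rw [← Nat.cast_prod]
    exact Finset.single_le_sum (f := fun l => ((∏ l' ∈ Finset.univ.erase l, (2 * H l' + 1) : ℕ) : ℝ))
      (fun _ _ => Nat.cast_nonneg _) (Finset.mem_univ i)
  exact_mod_cast h5

open Classical in
/-- **Windows.** -/
theorem specT_win [Fintype ι] (hW : ∀ l, Wz (Φ l)) (hBp : ∀ l, Bp (Φ l)) (hr : 0 < r)
    (E : ∀ l, Ex (Φ l) (y l) r δ) (lam : ∀ l, ι → Option (σ l) → ℂ) (D m A₀ : ℕ) : ∃ M E' : ℕ,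
      ∀ K₀ : IntermediateField ℚ ℂ, FiniteDimensional ℚ K₀ → finrank ℚ K₀ ≤ D →
      ∀ (H : Fin k → ℕ) (K : Fin k → IntermediateField ℚ ℂ) (ξ : ∀ l, K l) (X : Fin k → ℝ),
      (∀ l, FiniteDimensional ℚ (K l)) → (∀ l, finrank ℚ (K l) ≤ m) → (∀ l, Pt (K l) (ξ l) (X l)) →
      (∀ l, ((H l : ℝ) + 2) ^ E' ≤ ‖(ξ l : ℂ)‖) → (∀ l, X l ≤ ‖(ξ l : ℂ)‖ ^ A₀) →
      ((Fintype.piFinset fun l : Fin k => Finset.Icc (-(H l : ℤ)) (H l)).filter fun g =>
        ¬ Gd K₀ (pf lam y) r δ (fun l => 1 / ((ξ l : ℂ) + (g l : ℂ)))).card ≤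
        M * ∑ l, ∏ l' ∈ Finset.univ.erase l, (2 * H l' + 1) := by
  obtain ⟨D₁, Δ, hΔ, hmain'⟩ := spec_main E lam
  set Δc : MvPolynomial (Fin k) ℂ := Δ.map (algebraMap Qb ℂ) with hΔc
  have hΔc0 : Δc ≠ 0 := by
    intro h0
    apply hΔ
    exact MvPolynomial.map_injective _ (algebraMap Qb ℂ).injective (h0.trans (map_zero _).symm)
  obtain ⟨M₁, E₁, h₁⟩ := ndG_win k κ Φ hW hBp m A₀ (D₁ * D)
  obtain ⟨c, hc⟩ := pow_unbounded_of_one_lt (1 / r) (show (1 : ℝ) < 2 by norm_num)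
  refine ⟨M₁ + ∑ l, Δc.degreeOf l, E₁ + (c + 2), fun K₀ hK₀ hKD H K ξ X hKf hKd hPt hξ hX => ?_⟩
  obtain ⟨V, hV, hVD, hmain⟩ := hmain' K₀ hK₀
  have hVD' : finrank ℚ V ≤ D₁ * D := hVD.trans (Nat.mul_le_mul_left _ hKD)
  have hH1 : ∀ l, (1 : ℝ) ≤ (H l : ℝ) + 2 := fun l => by
    have : (0 : ℝ) ≤ H l := Nat.cast_nonneg _
    linarith
  have hsub : ((Fintype.piFinset fun l : Fin k => Finset.Icc (-(H l : ℤ)) (H l)).filter fun g =>
        ¬ Gd K₀ (pf lam y) r δ (fun l => 1 / ((ξ l : ℂ) + (g l : ℂ)))) ⊆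
      ((Fintype.piFinset fun l : Fin k => Finset.Icc (-(H l : ℤ)) (H l)).filter fun g =>
        ∃ t : Fin k → ℂ, (∀ l, Complex.exp (t l) = (ξ l : ℂ) + (g l : ℂ)) ∧
          ¬ NdG Φ (V * Qp fun l => (ξ l : ℂ)) (fun l => (ξ l : ℂ) + (g l : ℂ)) t) ∪
      ((Fintype.piFinset fun l : Fin k => Finset.Icc (-(H l : ℤ)) (H l)).filter fun g =>
        MvPolynomial.eval (fun l => 1 / ((ξ l : ℂ) + (g l : ℂ))) Δc = 0) := by
    intro g hg
    obtain ⟨hg1, hg2⟩ := Finset.mem_filter.1 hg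
    rw [Finset.mem_union, Finset.mem_filter, Finset.mem_filter]
    by_contra hcon
    push Not at hcon
    obtain ⟨h4, h5⟩ := hcon
    have h4 := h4 hg1
    have h5 := h5 hg1
    rw [Fintype.mem_piFinset] at hg1
    have hsmall : ∀ l, ‖(1 : ℂ) / ((ξ l : ℂ) + (g l : ℂ))‖ < r := by
      intro l
      have h6 := hg1 l
      rw [Finset.mem_Icc, ← abs_le] at h6
      have h7 : ‖(g l : ℂ)‖ ≤ H l := by
        rw [Complex.norm_intCast]
        exact_mod_cast h6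
      have h8 : ((H l : ℝ) + 2) ^ (c + 2) ≤ ‖(ξ l : ℂ)‖ := (pow_le_pow_right₀ (hH1 l) (by omega)).trans (hξ l)
      have h9 := norm_sub_norm_le (ξ l : ℂ) (-(g l : ℂ))
      rw [norm_neg, sub_neg_eq_add] at h9
      have h10 : 1 / r < ((H l : ℝ) + 2) ^ c := hc.trans_le (pow_le_pow_left₀ (by norm_num) (by
        have : (0 : ℝ) ≤ H l := Nat.cast_nonneg _
        linarith) _)
      have h11 : (1 : ℝ) ≤ ((H l : ℝ) + 2) ^ c := one_le_pow₀ (hH1 l)
      have h12 : 1 / r + H l < ‖(ξ l : ℂ)‖ := by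
        refine lt_of_lt_of_le ?_ h8
        rw [pow_add]
        have h13 : (0 : ℝ) ≤ H l := Nat.cast_nonneg _
        have h14 : ((H l : ℝ) + 2) ^ c * ((H l : ℝ) + 2) ^ 2 ≥ ((H l : ℝ) + 2) ^ c * (1 + (H l : ℝ)) := by
          refine mul_le_mul_of_nonneg_left ?_ (by linarith)
          nlinarith
        nlinarith
      have h15 : 1 / r < ‖(ξ l : ℂ) + (g l : ℂ)‖ := by linarith
      have h16 : 0 < ‖(ξ l : ℂ) + (g l : ℂ)‖ := lt_trans (by positivity) h15
      rw [norm_div, norm_one, div_lt_iff₀ h16]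
      rw [div_lt_iff₀ hr] at h15
      linarith
    have hint : ∀ l, IsIntegral ℚ ((1 : ℂ) / ((ξ l : ℂ) + (g l : ℂ))) := by
      intro l
      have := hKf l
      have h7 : IsIntegral ℚ (ξ l : ℂ) := by
        have h8 : IsIntegral ℚ (ξ l) := Algebra.IsIntegral.isIntegral _
        exact h8.map (IsScalarTower.toAlgHom ℚ (K l) ℂ)
      have h8 : IsIntegral ℚ (g l : ℂ) := by
        have h9 := isIntegral_algebraMap (R := ℚ) (A := ℂ) (x := ((g l : ℤ) : ℚ))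
        rwa [map_intCast] at h9
      rw [one_div]
      exact (h7.add h8).inv
    set s : Fin k → Qb := fun l => ⟨(1 : ℂ) / ((ξ l : ℂ) + (g l : ℂ)), hint l⟩ with hs
    have hQ : (Qp fun l => ((s l : Qb) : ℂ)) = Qp fun l => (ξ l : ℂ) := by
      unfold Qp
      refine Finset.prod_congr rfl fun l _ => ?_
      have h7 := Qs_div ((ξ l : ℂ) + (g l : ℂ)) (a := 1) le_rfl
      rw [Nat.cast_one] at h7
      exact h7.trans (Qs_addZ _ _)
    have hx : (fun l => 1 / ((s l : Qb) : ℂ)) = fun l => (ξ l : ℂ) + (g l : ℂ) := by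
      funext l
      show 1 / (1 / ((ξ l : ℂ) + (g l : ℂ))) = _
      rw [one_div_one_div]
    apply hg2
    refine ⟨hsmall, fun t ht => hmain s hsmall t ?_ ?_⟩
    · rw [hQ, hx]
      refine h4 t fun l => ?_
      rw [ht l]
      exact congrFun hx l
    · intro h7
      apply h5
      have h8 : MvPolynomial.eval (fun l => ((s l : Qb) : ℂ)) Δc = algebraMap Qb ℂ (MvPolynomial.eval s Δ) := by
        rw [hΔc, MvPolynomial.eval_map]
        have h9 : (fun l => ((s l : Qb) : ℂ)) = algebraMap Qb ℂ ∘ s := rfl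
        rw [h9, ← MvPolynomial.aeval_def, MvPolynomial.aeval_algebraMap_apply]
        rfl
      exact h8.trans (by rw [h7, map_zero])
  refine (Finset.card_le_card hsub).trans ((Finset.card_union_le _ _).trans ?_)
  rw [add_mul]
  exact add_le_add (h₁ V hV hVD' H K ξ X hKf hKd hPt (fun l => (pow_le_pow_right₀ (hH1 l) (by omega)).trans (hξ l)) hX)
    (zeros_win hΔc0 H _)

end Pool.Agent.NH25.DL
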