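import Pool.Agent.NH25.DL.Phi
import Pool.Agent.NH25.DG.Tup

/-!
# Degenerate tuples of algebraic points, abstract form, with values of the logarithm
-/

set_option autoImplicit false

open PowerSeries Module

namespace Pool.Agent.NH25.DL

open Pool.Agent.Y113 Pool.Agent.Y916 Pool.Agent.Y916.Al Pool.Agent.NH25.DG Pool.Agent.Y921.DB

/-- windows of bad points -/
def Wp {κ : Type} [Fintype κ] (Φ : ℂ → ℂ → κ → ℂ) (G : ℕ) : Prop :=
  ∀ m A₀ D : ℕ, ∃ M E : ℕ, ∀ V : Submodule ℚ ℂ,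
      Module.Finite ℚ V → finrank ℚ V ≤ D → ∀ (H : ℕ) (K : IntermediateField ℚ ℂ) (ξ : K) (X : ℝ),
      FiniteDimensional ℚ K → finrank ℚ K ≤ m → Pt K ξ X → ((H : ℝ) + 2) ^ E ≤ ‖(ξ : ℂ)‖ → X ≤ ‖(ξ : ℂ)‖ ^ A₀ →
      ∀ S : Finset ℕ, (∀ g ∈ S, g ≤ H ∧ ∃ t : ℂ, Complex.exp t = (ξ : ℂ) - ((G * g : ℕ) : ℂ) ∧
        BadV V (Φ ((ξ : ℂ) - ((G * g : ℕ) : ℂ)) t)) → S.card ≤ M

/-- the values for all values of the logarithm generate a space of bounded dimension -/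
def Bp {κ : Type} (Φ : ℂ → ℂ → κ → ℂ) : Prop :=
  ∃ d₀ : ℕ, ∀ x : ℂ, ∃ U : Submodule ℚ ℂ, Module.Finite ℚ U ∧ finrank ℚ U ≤ d₀ ∧
    ∀ t, Complex.exp t = x → ∀ e, Φ x t e ∈ U

section
variable {k : ℕ} {κ : Fin k → Type} [∀ l, Fintype (κ l)] (Φ : ∀ l, ℂ → ℂ → κ l → ℂ)

/-- the products of the values are linearly independent over `V` -/
def NdG (V : Submodule ℚ ℂ) (x t : Fin k → ℂ) : Prop :=
  ∀ c : (∀ l, κ l) → ℂ, (∀ e, c e ∈ V) → ∑ e, c e * ∏ l, Φ l (x l) (t l) (e l) = 0 → c = 0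

end

/-- no points: nothing to prove -/
lemma ndG_zero {κ : Fin 0 → Type} [∀ l, Fintype (κ l)] (Φ : ∀ l, ℂ → ℂ → κ l → ℂ) {V : Submodule ℚ ℂ}
    (x t : Fin 0 → ℂ) : NdG Φ V x t := by
  intro c _ hsum
  funext e
  rw [Fintype.sum_eq_single e (fun x hx => absurd (Subsingleton.elim x e) hx), Finset.univ_eq_empty, Finset.prod_empty,
    mul_one] at hsum
  exact hsum

section
variable {k : ℕ} {κ : Fin (k + 1) → Type} [∀ l, Fintype (κ l)] (Φ : ∀ l, ℂ → ℂ → κ l → ℂ)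

/-- enlarging the point set: one more point -/
lemma ndG_split {V U : Submodule ℚ ℂ} {x t : Fin (k + 1) → ℂ}
    (h1 : NdG (fun l => Φ l.succ) V (fun i => x i.succ) (fun i => t i.succ))
    (hU : ∀ e : ∀ l : Fin k, κ l.succ, ∏ l : Fin k, Φ l.succ (x l.succ) (t l.succ) (e l) ∈ U)
    (h2 : ¬ BadV (V * U) (Φ 0 (x 0) (t 0))) : NdG Φ V x t := by
  classical
  intro c hcV hsum
  set w : (∀ l : Fin k, κ l.succ) → ℂ := fun e => ∏ l : Fin k, Φ l.succ (x l.succ) (t l.succ) (e l) with hw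
  have hsum2 : ∑ e0 : κ 0, (∑ e : ∀ l : Fin k, κ l.succ, c (Fin.cons e0 e) * w e) * Φ 0 (x 0) (t 0) e0 = 0 := by
    rw [← hsum, ← (Fin.consEquiv κ).sum_comp, Fintype.sum_prod_type]
    refine Finset.sum_congr rfl fun e0 _ => ?_
    rw [Finset.sum_mul]
    refine Finset.sum_congr rfl fun e _ => ?_
    rw [Fin.prod_univ_succ]
    simp only [Fin.consEquiv, Equiv.coe_fn_mk, Fin.cons_zero, Fin.cons_succ]
    rw [hw]
    ring
  have hd : ∀ e0 : κ 0, ∑ e : ∀ l : Fin k, κ l.succ, c (Fin.cons e0 e) * w e = 0 := by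
    by_contra hcon
    refine h2 ⟨fun e0 => ∑ e : ∀ l : Fin k, κ l.succ, c (Fin.cons e0 e) * w e, fun h0 => hcon fun e0 => congrFun h0 e0,
      fun e0 => ?_, hsum2⟩
    exact Submodule.sum_mem _ fun e' _ => Submodule.mul_mem_mul (hcV _) (hU e')
  funext e
  have h4 := h1 (fun e' => c (Fin.cons (e 0) e')) (fun e' => hcV _) (hd (e 0))
  have h5 := congrFun h4 (fun i => e i.succ)
  have h6 : (Fin.cons (e 0) (fun i : Fin k => e i.succ) : ∀ l, κ l) = e := by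
    funext i
    refine Fin.cases ?_ (fun i => ?_) i <;> simp
  simp only [h6] at h5
  exact h5

end

/-- the values for all values of the logarithms -/
lemma prod_sp {k : ℕ} {κ : Fin k → Type} (Φ : ∀ l, ℂ → ℂ → κ l → ℂ) (hB : ∀ l, Bp (Φ l)) :
    ∃ d₀ : ℕ, ∀ x : Fin k → ℂ, ∃ U : Submodule ℚ ℂ, Module.Finite ℚ U ∧ finrank ℚ U ≤ d₀ ∧
      ∀ t : Fin k → ℂ, (∀ l, Complex.exp (t l) = x l) → ∀ e : ∀ l, κ l, ∏ l, Φ l (x l) (t l) (e l) ∈ U := by
  choose d U hf hd hU using hB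
  refine ⟨∏ l, d l, fun x => ⟨∏ l, U l (x l), ?_, ?_, fun t ht e => ?_⟩⟩
  · exact (prod_leK (fun l => U l (x l)) fun l => hf l (x l)).1
  · exact (prod_leK (fun l => U l (x l)) fun l => hf l (x l)).2.trans (Finset.prod_le_prod' fun l _ => hd l (x l))
  · exact prod_memK _ _ fun l => hU l (x l) (t l) (ht l) (e l)

open Classical in
/-- few degenerate tuples -/
theorem ndG_count {η : ℝ} (hη : 0 < η) (hη1 : η ≤ 1) (k : ℕ) :
    ∀ (κ : Fin k → Type) [∀ l, Fintype (κ l)] (Φ : ∀ l, ℂ → ℂ → κ l → ℂ), (∀ l, ∃ G : ℕ, 1 ≤ G ∧ Wp (Φ l) G) →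
      (∀ l, Bp (Φ l)) → ∀ (m : Fin k → ℕ) (D : ℕ), ∃ c : ℝ, 0 < c ∧ ∃ C : ℝ, 0 ≤ C ∧
      ∀ V : Submodule ℚ ℂ, Module.Finite ℚ V → finrank ℚ V ≤ D →
      ∀ T : ℕ, 1 ≤ T → ∀ a : Fin k → ℕ, (∀ i, 1 ≤ a i ∧ (a i : ℝ) ≤ (T : ℝ) ^ (1 - η)) →
      (((Fintype.piFinset fun l : Fin k => Sl.NF (m l) T).filter fun β =>
        ∃ t : Fin k → ℂ, (∀ l, Complex.exp (t l) = β l / a l) ∧ ¬ NdG Φ (V * Qp β) (fun l => β l / a l) t).card : ℝ) ≤
        C * (T : ℝ) ^ (((∑ l, Sl.Mm (m l) : ℕ) : ℝ) - c) := by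
  induction k with
  | zero =>
    intro κ _ Φ _ _ m D
    refine ⟨1, one_pos, 0, le_rfl, fun V _ _ T _ a _ => ?_⟩
    have h0 : ∀ F : Finset (Fin 0 → ℂ), (∀ β ∈ F, False) → (F.card : ℝ) ≤
        0 * (T : ℝ) ^ (((∑ l, Sl.Mm (m l) : ℕ) : ℝ) - 1) := by
      intro F hF
      rw [Finset.eq_empty_iff_forall_notMem.2 hF, Finset.card_empty]
      simp
    refine h0 _ fun β hβ => ?_
    simp only [Finset.mem_filter] at hβ
    obtain ⟨-, t, -, h⟩ := hβ
    exact h (ndG_zero Φ _ _)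
  | succ k ih =>
    intro κ _ Φ hW hB m D
    obtain ⟨G, hG, hWin⟩ := hW 0
    obtain ⟨d₀, hd₀⟩ := prod_sp (fun l : Fin k => Φ l.succ) fun l => hB l.succ
    choose U hUf hUd hU using hd₀
    obtain ⟨c₁, hc₁, C₁, hC₁, h₁⟩ := ih (fun l => κ l.succ) (fun l => Φ l.succ) (fun l => hW l.succ) (fun l => hB l.succ)
      (fun l => m l.succ) (D * m 0)
    obtain ⟨c₂, hc₂, C₂, hC₂, h₂⟩ := cnt1 hG (m 0)
      (fun V u => ∃ t : ℂ, Complex.exp t = u ∧ BadV V (Φ 0 u t))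
      (fun A₀ D => hWin (m 0) A₀ D) hη hη1 (D * (∏ l : Fin k, m l.succ) * d₀)
    set C₀ : ℝ := (3 * 2 ^ m 0) ^ m 0 * m 0 with hC₀
    have hC₀0 : 0 ≤ C₀ := by positivity
    set Cp : ℝ := ∏ l : Fin k, ((3 * 2 ^ m l.succ) ^ m l.succ * m l.succ : ℝ) with hCp
    have hCp0 : 0 ≤ Cp := by positivity
    refine ⟨min c₁ c₂, lt_min hc₁ hc₂, C₀ * C₁ + Cp * C₂, by positivity, fun V hV hVD T hT a ha => ?_⟩
    have hT1 : (1 : ℝ) ≤ T := by exact_mod_cast hT
    have hT0 : (0 : ℝ) < T := by linarith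
    have hpts := Sl.card_NF (m 0) T hT
    set bad₁ : ℂ → Finset (Fin k → ℂ) := fun x => (Fintype.piFinset fun l : Fin k => Sl.NF (m l.succ) T).filter fun β =>
      ∃ t : Fin k → ℂ, (∀ l, Complex.exp (t l) = β l / a l.succ) ∧
        ¬ NdG (fun l : Fin k => Φ l.succ) ((V * Qs x) * Qp β) (fun l => β l / a l.succ) t with hbad₁
    set bad₂ : (Fin k → ℂ) → Finset ℂ := fun β => (Sl.NF (m 0) T).filter fun x =>
      ∃ t : ℂ, Complex.exp t = x / a 0 ∧
        BadV (((V * Qp β) * U fun l => β l / a l.succ) * Qs x) (Φ 0 (x / a 0) t) with hbad₂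
    have hsub : ((Fintype.piFinset fun l : Fin (k + 1) => Sl.NF (m l) T).filter fun β =>
        ∃ t : Fin (k + 1) → ℂ, (∀ l, Complex.exp (t l) = β l / a l) ∧ ¬ NdG Φ (V * Qp β) (fun l => β l / a l) t) ⊆
        (((Sl.NF (m 0) T).sigma bad₁).image fun p => (Fin.cons p.1 p.2 : Fin (k + 1) → ℂ)) ∪
        (((Fintype.piFinset fun l : Fin k => Sl.NF (m l.succ) T).sigma bad₂).image
          fun p => (Fin.cons p.2 p.1 : Fin (k + 1) → ℂ)) := by
      intro β hβ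
      obtain ⟨hβ1, t, ht, hβ2⟩ := Finset.mem_filter.1 hβ
      rw [Fintype.mem_piFinset] at hβ1
      have htail : (fun i => β i.succ) ∈ Fintype.piFinset fun l : Fin k => Sl.NF (m l.succ) T := by
        rw [Fintype.mem_piFinset]
        exact fun i => hβ1 i.succ
      have hcons : (Fin.cons (β 0) (fun i => β i.succ) : Fin (k + 1) → ℂ) = β := by
        funext i
        refine Fin.cases ?_ (fun i => ?_) i <;> simp
      rw [Finset.mem_union]
      by_cases h5 : NdG (fun l : Fin k => Φ l.succ) ((V * Qs (β 0)) * Qp fun i => β i.succ)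
        (fun l : Fin k => β l.succ / a l.succ) fun l => t l.succ
      · right
        by_cases h6 : BadV (((V * Qp fun i => β i.succ) * U fun l => β l.succ / a l.succ) * Qs (β 0))
          (Φ 0 (β 0 / a 0) (t 0))
        · exact Finset.mem_image.2 ⟨⟨fun i => β i.succ, β 0⟩, Finset.mem_sigma.2
            ⟨htail, Finset.mem_filter.2 ⟨hβ1 0, t 0, ht 0, h6⟩⟩, hcons⟩
        · exfalso
          apply hβ2
          refine ndG_split Φ (U := U fun l => β l.succ / a l.succ) ?_ ?_ ?_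
          · have : V * Qp β = (V * Qs (β 0)) * Qp fun i => β i.succ := by
              rw [Qp_succ, mul_assoc]
            rw [this]
            exact h5
          · exact fun e => hU (fun l => β l.succ / a l.succ) (fun l => t l.succ) (fun l => ht l.succ) e
          · have : V * Qp β * (U fun l => β l.succ / a l.succ) =
                ((V * Qp fun i => β i.succ) * U fun l => β l.succ / a l.succ) * Qs (β 0) := by
              rw [Qp_succ]
              ring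
            rw [this]
            exact h6
      · left
        exact Finset.mem_image.2 ⟨⟨β 0, fun i => β i.succ⟩, Finset.mem_sigma.2
          ⟨hβ1 0, Finset.mem_filter.2 ⟨htail, fun l => t l.succ, fun l => ht l.succ, h5⟩⟩, hcons⟩
    have hcard : (((Fintype.piFinset fun l : Fin (k + 1) => Sl.NF (m l) T).filter fun β =>
        ∃ t : Fin (k + 1) → ℂ, (∀ l, Complex.exp (t l) = β l / a l) ∧
          ¬ NdG Φ (V * Qp β) (fun l => β l / a l) t).card : ℝ) ≤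
        (C₀ * (T : ℝ) ^ Sl.Mm (m 0)) * (C₁ * (T : ℝ) ^ (((∑ l : Fin k, Sl.Mm (m l.succ) : ℕ) : ℝ) - c₁)) +
        (Cp * (T : ℝ) ^ (∑ l : Fin k, Sl.Mm (m l.succ))) * (C₂ * (T : ℝ) ^ ((Sl.Mm (m 0) : ℝ) - c₂)) := by
      have h3 : (((Fintype.piFinset fun l : Fin (k + 1) => Sl.NF (m l) T).filter fun β =>
          ∃ t : Fin (k + 1) → ℂ, (∀ l, Complex.exp (t l) = β l / a l) ∧
            ¬ NdG Φ (V * Qp β) (fun l => β l / a l) t).card : ℝ) ≤
          (((Sl.NF (m 0) T).sigma bad₁).card : ℝ) + (((Fintype.piFinset fun l : Fin k => Sl.NF (m l.succ) T).sigma bad₂).card : ℝ) := by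
        exact_mod_cast (Finset.card_le_card hsub).trans ((Finset.card_union_le _ _).trans
          (add_le_add Finset.card_image_le Finset.card_image_le))
      refine h3.trans (add_le_add ?_ ?_)
      · rw [Finset.card_sigma, Nat.cast_sum]
        have h4 : ∀ x ∈ Sl.NF (m 0) T, ((bad₁ x).card : ℝ) ≤ C₁ * (T : ℝ) ^ (((∑ l : Fin k, Sl.Mm (m l.succ) : ℕ) : ℝ) - c₁) := by
          intro x hx
          obtain ⟨hQf, hQd⟩ := Qs_fin (Sl.mem_NF.1 hx)
          obtain ⟨hq1, hq2⟩ := finrank_mul_le V (Qs x)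
          exact h₁ (V * Qs x) hq1 (hq2.trans (Nat.mul_le_mul hVD hQd)) T hT (fun i => a i.succ) fun i => ha i.succ
        refine (Finset.sum_le_card_nsmul _ _ _ h4).trans ?_
        rw [nsmul_eq_mul]
        exact mul_le_mul_of_nonneg_right hpts (by positivity)
      · rw [Finset.card_sigma, Nat.cast_sum]
        have h4 : ∀ β ∈ Fintype.piFinset (fun l : Fin k => Sl.NF (m l.succ) T), ((bad₂ β).card : ℝ) ≤
            C₂ * (T : ℝ) ^ ((Sl.Mm (m 0) : ℝ) - c₂) := by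
          intro β hβ
          rw [Fintype.mem_piFinset] at hβ
          obtain ⟨hQf, hQd⟩ := Qp_fin fun l => Sl.mem_NF.1 (hβ l)
          obtain ⟨hq1, hq2⟩ := finrank_mul_le V (Qp β)
          have hs1 := hUf fun l => β l / a l.succ
          have hs2 := hUd fun l => β l / a l.succ
          obtain ⟨hr1, hr2⟩ := finrank_mul_le (V * Qp β) (U fun l => β l / a l.succ)
          refine h₂ _ hr1 (hr2.trans ?_) T hT (a 0) (ha 0)
          exact Nat.mul_le_mul (hq2.trans (Nat.mul_le_mul hVD hQd)) hs2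
        refine (Finset.sum_le_card_nsmul _ _ _ h4).trans ?_
        rw [nsmul_eq_mul, Fintype.card_piFinset]
        refine mul_le_mul_of_nonneg_right ?_ (by positivity)
        rw [Nat.cast_prod, ← Finset.prod_pow_eq_pow_sum, hCp, ← Finset.prod_mul_distrib]
        exact Finset.prod_le_prod (fun _ _ => Nat.cast_nonneg _) fun l _ => Sl.card_NF (m l.succ) T hT
    refine hcard.trans ?_
    have e0 : (((∑ l, Sl.Mm (m l) : ℕ) : ℝ)) = (Sl.Mm (m 0) : ℝ) + ((∑ l : Fin k, Sl.Mm (m l.succ) : ℕ) : ℝ) := by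
      rw [Fin.sum_univ_succ]
      push_cast
      ring
    have e1 : (C₀ * (T : ℝ) ^ Sl.Mm (m 0)) * (C₁ * (T : ℝ) ^ (((∑ l : Fin k, Sl.Mm (m l.succ) : ℕ) : ℝ) - c₁)) =
        C₀ * C₁ * (T : ℝ) ^ ((((∑ l, Sl.Mm (m l) : ℕ)) : ℝ) - c₁) := by
      have : ((((∑ l, Sl.Mm (m l) : ℕ)) : ℝ) - c₁) =
          (Sl.Mm (m 0) : ℝ) + (((∑ l : Fin k, Sl.Mm (m l.succ) : ℕ) : ℝ) - c₁) := by rw [e0]; ring
      rw [this, Real.rpow_add hT0, Real.rpow_natCast]
      ring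
    have e2 : (Cp * (T : ℝ) ^ (∑ l : Fin k, Sl.Mm (m l.succ))) * (C₂ * (T : ℝ) ^ ((Sl.Mm (m 0) : ℝ) - c₂)) =
        Cp * C₂ * (T : ℝ) ^ ((((∑ l, Sl.Mm (m l) : ℕ)) : ℝ) - c₂) := by
      have : ((((∑ l, Sl.Mm (m l) : ℕ)) : ℝ) - c₂) =
          ((∑ l : Fin k, Sl.Mm (m l.succ) : ℕ) : ℝ) + ((Sl.Mm (m 0) : ℝ) - c₂) := by rw [e0]; ring
      rw [this, Real.rpow_add hT0, Real.rpow_natCast]
      ring
    rw [e1, e2, add_mul (C₀ * C₁)]
    refine add_le_add (mul_le_mul_of_nonneg_left ?_ (mul_nonneg hC₀0 hC₁))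
      (mul_le_mul_of_nonneg_left ?_ (mul_nonneg hCp0 hC₂))
    · exact Real.rpow_le_rpow_of_exponent_le hT1 (by linarith [min_le_left c₁ c₂])
    · exact Real.rpow_le_rpow_of_exponent_le hT1 (by linarith [min_le_right c₁ c₂])

end Pool.Agent.NH25.DL
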