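import Pool.Agent.NH25.DL.Cnt
import Pool.Agent.NH25.DG.Cyc

/-!
# Families which are regular at the centre
-/

set_option autoImplicit false

open PowerSeries Module
open scoped Matrix

namespace Pool.Agent.NH25.DL

open Pool.Agent.Y113 Pool.Agent.Y921.DB Pool.Agent.Y916 Pool.Agent.Y916.Af Pool.Agent.Y916.Al Pool.Agent.NH25.DG

section one
variable {L : Type} [Field L] [NumberField L] {n : ℕ}

/-- the normalised matrix -/
noncomputable def Hn (Z W : Fin n → Fin n → L⟦X⟧) : Matrix (Fin n) (Fin n) L⟦X⟧ :=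
  Matrix.of fun i j => ∑ k, C (coeff 0 (W i k)) * Z k j

lemma inv0 {f : Polynomial L} {A : Fin n → Fin n → Polynomial L} {Z W : Fin n → Fin n → L⟦X⟧} (h : DatL f A Z W) :
    (Matrix.of fun i j => coeff 0 (W i j)) * (Matrix.of fun i j => coeff 0 (Z i j)) = (1 : Matrix (Fin n) (Fin n) L) := by
  ext1 i j
  rw [Matrix.mul_apply, Matrix.one_apply]
  have h1 := congrArg (coeff 0) (h.inv i j)
  rw [map_sum] at h1
  simp only [Matrix.of_apply]
  rw [Finset.sum_congr rfl fun k _ => (coeff_zero_mul (W i k) (Z k j)).symm, h1]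
  split_ifs
  · exact coeff_zero_one
  · exact map_zero _
where
  coeff_zero_mul (f g : L⟦X⟧) : coeff 0 (f * g) = coeff 0 f * coeff 0 g := by
    simp

lemma Z_eq {f : Polynomial L} {A : Fin n → Fin n → Polynomial L} {Z W : Fin n → Fin n → L⟦X⟧} (h : DatL f A Z W)
    (a b : Fin n) : Z a b = ∑ k, C (coeff 0 (Z a k)) * Hn Z W k b := by
  have h1 := mul_eq_one_comm.1 (inv0 h)
  unfold Hn
  simp only [Matrix.of_apply, Finset.mul_sum]
  rw [Finset.sum_comm]
  have h2 : ∀ y, ∑ x, C (coeff 0 (Z a x)) * (C (coeff 0 (W x y)) * Z y b) = C (if a = y then 1 else 0) * Z y b := by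
    intro y
    have h3 := congrFun (congrFun h1 a) y
    rw [Matrix.mul_apply, Matrix.one_apply] at h3
    simp only [Matrix.of_apply] at h3
    rw [← h3, map_sum, Finset.sum_mul]
    exact Finset.sum_congr rfl fun x _ => by rw [map_mul]; ring
  rw [Finset.sum_congr rfl fun y _ => h2 y, Finset.sum_eq_single a]
  · simp
  · intro y _ hy
    rw [if_neg (Ne.symm hy)]
    simp
  · intro hh
    exact absurd (Finset.mem_univ _) hh

/-- **The normalised matrix is a family with trivial monodromy.** -/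
theorem lfam_of {f : Polynomial L} {A : Fin n → Fin n → Polynomial L} {Z W : Fin n → Fin n → L⟦X⟧} (h : DatL f A Z W) :
    LFam (0 : Matrix (Fin n) (Fin n) ℤ) (Hn Z W) where
  nil := by
    rcases Nat.eq_zero_or_pos n with h0 | h0
    · subst h0
      ext i
      exact i.elim0
    · exact zero_pow (by omega)
  one := fun i j => by
    have h1 := congrFun (congrFun (inv0 h) i) j
    rw [Matrix.mul_apply, Matrix.one_apply] at h1
    rw [← h1]
    unfold Hn
    simp only [Matrix.of_apply]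
    rw [map_sum]
    exact Finset.sum_congr rfl fun k _ => by simp
  ode := by
    refine ⟨f, fun i j => Polynomial.X * A i j, h.reg, fun i j => ?_⟩
    have h1 : ∑ l, C ((((0 : Matrix (Fin n) (Fin n) ℤ) i l : ℤ)) : L) * Hn Z W l j = 0 := by
      refine Finset.sum_eq_zero fun l _ => ?_
      rw [Matrix.zero_apply, Int.cast_zero, map_zero, zero_mul]
    rw [h1, add_zero]
    have h2 : PowerSeries.derivative L (Hn Z W i j) = ∑ k, C (coeff 0 (W i k)) * PowerSeries.derivative L (Z k j) := by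
      unfold Hn
      simp only [Matrix.of_apply]
      rw [map_sum]
      refine Finset.sum_congr rfl fun k _ => ?_
      rw [← smul_eq_C_mul, ← smul_eq_C_mul]
      exact (PowerSeries.derivative L).map_smul _ _
    rw [h2, mul_left_comm]
    have h3 : (f : L⟦X⟧) * ∑ k, C (coeff 0 (W i k)) * PowerSeries.derivative L (Z k j) =
        ∑ k, C (coeff 0 (W i k)) * ∑ l, Z k l * (A l j : L⟦X⟧) := by
      rw [Finset.mul_sum]
      refine Finset.sum_congr rfl fun k _ => ?_
      rw [← h.sys k j]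
      ring
    rw [h3]
    simp only [Finset.mul_sum]
    rw [Finset.sum_comm]
    refine Finset.sum_congr rfl fun l _ => ?_
    unfold Hn
    simp only [Matrix.of_apply]
    rw [Finset.sum_mul, Polynomial.coe_mul, Polynomial.coe_X]
    exact Finset.sum_congr rfl fun k _ => by ring
  gfun := fun i j => by
    show GFn (∑ k, C (coeff 0 (W i k)) * Z k j)
    exact GFn.sum _ _ fun k _ => (GFn.const _).mul (h.gZ k j)
  inv := by
    refine ⟨Matrix.of fun i j => ∑ k, W i k * C (coeff 0 (Z k j)), ?_, fun i j =>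
      show GFn (∑ k, W i k * C (coeff 0 (Z k j))) from GFn.sum _ _ fun k _ => (h.gW i k).mul (GFn.const _)⟩
    rw [mul_eq_one_comm]
    ext1 i j
    rw [Matrix.mul_apply]
    simp only [Matrix.of_apply]
    have h1 : ∀ x, (∑ k, W i k * C (coeff 0 (Z k x))) * Hn Z W x j = ∑ k, W i k * (C (coeff 0 (Z k x)) * Hn Z W x j) := by
      intro x
      rw [Finset.sum_mul]
      exact Finset.sum_congr rfl fun k _ => by ring
    rw [Finset.sum_congr rfl fun x _ => h1 x, Finset.sum_comm]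
    have h2 : ∀ k, ∑ x, W i k * (C (coeff 0 (Z k x)) * Hn Z W x j) = W i k * Z k j := by
      intro k
      rw [← Finset.mul_sum, ← Z_eq h k j]
    rw [Finset.sum_congr rfl fun k _ => h2 k, h.inv i j, Matrix.one_apply]

lemma vl_lin [Algebra L ℂ] {z : ℂ} {σ : Type} [Fintype σ] (c : σ → L) (g : σ → L⟦X⟧)
    (hs : ∀ k, Summable fun m : ℕ => algebraMap L ℂ (coeff m (g k)) * z ^ m) :
    VL (∑ k, C (c k) * g k) z = ∑ k, algebraMap L ℂ (c k) * VL (g k) z := by
  unfold VL
  have h1 : ∀ m : ℕ, algebraMap L ℂ (coeff m (∑ k, C (c k) * g k)) * z ^ m =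
      ∑ k, algebraMap L ℂ (c k) * (algebraMap L ℂ (coeff m (g k)) * z ^ m) := by
    intro m
    rw [map_sum, map_sum, Finset.sum_mul]
    refine Finset.sum_congr rfl fun k _ => ?_
    rw [coeff_C_mul, map_mul]
    ring
  simp only [h1]
  rw [Summable.tsum_finsetSum fun k _ => (hs k).mul_left _]
  exact Finset.sum_congr rfl fun k _ => tsum_mul_left

lemma vl_summable [Algebra L ℂ] {g : L⟦X⟧} {A : ℝ} (hA : 0 ≤ A) (hg : ∀ m : ℕ, ‖algebraMap L ℂ (coeff m g)‖ ≤ A ^ (m + 1))
    {z : ℂ} (hz : A * ‖z‖ < 1) : Summable fun m : ℕ => algebraMap L ℂ (coeff m g) * z ^ m := by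
  refine Summable.of_norm_bounded (g := fun m : ℕ => A * (A * ‖z‖) ^ m)
    ((summable_geometric_of_lt_one (by positivity) hz).mul_left _) fun m => ?_
  rw [norm_mul, norm_pow]
  calc ‖algebraMap L ℂ (coeff m g)‖ * ‖z‖ ^ m ≤ A ^ (m + 1) * ‖z‖ ^ m :=
        mul_le_mul_of_nonneg_right (hg m) (by positivity)
    _ = _ := by rw [mul_pow, pow_succ]; ring

end one

lemma aux_alg {n : ℕ} (c₀ : ℂ) (c z0 v : Fin n → Fin n → ℂ) : c₀ + ∑ a, ∑ b, c a b * ∑ x, z0 a x * v x b =
    c₀ + ∑ x, ∑ y, (∑ a, c a y * z0 a x) * v x y := by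
  congr 1
  simp only [Finset.mul_sum, Finset.sum_mul]
  rw [Finset.sum_comm]
  rw [Finset.sum_comm (s := (Finset.univ : Finset (Fin n))) (t := (Finset.univ : Finset (Fin n)))
    (f := fun x y => ∑ a, c a y * z0 a x * v x y)]
  refine Finset.sum_congr rfl fun b _ => ?_
  rw [Finset.sum_comm]
  exact Finset.sum_congr rfl fun x _ => Finset.sum_congr rfl fun a _ => by ring

section rep
variable {k : ℕ} {ι : Type} {L : Type} [Field L] [NumberField L] [Algebra L ℂ] {nn : Fin k → ℕ}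

/-- **Functions which are represented by systems which are regular at the centre.** -/
theorem Rep.toL {P : (Fin k → ℂ) → ι → ℂ} {ρ : ℝ} (hρ : 0 < ρ) {f : Fin k → Polynomial L}
    {A : ∀ l, Fin (nn l) → Fin (nn l) → Polynomial L} {Z W : ∀ l, Fin (nn l) → Fin (nn l) → L⟦X⟧}
    (R : Pool.Agent.NH25.DG.Rep P ρ Z) (h : ∀ l, DatL (f l) (A l) (Z l) (W l)) :
    ∃ r : ℝ, 0 < r ∧ r ≤ ρ ∧ Nonempty (RepL (fun z _ => P z) r fun l => Hn (Z l) (W l)) := by
  classical
  have hg : ∀ l i j, GFn (Hn (Z l) (W l) i j) := fun l => (lfam_of (h l)).gfun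
  choose B hB using fun l i j => hg l i j
  set M : ℝ := 1 + ∑ l, ∑ i, ∑ j, |B l i j| with hM
  have hM1 : 1 ≤ M := le_add_of_nonneg_right (by positivity)
  have hBM : ∀ l i j, |B l i j| ≤ M := by
    intro l i j
    have h1 : |B l i j| ≤ ∑ j, |B l i j| :=
      Finset.single_le_sum (f := fun j => |B l i j|) (fun _ _ => abs_nonneg _) (Finset.mem_univ j)
    have h2 : ∑ j, |B l i j| ≤ ∑ i, ∑ j, |B l i j| :=
      Finset.single_le_sum (f := fun i => ∑ j, |B l i j|) (fun _ _ => by positivity) (Finset.mem_univ i)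
    have h3 : ∑ i, ∑ j, |B l i j| ≤ ∑ l, ∑ i, ∑ j, |B l i j| :=
      Finset.single_le_sum (f := fun l => ∑ i, ∑ j, |B l i j|) (fun _ _ => by positivity) (Finset.mem_univ l)
    rw [hM]
    linarith
  have hM0 : 0 < M := by linarith
  refine ⟨min ρ (1 / M), lt_min hρ (by positivity), min_le_left _ _, ⟨⟨0, R.co, fun i _ => R.c₀ i, fun i _ =>
    Matrix.of fun x y => ∑ a, R.c i a y * algebraMap L ℂ (coeff 0 (Z (R.co i) a x)), fun z hz t i => ?_⟩⟩⟩
  have hzρ : ∀ l, ‖z l‖ < ρ := fun l => (hz l).trans_le (min_le_left _ _)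
  have hzM : ∀ l, M * ‖z l‖ < 1 := fun l => by
    have h1 := (hz l).trans_le (min_le_right ρ (1 / M))
    rw [lt_div_iff₀ hM0] at h1
    linarith
  have hsum : ∀ l i j, Summable fun m : ℕ => algebraMap L ℂ (coeff m (Hn (Z l) (W l) i j)) * z l ^ m := by
    intro l i j
    refine vl_summable (A := |B l i j|) (abs_nonneg _) (fun m => ?_) ?_
    · refine ((hB l i j).1 (algebraMap L ℂ) m).trans ?_
      refine (le_abs_self _).trans ?_
      rw [abs_pow]
    · exact lt_of_le_of_lt (mul_le_mul_of_nonneg_right (hBM l i j) (norm_nonneg _)) (hzM l)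
  have hVL : ∀ a b, VL (Z (R.co i) a b) (z (R.co i)) = ∑ x, algebraMap L ℂ (coeff 0 (Z (R.co i) a x)) *
      VL (Hn (Z (R.co i)) (W (R.co i)) x b) (z (R.co i)) := by
    intro a b
    have h1 := Z_eq (h (R.co i)) a b
    calc VL (Z (R.co i) a b) (z (R.co i)) = VL (∑ k, C (coeff 0 (Z (R.co i) a k)) *
          Hn (Z (R.co i)) (W (R.co i)) k b) (z (R.co i)) := by rw [← h1]
      _ = _ := vl_lin _ _ fun k => hsum _ _ _
  have hmain : P z i = (R.c₀ i + ∑ x, ∑ y, (∑ a, R.c i a y * algebraMap L ℂ (coeff 0 (Z (R.co i) a x))) *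
    VL (Hn (Z (R.co i)) (W (R.co i)) x y) (z (R.co i))) * t (R.co i) ^ 0 := by
    rw [pow_zero, mul_one, R.eq z hzρ i]
    refine Eq.trans ?_ (aux_alg (R.c₀ i) (R.c i) (fun a x => algebraMap L ℂ (coeff 0 (Z (R.co i) a x)))
      fun x y => VL (Hn (Z (R.co i)) (W (R.co i)) x y) (z (R.co i)))
    congr 1
    exact Finset.sum_congr rfl fun a _ => Finset.sum_congr rfl fun b _ => by rw [hVL]
  exact hmain.trans (Fin.sum_univ_one (fun j : Fin 1 => (R.c₀ i + ∑ x, ∑ y,
    (∑ a, R.c i a y * algebraMap L ℂ (coeff 0 (Z (R.co i) a x))) *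
    VL (Hn (Z (R.co i)) (W (R.co i)) x y) (z (R.co i))) * t (R.co i) ^ (j : ℕ))).symm

end rep

end Pool.Agent.NH25.DL
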