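import Pool.Agent.NH25.DL.WinL

/-!
# Windows of bad points: all values of the logarithm
-/

set_option autoImplicit false

open PowerSeries Module

namespace Pool.Agent.NH25.DL

open Pool.Agent.Y113 Pool.Agent.Y120.GF Pool.Agent.Y120.GH Pool.Agent.Y916.Al Pool.Agent.Y118.UL
  Pool.Agent.Y916.Af Pool.Agent.Y547.AF Pool.Agent.NH25.DG

lemma BadV.mono {κ : Type} [Fintype κ] {V V' : Submodule ℚ ℂ} (hV : V ≤ V') {y : κ → ℂ} (h : BadV V y) : BadV V' y := by
  obtain ⟨c, h1, h2, h3⟩ := h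
  exact ⟨c, h1, fun e => hV (h2 e), h3⟩

/-- another value of the logarithm -/
lemma bad_shift {β : Type} [Fintype β] {δ : ℕ} (w : β → ℂ) {V U : Submodule ℚ ℂ} {u t : ℂ} (hu : ∀ j ≤ δ, u ^ j ∈ U)
    (h : BadV V (fun p : β × Fin (δ + 1) => w p.1 * (t + u) ^ (p.2 : ℕ))) :
    BadV (V * U) (fun p : β × Fin (δ + 1) => w p.1 * t ^ (p.2 : ℕ)) := by
  classical
  obtain ⟨c, hc0, hcV, hc⟩ := h
  set c' : β × Fin (δ + 1) → ℂ := fun p => ∑ i : Fin (δ + 1), (((i : ℕ).choose p.2 : ℕ) : ℂ) *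
    (c (p.1, i) * u ^ ((i : ℕ) - p.2)) with hc'
  refine ⟨c', fun h0 => ?_, fun p => ?_, ?_⟩
  · obtain ⟨⟨b, i₀⟩, hp⟩ : ∃ p, c p ≠ 0 := by
      by_contra hcon
      push Not at hcon
      exact hc0 (funext hcon)
    obtain ⟨i, hi, hmax⟩ := Finset.exists_max_image (Finset.univ.filter fun i : Fin (δ + 1) => c (b, i) ≠ 0) id
      ⟨i₀, Finset.mem_filter.2 ⟨Finset.mem_univ _, hp⟩⟩
    have hi0 := (Finset.mem_filter.1 hi).2
    have h1 := congrFun h0 (b, i)
    apply hi0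
    have h2 : c' (b, i) = c (b, i) := by
      show ∑ j : Fin (δ + 1), _ = _
      rw [Finset.sum_eq_single i]
      · simp
      · intro j _ hj
        rcases lt_or_gt_of_ne hj with h3 | h3
        · rw [Nat.choose_eq_zero_of_lt (by exact_mod_cast h3)]
          simp
        · have h4 : c (b, j) = 0 := by
            by_contra h4
            have := hmax j (Finset.mem_filter.2 ⟨Finset.mem_univ _, h4⟩)
            exact absurd this (not_le.2 h3)
          rw [h4]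
          simp
      · intro hh
        exact absurd (Finset.mem_univ _) hh
    rw [← h2, h1]
    rfl
  · refine Submodule.sum_mem _ fun i _ => ?_
    rw [← nsmul_eq_mul]
    exact Submodule.smul_of_tower_mem _ _ (Submodule.mul_mem_mul (hcV _) (hu _ (by have := i.2; omega)))
  · rw [← hc, Fintype.sum_prod_type, Fintype.sum_prod_type]
    refine Finset.sum_congr rfl fun b _ => ?_
    have h1 : ∀ j : Fin (δ + 1), (t + u) ^ (j : ℕ) = ∑ i : Fin (δ + 1), (((j : ℕ).choose i : ℕ) : ℂ) *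
        (t ^ (i : ℕ) * u ^ ((j : ℕ) - i)) := by
      intro j
      rw [add_pow, Fin.sum_univ_eq_sum_range (fun i => (((j : ℕ).choose i : ℕ) : ℂ) * (t ^ i * u ^ ((j : ℕ) - i)))]
      rw [← Finset.sum_range_add_sum_Ico _ (show (j : ℕ) + 1 ≤ δ + 1 by have := j.2; omega)]
      rw [Finset.sum_eq_zero (s := Finset.Ico _ _) (fun i hi => by
        rw [Nat.choose_eq_zero_of_lt (by have := (Finset.mem_Ico.1 hi).1; omega)]
        simp), add_zero]
      exact Finset.sum_congr rfl fun i _ => by ring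
    simp only [h1, hc', Finset.sum_mul, Finset.mul_sum]
    rw [Finset.sum_comm]
    refine Finset.sum_congr rfl fun j _ => Finset.sum_congr rfl fun i _ => ?_
    ring

/-- expansions of words -/
structure BasL {r : ℕ} (h : Fin r → ℚ⟦X⟧) (δ : ℕ) where
  B : Finset (Fin δ → Option (Fin r))
  h0 : (fun _ => none) ∈ B
  D : Polynomial ℤ
  M : (Fin δ → Option (Fin r)) → B → Polynomial ℤ
  hD : D ≠ 0
  red : ∀ b : Fin δ → Option (Fin r), ps D * yw h b = ∑ β, ps (M b β) * yw h β.1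

/-- the values at `1 / x` of the words and powers of the logarithm -/
noncomputable def phi {r : ℕ} {h : Fin r → ℚ⟦X⟧} {δ : ℕ} (b : BasL h δ) (x t : ℂ) (p : b.B × Fin (δ + 1)) : ℂ :=
  yw (fun j => evc (1 / x) (h j)) p.1.1 * t ^ (p.2 : ℕ)

instance {r : ℕ} {h : Fin r → ℚ⟦X⟧} {δ : ℕ} (b : BasL h δ) : Nonempty (b.B × Fin (δ + 1)) := ⟨⟨⟨_, b.h0⟩, 0⟩⟩

/-- **Windows of bad points** -/
theorem win_phi {r : ℕ} {h : Fin r → ℚ⟦X⟧} {T : Polynomial ℤ} {A : Fin r → Fin r → Polynomial ℤ} (hG : GFs T A h) :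
    ∃ G₀ : ℕ, 1 ≤ G₀ ∧ ∀ δ : ℕ, ∃ b : BasL h δ, ∀ G : ℕ, G₀ ≤ G → ∀ m A₀ D : ℕ, ∃ M E : ℕ, ∀ V : Submodule ℚ ℂ,
      Module.Finite ℚ V → finrank ℚ V ≤ D → ∀ (H : ℕ) (K : IntermediateField ℚ ℂ) (ξ : K) (X : ℝ),
      FiniteDimensional ℚ K → finrank ℚ K ≤ m → Pt K ξ X → ((H : ℝ) + 2) ^ E ≤ ‖(ξ : ℂ)‖ → X ≤ ‖(ξ : ℂ)‖ ^ A₀ →
      ∀ S : Finset ℕ, (∀ g ∈ S, g ≤ H ∧ ∃ t : ℂ, Complex.exp t = (ξ : ℂ) - ((G * g : ℕ) : ℂ) ∧
        BadV V (phi b ((ξ : ℂ) - ((G * g : ℕ) : ℂ)) t)) → S.card ≤ M := by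
  classical
  obtain ⟨R, hR⟩ := famE hG.hT hG.hode hG.hsize hG.hgs hG.hqu
  refine ⟨max R 1, le_max_right _ _, fun δ => ?_⟩
  obtain ⟨B, hb0, hli, ⟨a₀, M₀, ha₀, hM₀⟩, ⟨C, hC1, hC⟩, hB⟩ := hR δ
  set b : BasL h δ := ⟨B, hb0, a₀, M₀, ha₀, hM₀⟩ with hbdef
  refine ⟨b, fun G hGR m A₀ D => ?_⟩
  have hG1 : 1 ≤ G := (le_max_right _ _).trans hGR
  have hGR' : R ≤ G := (le_max_left _ _).trans hGR
  obtain ⟨C₀, hC₀⟩ := hG.hsize
  obtain ⟨c, hc⟩ := pow_unbounded_of_one_lt (C + |C₀|) (show (1 : ℝ) < 2 by norm_num)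
  set val : ℂ → ℕ → B × Fin (δ + 1) → ℂ := fun ξ g p => yw (fun j => vc G h ξ g (some j)) p.1.1 *
    vc G h ξ g none ^ (p.2 : ℕ) with hval
  have : Nonempty (B × Fin (δ + 1)) := ⟨⟨⟨_, hb0⟩, 0⟩⟩
  obtain ⟨M, E, hME⟩ := win_dim val m A₀ (D * 3 ^ δ) (by
    intro N
    obtain ⟨E, hE⟩ := hB N m A₀
    refine ⟨(G + 1) * E + (G + 1 + c), ?_⟩
    intro H K ξ X hK hd hPt ht hX g hg hgH n a ha hrel hcard
    have hGH : G * H + 2 ≤ (H + 2) ^ (G + 1) := by
      have h2 : G + 1 ≤ 2 ^ G := Nat.lt_two_pow_self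
      have h3 : 2 ^ G ≤ (H + 2) ^ G := Nat.pow_le_pow_left (by omega) _
      rw [pow_succ]
      nlinarith
    have hGHR : ((G * H : ℕ) : ℝ) + 2 ≤ ((H : ℝ) + 2) ^ (G + 1) := by exact_mod_cast hGH
    have hH0 : (0 : ℝ) ≤ (H : ℝ) := by positivity
    have hH1 : (1 : ℝ) ≤ (H : ℝ) + 2 := by linarith
    have ht1 : (((G * H : ℕ) : ℝ) + 2) ^ E ≤ ‖(ξ : ℂ)‖ := by
      refine (pow_le_pow_left₀ (by positivity) hGHR _).trans ?_
      rw [← pow_mul]
      exact (pow_le_pow_right₀ hH1 (by omega)).trans ht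
    have ht2 : (((G * H : ℕ) : ℝ) + 2) * 2 ^ c ≤ ‖(ξ : ℂ)‖ := by
      refine le_trans ?_ ((pow_le_pow_right₀ hH1 (show G + 1 + c ≤ (G + 1) * E + (G + 1 + c) by omega)).trans ht)
      rw [pow_add _ (G + 1) c]
      exact mul_le_mul hGHR (pow_le_pow_left₀ (by norm_num) (by linarith) _) (by positivity) (by positivity)
    set g' : Fin N → ℕ := fun l => G * g l with hg'
    have hg'H : ∀ l, g' l ≤ G * H := fun l => Nat.mul_le_mul_left _ (hgH l).2
    have hbig : ∀ l, ((g' l : ℕ) : ℝ) + (C + |C₀|) < ‖(ξ : ℂ)‖ := by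
      intro l
      have h1 : ((g' l : ℕ) : ℝ) ≤ ((G * H : ℕ) : ℝ) := by exact_mod_cast hg'H l
      have h2 : (1 : ℝ) ≤ 2 ^ c := one_le_pow₀ (by norm_num)
      have h3 : (0 : ℝ) ≤ ((G * H : ℕ) : ℝ) := by positivity
      nlinarith
    have hsep : SepR R g' := by
      refine ⟨fun l => hGR'.trans (Nat.le_mul_of_pos_right _ (hgH l).1), fun l l' hll => ?_⟩
      have h1 : g l ≠ g l' := fun h => hll (hg h)
      rcases Nat.lt_or_gt_of_ne h1 with h2 | h2
      · left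
        have : G * (g l + 1) ≤ G * g l' := Nat.mul_le_mul_left _ h2
        rw [mul_add, mul_one] at this
        show G * g l + R ≤ G * g l'
        omega
      · right
        have : G * (g l' + 1) ≤ G * g l := Nat.mul_le_mul_left _ h2
        rw [mul_add, mul_one] at this
        show G * g l' + R ≤ G * g l
        omega
    refine hE (G * H) K ξ X hK hd hPt ht1 hX g' hsep hg'H n
      (fun i b => a i b * ((∏ l, ((b l).2 : ℕ).factorial : ℕ) : ℚ)) (li_scale ha fun b => ?_) (fun i => ?_) hcard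
    · have h1 : (∏ l, ((b l).2 : ℕ).factorial : ℕ) ≠ 0 := Finset.prod_ne_zero_iff.2 fun l _ => Nat.factorial_ne_zero _
      exact_mod_cast h1
    · refine Eq.trans ?_ (hrel i)
      refine Finset.sum_congr rfl fun b _ => ?_
      have h1 : ∀ l, evc (1 / (ξ : ℂ)) (Fg (δ + 1) (fun β : B => yw h β.1) (g' l) (b l)) =
          yw (fun j => vc G h ξ (g l) (some j)) (b l).1.1 *
            (1 / (((b l).2 : ℕ).factorial : ℂ) * vc G h ξ (g l) none ^ ((b l).2 : ℕ)) := by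
        intro l
        have hb := hbig l
        rw [evc_Fg hC1 (fun β m => hC β.1 m) (by
          have := abs_nonneg C₀
          linarith) (b l)]
        have h2 : |C₀| < ‖(ξ : ℂ) - ((g' l : ℕ) : ℂ)‖ := by
          have h3 := norm_sub_norm_le (ξ : ℂ) ((g' l : ℕ) : ℂ)
          rw [Complex.norm_natCast] at h3
          linarith
        rw [evc_yw (C := |C₀|) (abs_nonneg _) (fun j m => (hC₀ j m).trans (by
          rw [← abs_pow]
          exact le_abs_self _)) h2]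
        rfl
      simp only [h1]
      rw [Rat.cast_mul, mul_assoc]
      congr 1
      have h4 : (((∏ l, ((b l).2 : ℕ).factorial : ℕ) : ℚ) : ℂ) = ∏ l, (((b l).2 : ℕ).factorial : ℂ) := by
        push_cast
        rfl
      rw [h4, ← Finset.prod_mul_distrib]
      refine Finset.prod_congr rfl fun l _ => ?_
      have h5 : ((((b l).2 : ℕ).factorial : ℕ) : ℂ) ≠ 0 := by
        exact_mod_cast Nat.factorial_ne_zero _
      show _ = yw (fun j => vc G h ξ (g l) (some j)) (b l).1.1 * vc G h ξ (g l) none ^ ((b l).2 : ℕ)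
      field_simp)
  refine ⟨M + 1, E + (G + 2), fun V hVf hVD H K ξ X hKf hKd hPt hξ hX S hS => ?_⟩
  have hH0 : (0 : ℝ) ≤ (H : ℝ) := by positivity
  have hH1 : (1 : ℝ) ≤ (H : ℝ) + 2 := by linarith
  have hGHξ : ((G * H : ℕ) : ℝ) < ‖(ξ : ℂ)‖ := by
    have hGH : G * H + 2 ≤ (H + 2) ^ (G + 1) := by
      have h2 : G + 1 ≤ 2 ^ G := Nat.lt_two_pow_self
      have h3 : 2 ^ G ≤ (H + 2) ^ G := Nat.pow_le_pow_left (by omega) _
      rw [pow_succ]
      nlinarith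
    have hGHR : ((G * H : ℕ) : ℝ) + 2 ≤ ((H : ℝ) + 2) ^ (G + 1) := by exact_mod_cast hGH
    have h1 := (pow_le_pow_right₀ hH1 (show G + 1 ≤ E + (G + 2) by omega)).trans hξ
    linarith
  have hξ0 : (ξ : ℂ) ≠ 0 := by
    intro h0
    rw [h0, norm_zero] at hGHξ
    have : (0 : ℝ) ≤ ((G * H : ℕ) : ℝ) := by positivity
    linarith
  set f : Option (Option Unit) → ℂ := fun o => o.elim 1 fun o => o.elim (2 * Real.pi * Complex.I) fun _ => Complex.log ξ
    with hf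
  set W : Submodule ℚ ℂ := Submodule.span ℚ (Set.range f) with hW
  have hW1 : (1 : ℂ) ∈ W := Submodule.subset_span ⟨none, rfl⟩
  have hWpi : (2 * Real.pi * Complex.I : ℂ) ∈ W := Submodule.subset_span ⟨some none, rfl⟩
  have hWl : Complex.log ξ ∈ W := Submodule.subset_span ⟨some (some ()), rfl⟩
  have hWf : Module.Finite ℚ W := Module.Finite.span_of_finite ℚ (Set.finite_range _)
  have hWd : finrank ℚ W ≤ 3 := by
    refine (finrank_range_le_card _).trans ?_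
    simp
  obtain ⟨hp1, hp2⟩ := Pool.Agent.Y916.Om.finrank_pow_le W δ
  obtain ⟨hq1, hq2⟩ := finrank_mul_le V (W ^ δ)
  have hSd : S.card ≤ (S.filter fun g => 1 ≤ g).card + 1 := by
    have h1 : S ⊆ insert 0 (S.filter fun g => 1 ≤ g) := by
      intro g hg
      rw [Finset.mem_insert, Finset.mem_filter]
      rcases Nat.eq_zero_or_pos g with h0 | h0
      · exact Or.inl h0
      · exact Or.inr ⟨hg, h0⟩
    exact (Finset.card_le_card h1).trans (Finset.card_insert_le _ _)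
  refine hSd.trans (Nat.add_le_add_right ?_ 1)
  refine hME (V * W ^ δ) hq1 (hq2.trans (Nat.mul_le_mul hVD (hp2.trans (Nat.pow_le_pow_left hWd _)))) H K ξ X hKf hKd hPt
    ((pow_le_pow_right₀ hH1 (by omega)).trans hξ) hX _ fun g hg => ?_
  obtain ⟨hgS, hg1⟩ := Finset.mem_filter.1 hg
  obtain ⟨hgH, t, ht, hbad⟩ := hS g hgS
  refine ⟨⟨hg1, hgH⟩, ?_⟩
  -- the logarithm
  have h1 : ((G * g : ℕ) : ℝ) < ‖(ξ : ℂ)‖ := lt_of_le_of_lt (by exact_mod_cast Nat.mul_le_mul_left _ hgH) hGHξ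
  have h2 : (1 : ℂ) - ((G * g : ℕ) : ℂ) / ξ ≠ 0 := by
    intro h2
    have h3 : ((G * g : ℕ) : ℂ) / ξ = 1 := (sub_eq_zero.1 h2).symm
    rw [div_eq_one_iff_eq hξ0] at h3
    rw [← h3, Complex.norm_natCast] at h1
    exact lt_irrefl _ h1
  obtain ⟨n, hn⟩ : ∃ n : ℤ, t = vc G h ξ g none + (Complex.log ξ + n * (2 * Real.pi * Complex.I)) := by
    have h3 : Complex.exp t = Complex.exp (vc G h ξ g none + Complex.log ξ) := by
      show _ = Complex.exp (Complex.log (1 - ((G * g : ℕ) : ℂ) / ξ) + Complex.log ξ)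
      rw [Complex.exp_add, Complex.exp_log h2, Complex.exp_log hξ0, ht, sub_mul, div_mul_cancel₀ _ hξ0, one_mul]
    obtain ⟨n, hn⟩ := Complex.exp_eq_exp_iff_exists_int.1 h3
    exact ⟨n, by rw [hn]; ring⟩
  refine bad_shift (V := V) (U := W ^ δ) (u := Complex.log ξ + n * (2 * Real.pi * Complex.I)) (t := vc G h ξ g none)
    (δ := δ) (fun p : B => yw (fun j => vc G h ξ g (some j)) p.1) ?_ ?_
  · intro j hj
    have h4 : Complex.log ξ + n * (2 * Real.pi * Complex.I) ∈ W := by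
      refine add_mem hWl ?_
      rw [← zsmul_eq_mul]
      exact Submodule.smul_of_tower_mem _ _ hWpi
    have h5 := Submodule.pow_mem_pow W h4 j
    obtain ⟨e, rfl⟩ := Nat.exists_eq_add_of_le hj
    rw [pow_add]
    have h6 := Submodule.mul_mem_mul h5 (Submodule.pow_mem_pow W hW1 e)
    rwa [one_pow, mul_one] at h6
  · rw [← hn]
    exact hbad

end Pool.Agent.NH25.DL
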