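import Pool.Agent.NH25.DL.Fam
import Pool.Agent.NH25.DG.Fam

/-!
# The functions of families over number fields, in terms of letters over `ℚ`
-/

set_option autoImplicit false

open PowerSeries Module
open scoped Matrix

namespace Pool.Agent.NH25.DL

open Pool.Agent.Y113 Pool.Agent.Y921.DB Pool.Agent.Y916 Pool.Agent.Y916.Af Pool.Agent.Y916.Al Pool.Agent.NH25.DG

section spec

variable {k : ℕ} {τ τ' : Type}

/-- a relation depends only on the functions near `0` -/
lemma SpecT.congr {κ : IntermediateField ℚ ℂ} {p p' : (Fin k → ℂ) → (Fin k → ℂ) → τ → ℂ} {r : ℝ} {δ : ℕ} {s t : Fin k → ℂ}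
    (hp : ∀ z : Fin k → ℂ, (∀ l, ‖z l‖ < r) → ∀ t, p z t = p' z t) (hs : ∀ l, ‖s l‖ < r) (h : SpecT κ p' r δ s t) :
    SpecT κ p r δ s t := by
  intro P hP hc h0
  rw [hp _ hs] at h0
  obtain ⟨G, h1, h2, h3⟩ := h P hP hc h0
  exact ⟨G, h1, fun z hz' t' => by rw [hp z hz']; exact h2 z hz' t', h3⟩

/-- restriction to a smaller polydisc -/
lemma SpecT.mono {κ : IntermediateField ℚ ℂ} {p : (Fin k → ℂ) → (Fin k → ℂ) → τ → ℂ} {r r' : ℝ} (hr : r' ≤ r) {δ : ℕ}
    {s t : Fin k → ℂ} (h : SpecT κ p r δ s t) : SpecT κ p r' δ s t := by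
  intro P hP hc h0
  obtain ⟨G, h1, h2, h3⟩ := h P hP hc h0
  exact ⟨G, h1, fun z hz' t' => h2 z (fun l => (hz' l).trans_le hr) t', h3⟩

/-- restriction to a part of the functions -/
theorem SpecT.rename {κ : IntermediateField ℚ ℂ} {p : (Fin k → ℂ) → (Fin k → ℂ) → τ → ℂ}
    {p' : (Fin k → ℂ) → (Fin k → ℂ) → τ' → ℂ} {r : ℝ} {δ : ℕ}
    {s t : Fin k → ℂ} {g : τ → τ'} (hg : Function.Injective g) (h1 : ∀ z t i, p' z t (g i) = p z t i)
    (h2 : ∀ z t i', i' ∉ Set.range g → p' z t i' = 0) (h : SpecT κ p' r δ s t) : SpecT κ p r δ s t := by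
  classical
  intro P hP hc h0
  obtain ⟨G, hG1, hG2, hG3⟩ := h (MvPolynomial.rename g P) ((MvPolynomial.totalDegree_rename_le g P).trans hP) (by
    intro e
    by_cases he : ∃ e', Finsupp.mapDomain g e' = e
    · obtain ⟨e', rfl⟩ := he
      rw [MvPolynomial.coeff_rename_mapDomain g hg]
      exact hc e'
    · rw [MvPolynomial.coeff_rename_eq_zero g P e fun u hu => absurd ⟨u, hu⟩ he]
      exact zero_mem _) (by
    rw [MvPolynomial.aeval_rename, ← h0]
    congr 1
    congr 1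
    funext i
    exact h1 _ _ i)
  refine ⟨MvPolynomial.killCompl hg G, (totalDegree_aeval_le' (fun i => ?_) G).trans hG1, fun z hz t' => ?_, ?_⟩
  · split_ifs
    · exact (MvPolynomial.totalDegree_X _).le
    · simp
  · have h3 := MvPolynomial.map_aeval (R := MvPolynomial (Fin k) Qb)
      (g := fun i => if hi : i ∈ Set.range g then (MvPolynomial.X ((Equiv.ofInjective g hg).symm ⟨i, hi⟩) :
        MvPolynomial τ (MvPolynomial (Fin k) Qb)) else 0)
      (φ := MvPolynomial.eval₂Hom (MvPolynomial.aeval z : MvPolynomial (Fin k) Qb →ₐ[Qb] ℂ).toRingHom (p z t')) (p := G)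
    have h4 : MvPolynomial.eval₂ (MvPolynomial.aeval z : MvPolynomial (Fin k) Qb →ₐ[Qb] ℂ).toRingHom (p z t')
        (MvPolynomial.killCompl hg G) =
        MvPolynomial.eval₂Hom (MvPolynomial.aeval z : MvPolynomial (Fin k) Qb →ₐ[Qb] ℂ).toRingHom (p z t')
          (MvPolynomial.killCompl hg G) := rfl
    rw [h4]
    unfold MvPolynomial.killCompl
    rw [h3, ← hG2 z hz t']
    have h5 : (MvPolynomial.eval₂Hom (MvPolynomial.aeval z : MvPolynomial (Fin k) Qb →ₐ[Qb] ℂ).toRingHom (p z t')).comp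
        (algebraMap (MvPolynomial (Fin k) Qb) (MvPolynomial τ (MvPolynomial (Fin k) Qb))) =
        (MvPolynomial.aeval z : MvPolynomial (Fin k) Qb →ₐ[Qb] ℂ).toRingHom := by
      refine RingHom.ext fun a => ?_
      rw [RingHom.comp_apply, MvPolynomial.algebraMap_eq, MvPolynomial.coe_eval₂Hom, MvPolynomial.eval₂_C]
    rw [h5, MvPolynomial.coe_eval₂Hom]
    congr 1
    funext i'
    by_cases hi' : i' ∈ Set.range g
    · rw [dif_pos hi', MvPolynomial.coe_eval₂Hom, MvPolynomial.eval₂_X]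
      obtain ⟨i, rfl⟩ := hi'
      rw [h1]
      congr 1
      exact (Equiv.symm_apply_eq _).2 (Subtype.ext rfl)
    · rw [dif_neg hi', map_zero, h2 z t' i' hi']
  · unfold MvPolynomial.killCompl
    have h3 := MvPolynomial.map_aeval (R := MvPolynomial (Fin k) Qb)
      (g := fun i => if hi : i ∈ Set.range g then (MvPolynomial.X ((Equiv.ofInjective g hg).symm ⟨i, hi⟩) :
        MvPolynomial τ (MvPolynomial (Fin k) Qb)) else 0)
      (φ := MvPolynomial.map (σ := τ) (MvPolynomial.aeval s : MvPolynomial (Fin k) Qb →ₐ[Qb] ℂ).toRingHom) (p := G)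
    rw [h3]
    have h4 : P = MvPolynomial.killCompl hg
        (MvPolynomial.map (MvPolynomial.aeval s : MvPolynomial (Fin k) Qb →ₐ[Qb] ℂ).toRingHom G) := by
      rw [hG3, MvPolynomial.killCompl_rename_app]
    conv_rhs => rw [h4]
    unfold MvPolynomial.killCompl
    rw [MvPolynomial.aeval_def, MvPolynomial.eval₂_map]
    rw [MvPolynomial.coe_eval₂Hom]
    congr 1
    · refine RingHom.ext fun a => ?_
      simp
    · funext i'
      split_ifs <;> simp

end spec

section one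

variable {L : Type} [Field L] [NumberField L] [Algebra L ℂ] {n d : ℕ} (b : Module.Basis (Fin d) ℚ L)

/-- the family of the restricted entries -/
noncomputable def hr (H : Matrix (Fin n) (Fin n) L⟦X⟧) : Fin ((n * d) * (n * d)) → ℚ⟦X⟧ :=
  Pool.Agent.NH25.AP.hT (Matrix.of (Zr b fun i j => H i j))

/-- the coefficients of the letters -/
noncomputable def lam1 {e : ℕ} (c₀ : Fin (e + 1) → ℂ) (c : Fin (e + 1) → Matrix (Fin n) (Fin n) ℂ)
    (q : Option (Option (Fin ((n * d) * (n * d))) × Fin (e + 1))) : ℂ :=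
  q.elim 0 fun p => p.1.elim (c₀ p.2) fun q =>
    c p.2 (Pool.Agent.Y921.DB.ix n d (Pool.Agent.Y119.HZ.ix (n * d) q).2).1
      (Pool.Agent.Y921.DB.ix n d (Pool.Agent.Y119.HZ.ix (n * d) q).1).1 *
    (((b.repr 1 (Pool.Agent.Y921.DB.ix n d (Pool.Agent.Y119.HZ.ix (n * d) q).1).2 : ℚ) : ℂ) *
      algebraMap L ℂ (b (Pool.Agent.Y921.DB.ix n d (Pool.Agent.Y119.HZ.ix (n * d) q).2).2))

lemma lam1_eq {e : ℕ} (H : Matrix (Fin n) (Fin n) L⟦X⟧) (c₀ : Fin (e + 1) → ℂ)
    (c : Fin (e + 1) → Matrix (Fin n) (Fin n) ℂ) {z : ℂ} (hz : ∀ i j x y, Cvc z (rho b (H i j) x y)) (t : ℂ) :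
    ∑ q, lam1 b c₀ c q * q.elim 1 (yl (hr b H) e z t) =
      ∑ j, (c₀ j + ∑ a, ∑ a', c j a a' * VL (H a a') z) * t ^ (j : ℕ) := by
  classical
  rw [Fintype.sum_option, Fintype.sum_prod_type, Finset.sum_comm]
  have h0 : lam1 b c₀ c none * (none : Option (Option (Fin ((n * d) * (n * d))) × Fin (e + 1))).elim 1
      (yl (hr b H) e z t) = 0 := zero_mul _
  rw [h0, zero_add]
  refine Finset.sum_congr rfl fun j _ => ?_
  rw [Fintype.sum_option, add_mul]
  congr 1
  · simp only [lam1, yl, Option.elim_some, Option.elim_none, one_mul]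
  · have hVL : ∀ a a', VL (H a a') z = ∑ x, ∑ y, ((b.repr 1 y : ℚ) : ℂ) * algebraMap L ℂ (b x) *
        evc z (rho b (H a a') x y) := by
      intro a a'
      have h1 : ∀ x y, Pool.Agent.Y37.GF.SR ‖z‖ (rho b (H a a') x y) := by
        intro x y
        have h2 := hz a a' x y
        unfold Cvc at h2
        unfold Pool.Agent.Y37.GF.SR
        refine h2.congr fun m => ?_
        rw [Complex.norm_ratCast]
      exact VL_eq b h1
    have h1 : ∑ q : Fin ((n * d) * (n * d)), lam1 b c₀ c (some (some q, j)) *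
        (some (some q, j) : Option (Option (Fin ((n * d) * (n * d))) × Fin (e + 1))).elim 1 (yl (hr b H) e z t) =
        ∑ a' : Fin n, ∑ y : Fin d, ∑ a : Fin n, ∑ x : Fin d, c j a a' * (((b.repr 1 y : ℚ) : ℂ) * algebraMap L ℂ (b x) *
          evc z (rho b (H a a') x y)) * t ^ (j : ℕ) := by
      rw [← (Pool.Agent.Y119.HZ.ix (n * d)).symm.sum_comp, Fintype.sum_prod_type,
        ← (Pool.Agent.Y921.DB.ix n d).symm.sum_comp, Fintype.sum_prod_type]
      refine Finset.sum_congr rfl fun a' _ => Finset.sum_congr rfl fun y _ => ?_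
      rw [← (Pool.Agent.Y921.DB.ix n d).symm.sum_comp, Fintype.sum_prod_type]
      refine Finset.sum_congr rfl fun a _ => Finset.sum_congr rfl fun x _ => ?_
      simp only [lam1, yl, hr, Pool.Agent.NH25.AP.hT, Option.elim_some, Equiv.apply_symm_apply, Matrix.of_apply, Zr]
      ring
    rw [h1]
    simp only [hVL, Finset.mul_sum, Finset.sum_mul]
    rw [Finset.sum_comm (s := (Finset.univ : Finset (Fin n))) (t := (Finset.univ : Finset (Fin n)))
      (f := fun a a' => ∑ x, ∑ y, c j a a' * (((b.repr 1 y : ℚ) : ℂ) * algebraMap L ℂ (b x) *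
          evc z (rho b (H a a') x y)) * t ^ (j : ℕ))]
    refine Finset.sum_congr rfl fun a' _ => ?_
    rw [Finset.sum_comm]
    refine Finset.sum_congr rfl fun a _ => ?_
    rw [Finset.sum_comm]

end one

end Pool.Agent.NH25.DL
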