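import Pool.Agent.NH25.DL.Nd
import Pool.Agent.NH25.DG.Spec

/-!
# Relations over the field of definition of the point are specialisations of functional relations, abstract form
-/

set_option autoImplicit false

open PowerSeries Module

namespace Pool.Agent.NH25.DL

open Pool.Agent.Y113 Pool.Agent.Y113.GG Pool.Agent.Y118.HG Pool.Agent.Y921.DB Pool.Agent.NH25.DG

/-- every relation with coefficients in `κ` of degree `≤ δ` between the values of `p` at `s`, for the values `t` of the
logarithms, is the specialisation of a functional relation over the algebraic numbers -/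
def SpecT {k : ℕ} (κ : IntermediateField ℚ ℂ) {τ : Type} (p : (Fin k → ℂ) → (Fin k → ℂ) → τ → ℂ) (r : ℝ) (δ : ℕ)
    (s t : Fin k → ℂ) : Prop :=
  ∀ P : MvPolynomial τ ℂ, P.totalDegree ≤ δ → (∀ e, P.coeff e ∈ κ) → MvPolynomial.aeval (p s t) P = 0 →
    ∃ G : MvPolynomial τ (MvPolynomial (Fin k) Qb), G.totalDegree ≤ δ ∧
      (∀ z : Fin k → ℂ, (∀ l, ‖z l‖ < r) → ∀ t' : Fin k → ℂ,
        G.eval₂ (MvPolynomial.aeval z : MvPolynomial (Fin k) Qb →ₐ[Qb] ℂ).toRingHom (p z t') = 0) ∧
      G.map (MvPolynomial.aeval s : MvPolynomial (Fin k) Qb →ₐ[Qb] ℂ).toRingHom = P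

/-- expansions of words -/
structure Ex {κ σ : Type} [Fintype κ] (Φ : ℂ → ℂ → κ → ℂ) (y : ℂ → ℂ → σ → ℂ) (r : ℝ) (δ : ℕ) where
  D : Polynomial ℤ
  N : (Fin δ → Option σ) → κ → Polynomial ℤ
  hD : D ≠ 0
  red : ∀ z : ℂ, ‖z‖ < r → ∀ (t : ℂ) (g : Fin δ → Option σ), Polynomial.aeval z D * wv (y z t) g =
    ∑ e, Polynomial.aeval z (N g e) * Φ (1 / z) t e

variable {k δ : ℕ} {ι : Type} {κ σ : Fin k → Type} [∀ l, Fintype (κ l)] [∀ l, Fintype (σ l)]
  {Φ : ∀ l, ℂ → ℂ → κ l → ℂ} {y : ∀ l, ℂ → ℂ → σ l → ℂ} {r : ℝ}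

/-- the functions: linear combinations with arbitrary constant coefficients of `1` and of the letters, at every place `l` -/
noncomputable def pf (lam : ∀ l, ι → Option (σ l) → ℂ) (y : ∀ l, ℂ → ℂ → σ l → ℂ) (z t : Fin k → ℂ)
    (p : Fin k × ι) : ℂ := ∑ q, lam p.1 p.2 q * q.elim 1 (y p.1 (z p.1) (t p.1))

section
variable (E : ∀ l, Ex (Φ l) (y l) r δ) (lam : ∀ l, ι → Option (σ l) → ℂ)

open Classical in
/-- the coefficients of the words -/
noncomputable def cl (l : Fin k) (h : Fin δ → Option ι) (g : Fin δ → Option (σ l)) : ℂ :=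
  ∏ a, (h a).elim (if g a = none then 1 else 0) fun i => lam l i (g a)

/-- the coefficients in terms of the basis -/
noncomputable def ae (w : Fin δ → Option (Fin k × ι)) (e : ∀ l, κ l) : MvPolynomial (Fin k) ℂ :=
  ∏ l, ∑ g, MvPolynomial.C (cl lam l (rs w l) g) * Polynomial.aeval (MvPolynomial.X l) ((E l).N g (e l))

lemma dwe (w : Fin δ → Option (Fin k × ι)) {z : Fin k → ℂ} (hz : ∀ l, ‖z l‖ < r) (t : Fin k → ℂ) :
    (∏ l, Polynomial.aeval (z l) (E l).D) * wv (pf lam y z t) w =
      ∑ e, MvPolynomial.aeval z (ae E lam w e) * ∏ l, Φ l (1 / z l) (t l) (e l) := by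
  classical
  rw [wv_rs, ← Finset.prod_mul_distrib]
  have h1 : ∀ l, Polynomial.aeval (z l) (E l).D * wv (fun i => pf lam y z t (l, i)) (rs w l) =
      ∑ j : κ l, (∑ g, cl lam l (rs w l) g * Polynomial.aeval (z l) ((E l).N g j)) * Φ l (1 / z l) (t l) j := by
    intro l
    have h2 : wv (fun i => pf lam y z t (l, i)) (rs w l) = _ := wv_lin (lam l) (y l (z l) (t l)) (rs w l)
    rw [h2, Finset.mul_sum]
    have h3 : ∀ g : Fin δ → Option (σ l), Polynomial.aeval (z l) (E l).D *
        ((∏ a, (rs w l a).elim (if g a = none then 1 else 0) fun i => lam l i (g a)) * wv (y l (z l) (t l)) g) =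
        ∑ j : κ l, cl lam l (rs w l) g * Polynomial.aeval (z l) ((E l).N g j) * Φ l (1 / z l) (t l) j := by
      intro g
      have h4 := (E l).red (z l) (hz l) (t l) g
      calc _ = cl lam l (rs w l) g * (Polynomial.aeval (z l) (E l).D * wv (y l (z l) (t l)) g) := by
            unfold cl
            have h5 : (∏ a, (rs w l a).elim (if g a = none then (1 : ℂ) else 0) fun i => lam l i (g a)) =
                ∏ a, (rs w l a).elim (@ite ℂ (g a = none) (Classical.propDecidable _) (1 : ℂ) 0) fun i => lam l i (g a) := by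
              refine Finset.prod_congr rfl fun a _ => ?_
              congr 1
              split_ifs <;> rfl
            rw [h5]
            ring
        _ = _ := by
            rw [h4, Finset.mul_sum]
            exact Finset.sum_congr rfl fun j _ => by ring
    rw [Finset.sum_congr rfl fun g _ => h3 g, Finset.sum_comm]
    exact Finset.sum_congr rfl fun j _ => (Finset.sum_mul _ _ _).symm
  rw [Finset.prod_congr rfl fun l _ => h1 l, Finset.prod_univ_sum, Fintype.piFinset_univ]
  refine Finset.sum_congr rfl fun e _ => ?_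
  rw [Finset.prod_mul_distrib]
  congr 1
  unfold ae
  rw [map_prod]
  refine Finset.prod_congr rfl fun l _ => ?_
  rw [map_sum]
  refine Finset.sum_congr rfl fun g _ => ?_
  rw [map_mul, aeval_XN, MvPolynomial.aeval_C]
  rfl

end

variable (E : ∀ l, Ex (Φ l) (y l) r δ) (lam : ∀ l, ι → Option (σ l) → ℂ) [Fintype ι]

include E in
/-- **The main lemma.** -/
theorem spec_main :
    ∃ (D₁ : ℕ) (Δ : MvPolynomial (Fin k) Qb), Δ ≠ 0 ∧ ∀ K₀ : IntermediateField ℚ ℂ, FiniteDimensional ℚ K₀ →
    ∃ V : Submodule ℚ ℂ, Module.Finite ℚ V ∧ finrank ℚ V ≤ D₁ * finrank ℚ K₀ ∧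
      ∀ s : Fin k → Qb, (∀ l, ‖((s l : Qb) : ℂ)‖ < r) → ∀ t : Fin k → ℂ,
        NdG Φ (V * Qp fun l => ((s l : Qb) : ℂ)) (fun l => 1 / (s l : ℂ)) t → MvPolynomial.eval s Δ ≠ 0 →
        SpecT (K₀ ⊔ IntermediateField.adjoin ℚ (Set.range fun l => ((s l : Qb) : ℂ))) (pf lam y) r δ
          (fun l => (s l : ℂ)) t := by
  classical
  obtain ⟨r', v, R, hv, hR⟩ := exists_expand (K := Qb)
    (fun p : (Fin δ → Option (Fin k × ι)) × (∀ l, κ l) => ae E lam p.1 p.2)
  obtain ⟨Δ, hΔ, hker⟩ := ker_spec (fun (w : Fin δ → Option (Fin k × ι)) (j : Fin r' × (∀ l, κ l)) => R j.1 (w, j.2))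
  set dD : MvPolynomial (Fin k) Qb := ∏ l, Polynomial.aeval (MvPolynomial.X l) (E l).D with hdD
  have hXD : ∀ l : Fin k, (Polynomial.aeval (MvPolynomial.X l : MvPolynomial (Fin k) Qb) (E l).D) ≠ 0 := by
    intro l h0
    have h1 := congrArg (MvPolynomial.aeval (fun _ : Fin k => (Polynomial.X : Polynomial Qb))) h0
    rw [aeval_XN, map_zero] at h1
    have h2 : ∀ φ : ℤ →+* Polynomial Qb, Polynomial.eval₂ φ Polynomial.X (E l).D = (E l).D.map (Int.castRingHom Qb) := by
      intro φ
      have : φ = Polynomial.C.comp (Int.castRingHom Qb) := Subsingleton.elim _ _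
      rw [this]
      rfl
    rw [Polynomial.aeval_def, h2] at h1
    exact (E l).hD ((Polynomial.map_eq_zero_iff (RingHom.injective_int _)).1 h1)
  have hdD0 : dD ≠ 0 := Finset.prod_ne_zero_iff.2 fun l _ => hXD l
  -- the field of the coefficients
  set S : Set ℂ := ⋃ j : Fin r' × ((Fin δ → Option (Fin k × ι)) × (∀ l, κ l)),
    (fun e => (((R j.1 j.2).coeff e : Qb) : ℂ)) '' ((R j.1 j.2).support : Set (Fin k →₀ ℕ)) with hS
  have hSf : S.Finite := Set.finite_iUnion fun j => ((R j.1 j.2).support.finite_toSet.image _)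
  have hSa : ∀ x ∈ S, IsIntegral ℚ x := by
    intro x hx
    obtain ⟨j, hj⟩ := Set.mem_iUnion.1 hx
    obtain ⟨e, -, rfl⟩ := hj
    exact ((R j.1 j.2).coeff e).2
  set L₀ := IntermediateField.adjoin ℚ S with hL₀
  have hL₀f : FiniteDimensional ℚ L₀ := by
    have := hSf.to_subtype
    exact IntermediateField.finiteDimensional_adjoin hSa
  have hcoef : ∀ (j : Fin r' × ((Fin δ → Option (Fin k × ι)) × (∀ l, κ l))) (e : Fin k →₀ ℕ),
      (((R j.1 j.2).coeff e : Qb) : ℂ) ∈ L₀ := by
    intro j e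
    by_cases he : e ∈ (R j.1 j.2).support
    · exact IntermediateField.subset_adjoin ℚ S (Set.mem_iUnion.2 ⟨j, e, he, rfl⟩)
    · rw [MvPolynomial.notMem_support_iff.1 he]
      exact zero_mem _
  refine ⟨r' * finrank ℚ L₀, Δ * dD, mul_ne_zero hΔ hdD0, fun K₀ _ => ?_⟩
  set F₀ := K₀ ⊔ L₀ with hF₀
  have hF₀f : FiniteDimensional ℚ F₀ := IntermediateField.finiteDimensional_sup K₀ L₀
  set V : Submodule ℚ ℂ := Submodule.span ℚ (Set.range v) * sb F₀ with hV
  have hVf : Module.Finite ℚ V ∧ finrank ℚ V ≤ r' * finrank ℚ L₀ * finrank ℚ K₀ := by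
    have h1 : Module.Finite ℚ (Submodule.span ℚ (Set.range v)) := Module.Finite.span_of_finite ℚ (Set.finite_range _)
    have h2 : Module.Finite ℚ (sb F₀) := hF₀f
    obtain ⟨h3, h4⟩ := finrank_mul_le (Submodule.span ℚ (Set.range v)) (sb F₀)
    refine ⟨h3, h4.trans ?_⟩
    have h5 : finrank ℚ (Submodule.span ℚ (Set.range v)) ≤ r' := by
      have := finrank_range_le_card (R := ℚ) v
      rwa [Fintype.card_fin] at this
    have h6 : finrank ℚ (sb F₀) ≤ finrank ℚ K₀ * finrank ℚ L₀ := IntermediateField.finrank_sup_le K₀ L₀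
    calc _ ≤ r' * (finrank ℚ K₀ * finrank ℚ L₀) := Nat.mul_le_mul h5 h6
      _ = _ := by ring
  refine ⟨V, hVf.1, hVf.2, fun s hs t hN hΔs P hPd hPc hP => ?_⟩
  rw [map_mul] at hΔs
  have hΔ1 := left_ne_zero_of_mul hΔs
  have hρ := right_ne_zero_of_mul hΔs
  set ρ : Qb := MvPolynomial.eval s dD with hρdef
  set z : Fin k → ℂ := fun l => (s l : ℂ) with hz
  have hzK : ∀ Q : MvPolynomial (Fin k) Qb, MvPolynomial.aeval z Q = algebraMap Qb ℂ (MvPolynomial.eval s Q) := by
    intro Q
    have h1 : z = algebraMap Qb ℂ ∘ s := rfl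
    rw [h1, MvPolynomial.aeval_algebraMap_apply]
    rfl
  -- the field of the relation
  set κs := K₀ ⊔ IntermediateField.adjoin ℚ (Set.range z) with hκ
  set F := F₀ ⊔ IntermediateField.adjoin ℚ (Set.range z) with hF
  have hzi : ∀ l, IsIntegral ℚ (z l) := fun l => (s l).2
  have hFs : sb F = sb F₀ * Qp z := by
    have hfd : FiniteDimensional ℚ (IntermediateField.adjoin ℚ (Set.range z)) := fd_range hzi
    rw [hF, sb_sup, adj_range hzi]
  have hκF : κs ≤ F := sup_le_sup_right le_sup_left _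
  have hL₀F : L₀ ≤ F := le_trans le_sup_right le_sup_left
  have hzF : ∀ l, z l ∈ F := fun l => by
    have h1 : z l ∈ IntermediateField.adjoin ℚ (Set.range z) := IntermediateField.subset_adjoin ℚ _ ⟨l, rfl⟩
    exact (le_sup_right : _ ≤ F) h1
  -- expansion
  have hexp : ∀ (x : Fin k → ℂ), (∀ l, ‖x l‖ < r) → ∀ (t : Fin k → ℂ) (w : Fin δ → Option (Fin k × ι)),
      MvPolynomial.aeval x dD * wv (pf lam y x t) w = ∑ e, (∑ i, v i * MvPolynomial.aeval x (R i (w, e))) *
        ∏ l, Φ l (1 / x l) (t l) (e l) := by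
    intro x hx t w
    have h1 : MvPolynomial.aeval x dD = ∏ l, Polynomial.aeval (x l) (E l).D := by
      rw [hdD, map_prod]
      exact Finset.prod_congr rfl fun l _ => aeval_XN _ _ _
    rw [h1, dwe E lam w hx t]
    refine Finset.sum_congr rfl fun e _ => ?_
    congr 1
    rw [hR (w, e), map_sum]
    refine Finset.sum_congr rfl fun i _ => ?_
    rw [map_mul, MvPolynomial.aeval_C, MvPolynomial.aeval_map_algebraMap]
    rfl
  obtain ⟨P', hP'd, hP'⟩ := exists_desc κs P hPc
  obtain ⟨f, hf⟩ := exists_f P' (hP'd.trans hPd)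
  have hfP : ∀ (y : Fin k × ι → ℂ), MvPolynomial.aeval y P = ∑ w, (f w : ℂ) * wv y w := by
    intro y
    rw [← hP', MvPolynomial.aeval_map_algebraMap, hf]
    rfl
  have hfb : ∀ w, ((f w : κs) : ℂ) ∈ Qb := by
    intro w
    have h1 : κs ≤ Qb := by
      rw [hκ, sup_le_iff]
      constructor
      · intro x hx
        exact (mem_algebraicClosure_iff' ).2 (by
          have h2 : IsIntegral ℚ (⟨x, hx⟩ : K₀) := Algebra.IsIntegral.isIntegral _
          exact h2.map (IsScalarTower.toAlgHom ℚ K₀ ℂ))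
      · rw [IntermediateField.adjoin_le_iff]
        rintro _ ⟨l, rfl⟩
        exact (s l).2
    exact h1 (f w).2
  set fb : (Fin δ → Option (Fin k × ι)) → Qb := fun w => ⟨(f w : ℂ), hfb w⟩ with hfbdef
  -- the linear relations
  have hc : ∀ e : ∀ l, κ l, ∑ i, v i * algebraMap Qb ℂ (∑ w, fb w * MvPolynomial.eval s (R i (w, e))) = 0 := by
    have hsum : ∑ e : ∀ l, κ l, (∑ i, v i * algebraMap Qb ℂ (∑ w, fb w *
        MvPolynomial.eval s (R i (w, e)))) * ∏ l, Φ l (1 / z l) (t l) (e l) = 0 := by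
      have h1 : MvPolynomial.aeval z dD * MvPolynomial.aeval (pf lam y z t) P = 0 := by
        have : MvPolynomial.aeval (pf lam y z t) P = 0 := hP
        rw [this, mul_zero]
      rw [hfP, Finset.mul_sum] at h1
      rw [← h1]
      have h2 : ∀ w, MvPolynomial.aeval z dD * ((f w : ℂ) * wv (pf lam y z t) w) =
          ∑ e, (∑ i, v i * algebraMap Qb ℂ (fb w * MvPolynomial.eval s (R i (w, e)))) *
        ∏ l, Φ l (1 / z l) (t l) (e l) := by
        intro w
        calc _ = (f w : ℂ) * (MvPolynomial.aeval z dD * wv (pf lam y z t) w) := by ring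
          _ = _ := by
            rw [hexp z hs t w, Finset.mul_sum]
            refine Finset.sum_congr rfl fun e _ => ?_
            rw [← mul_assoc, Finset.mul_sum]
            congr 1
            refine Finset.sum_congr rfl fun i _ => ?_
            rw [hzK, map_mul]
            have h3 : algebraMap Qb ℂ (fb w) = (f w : ℂ) := rfl
            rw [h3]
            ring
      rw [Finset.sum_congr rfl fun w _ => h2 w, Finset.sum_comm]
      refine Finset.sum_congr rfl fun e _ => ?_
      rw [← Finset.sum_mul]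
      congr 1
      rw [Finset.sum_comm]
      refine Finset.sum_congr rfl fun i _ => ?_
      rw [map_sum, Finset.mul_sum]
    have h4 := hN _ (fun e => by
      refine Submodule.sum_mem _ fun i _ => ?_
      have h5 : algebraMap Qb ℂ (∑ w, fb w * MvPolynomial.eval s (R i (w, e))) ∈ sb F := by
        show algebraMap Qb ℂ (∑ w, fb w * MvPolynomial.eval s (R i (w, e))) ∈ F
        rw [map_sum]
        refine sum_mem fun w _ => ?_
        rw [map_mul, ← hzK]
        refine mul_mem (hκF (f w).2) ?_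
        exact mem_of_coeff F _ (fun e' => hL₀F (hcoef (i, (w, e)) e')) hzF
      rw [hFs] at h5
      rw [hV, mul_assoc]
      exact Submodule.mul_mem_mul (Submodule.subset_span ⟨i, rfl⟩) h5) hsum
    exact fun e => congrFun h4 e
  obtain ⟨g, hg1, hg2⟩ := hker Qb MvPolynomial.C (MvPolynomial.eval s)
    (by ext x; simp) hΔ1 fb (fun j => by
      have h1 := hc j.2
      have h2 := Fintype.linearIndependent_iff.1 hv (fun i => ∑ w, fb w *
        MvPolynomial.eval s (R i (w, j.2))) (by
          rw [← h1]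
          refine Finset.sum_congr rfl fun i _ => ?_
          rw [Algebra.smul_def, mul_comm]) j.1
      exact h2)
  refine ⟨∑ w, MvPolynomial.C (MvPolynomial.C ρ⁻¹ * dD * g w) * wv (fun i => MvPolynomial.X i) w, ?_, fun x hx t' => ?_, ?_⟩
  · refine MvPolynomial.totalDegree_finsetSum_le fun w _ => ?_
    refine (MvPolynomial.totalDegree_mul _ _).trans ?_
    rw [MvPolynomial.totalDegree_C, zero_add]
    exact degree_wv w
  · rw [MvPolynomial.eval₂_sum]
    have h1 : ∀ w, MvPolynomial.eval₂ (MvPolynomial.aeval x : MvPolynomial (Fin k) Qb →ₐ[Qb] ℂ).toRingHom (pf lam y x t')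
        (MvPolynomial.C (MvPolynomial.C ρ⁻¹ * dD * g w) * wv (fun i => MvPolynomial.X i) w) =
        ∑ e, ∑ i, (algebraMap Qb ℂ ρ⁻¹ * v i * MvPolynomial.aeval x (g w * R i (w, e))) *
          ∏ l, Φ l (1 / x l) (t' l) (e l) := by
      intro w
      rw [MvPolynomial.eval₂_mul, MvPolynomial.eval₂_C]
      have h2 : MvPolynomial.eval₂ (MvPolynomial.aeval x : MvPolynomial (Fin k) Qb →ₐ[Qb] ℂ).toRingHom (pf lam y x t')
          (wv (fun i => MvPolynomial.X i) w) = wv (pf lam y x t') w := by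
        have := map_wv (MvPolynomial.eval₂Hom (MvPolynomial.aeval x : MvPolynomial (Fin k) Qb →ₐ[Qb] ℂ).toRingHom
          (pf lam y x t')) (fun i => (MvPolynomial.X i : MvPolynomial (Fin k × ι) (MvPolynomial (Fin k) Qb))) w
        rw [MvPolynomial.coe_eval₂Hom] at this
        rw [this]
        congr 1
        funext i
        exact MvPolynomial.eval₂_X _ _ _
      rw [h2]
      calc _ = algebraMap Qb ℂ ρ⁻¹ * MvPolynomial.aeval x (g w) * (MvPolynomial.aeval x dD * wv (pf lam y x t') w) := by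
            show MvPolynomial.aeval x (MvPolynomial.C ρ⁻¹ * dD * g w) * wv (pf lam y x t') w = _
            rw [map_mul, map_mul, MvPolynomial.aeval_C]
            ring
        _ = _ := by
            rw [hexp x hx t' w, Finset.mul_sum]
            refine Finset.sum_congr rfl fun e _ => ?_
            rw [← mul_assoc, Finset.mul_sum, Finset.sum_mul]
            refine Finset.sum_congr rfl fun i _ => ?_
            rw [map_mul]
            ring
    rw [Finset.sum_congr rfl fun w _ => h1 w, Finset.sum_comm]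
    refine Finset.sum_eq_zero fun e _ => ?_
    rw [Finset.sum_comm]
    refine Finset.sum_eq_zero fun i _ => ?_
    have h5 : ∑ w, MvPolynomial.aeval x (g w * R i (w, e)) = 0 := by
      rw [← map_sum, hg1 (i, e), map_zero]
    have h6 : ∑ w, algebraMap Qb ℂ ρ⁻¹ * v i * MvPolynomial.aeval x (g w * R i (w, e)) *
        ∏ l, Φ l (1 / x l) (t' l) (e l) =
        algebraMap Qb ℂ ρ⁻¹ * v i * (∑ w, MvPolynomial.aeval x (g w * R i (w, e))) *
        ∏ l, Φ l (1 / x l) (t' l) (e l) := by
      rw [Finset.mul_sum, Finset.sum_mul]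
    rw [h6, h5, mul_zero, zero_mul]
  · rw [map_sum]
    have h1 := hf (MvPolynomial (Fin k × ι) κs) MvPolynomial.X
    rw [MvPolynomial.aeval_X_left_apply] at h1
    rw [← hP', h1, map_sum]
    refine Finset.sum_congr rfl fun w _ => ?_
    have h2 : (MvPolynomial.aeval z : MvPolynomial (Fin k) Qb →ₐ[Qb] ℂ).toRingHom (MvPolynomial.C ρ⁻¹ * dD * g w) =
        (f w : ℂ) := by
      show MvPolynomial.aeval z (MvPolynomial.C ρ⁻¹ * dD * g w) = _
      have e1 : MvPolynomial.eval s (MvPolynomial.C ρ⁻¹ * dD * g w) = fb w := by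
        rw [map_mul, map_mul, MvPolynomial.eval_C, hg2, ← hρdef, inv_mul_cancel₀ hρ, one_mul]
      rw [hzK, e1]
      rfl
    rw [map_mul, MvPolynomial.map_C, map_wv, h2, map_mul, map_wv]
    congr 1
    · show _ = MvPolynomial.map (algebraMap κs ℂ) (MvPolynomial.C (f w))
      rw [MvPolynomial.map_C]
      rfl
    · congr 1
      funext i
      rw [MvPolynomial.map_X, MvPolynomial.map_X]

end Pool.Agent.NH25.DL
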