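import Pool.Agent.NH25.DL.FamE

/-!
# Windows of bad points for words in G-functions and powers of the logarithm
-/

set_option autoImplicit false

open PowerSeries Module

namespace Pool.Agent.NH25.DL

open Pool.Agent.Y113 Pool.Agent.Y120.GF Pool.Agent.Y120.GH Pool.Agent.Y916.Al Pool.Agent.Y118.UL
  Pool.Agent.Y916.Af Pool.Agent.Y547.AF Pool.Agent.NH25.DG

/-- `dim V` bad points give a dependence relation over `ℚ` -/
lemma dep_of_badQ {κ : Type} [Fintype κ] (V : Submodule ℚ ℂ) [Module.Finite ℚ V]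
    {m : ℕ} (hm : finrank ℚ V = m) (hV : 0 < m) (y : Fin m → κ → ℂ) (h : ∀ l, BadV V (y l)) :
    ¬ LinearIndependent ℚ (fun b : Fin m → κ => ∏ l, y l (b l)) := by
  classical
  subst hm
  intro hliQ
  choose c hc0 hcV hcr using h
  set bV := Module.finBasis ℚ V with hbV
  have hsum : ∀ (x : V), ∑ j, ((bV.repr x j : ℚ) : ℂ) * (bV j : ℂ) = (x : ℂ) := by
    intro x
    have h1 := bV.sum_repr x
    have h2 := congrArg (Submodule.subtype V) h1
    rw [map_sum] at h2
    simp only [map_smul, Submodule.subtype_apply] at h2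
    rw [← h2]
    exact Finset.sum_congr rfl fun j _ => by rw [Algebra.smul_def]; rfl
  obtain ⟨l, hl⟩ := elimC (finrank ℚ V) κ y (fun j => (bV j : ℂ)) (fun l j b => bV.repr ⟨c l b, hcV l b⟩ j) hliQ
    (by
      have := bV.linearIndependent
      exact this.map' (Submodule.subtype V) (Submodule.ker_subtype V)) (by
      intro l
      rw [Finset.sum_comm, ← hcr l]
      refine Finset.sum_congr rfl fun b _ => ?_
      calc ∑ j, ((bV.repr ⟨c l b, hcV l b⟩ j : ℚ) : ℂ) * y l b * (bV j : ℂ)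
          = (∑ j, ((bV.repr ⟨c l b, hcV l b⟩ j : ℚ) : ℂ) * (bV j : ℂ)) * y l b := by
            rw [Finset.sum_mul]
            exact Finset.sum_congr rfl fun j _ => by ring
        _ = _ := by rw [hsum]) hV
  apply hc0 l
  funext b
  have h1 := hsum ⟨c l b, hcV l b⟩
  have h2 : ∀ j, bV.repr ⟨c l b, hcV l b⟩ j = 0 := fun j => by
    have := congrFun (congrFun hl j) b
    simpa using this
  have h3 : (c l b : ℂ) = 0 := by
    have h4 : ((⟨c l b, hcV l b⟩ : V) : ℂ) = 0 := by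
      rw [← h1]
      exact Finset.sum_eq_zero fun j _ => by rw [h2]; simp
    exact h4
  exact h3

/-- relations over `ℚ` and the dimension of the span -/
lemma exists_rels {ι : Type} [Fintype ι] (y : ι → ℂ) : ∃ a : Fin (Fintype.card ι -
    finrank ℚ (Submodule.span ℚ (Set.range y))) → ι → ℚ, LinearIndependent ℚ a ∧ ∀ i, ∑ b, ((a i b : ℚ) : ℂ) * y b = 0 := by
  classical
  set φ : (ι → ℚ) →ₗ[ℚ] ℂ := Fintype.linearCombination ℚ y with hφ
  have hrg : LinearMap.range φ = Submodule.span ℚ (Set.range y) := Fintype.range_linearCombination ℚ y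
  have hsum := LinearMap.finrank_range_add_finrank_ker φ
  rw [Module.finrank_fintype_fun_eq_card, hrg] at hsum
  have hn : Fintype.card ι - finrank ℚ (Submodule.span ℚ (Set.range y)) = finrank ℚ (LinearMap.ker φ) := by omega
  rw [hn]
  set b := Module.finBasis ℚ (LinearMap.ker φ) with hb
  refine ⟨fun i => (b i : ι → ℚ), b.linearIndependent.map' (LinearMap.ker φ).subtype (Submodule.ker_subtype _), fun i => ?_⟩
  have h1 : Fintype.linearCombination ℚ y (b i : ι → ℚ) = 0 := (b i).2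
  rw [Fintype.linearCombination_apply] at h1
  rw [← h1]
  refine Finset.sum_congr rfl fun e _ => ?_
  rw [Algebra.smul_def]
  rfl

/-- **Windows from lower bounds for dimensions.** -/
theorem win_dim {κ : Type} [Fintype κ] [Nonempty κ] (val : ℂ → ℕ → κ → ℂ) (m A D : ℕ)
    (hdim : ∀ N : ℕ, ∃ E : ℕ, ∀ (H : ℕ) (K : IntermediateField ℚ ℂ) (ξ : K) (X : ℝ), FiniteDimensional ℚ K →
      finrank ℚ K ≤ m → Pt K ξ X → ((H : ℝ) + 2) ^ E ≤ ‖(ξ : ℂ)‖ → X ≤ ‖(ξ : ℂ)‖ ^ A → ∀ g : Fin N → ℕ,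
      Function.Injective g → (∀ l, 1 ≤ g l ∧ g l ≤ H) → ∀ (n : ℕ) (a : Fin n → (Fin N → κ) → ℚ), LinearIndependent ℚ a →
      (∀ i, ∑ b, ((a i b : ℚ) : ℂ) * ∏ l, val ξ (g l) (b l) = 0) →
      2 * A * m * (Fintype.card (Fin N → κ) - n) ≤ Fintype.card (Fin N → κ) → False) :
    ∃ M E : ℕ, ∀ V : Submodule ℚ ℂ, Module.Finite ℚ V → finrank ℚ V ≤ D → ∀ (H : ℕ) (K : IntermediateField ℚ ℂ)
      (ξ : K) (X : ℝ), FiniteDimensional ℚ K → finrank ℚ K ≤ m → Pt K ξ X → ((H : ℝ) + 2) ^ E ≤ ‖(ξ : ℂ)‖ →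
      X ≤ ‖(ξ : ℂ)‖ ^ A → ∀ S : Finset ℕ,
      (∀ g ∈ S, (1 ≤ g ∧ g ≤ H) ∧ BadV V (val ξ g)) → S.card ≤ M := by
  classical
  have hκ : 1 ≤ Fintype.card κ := Fintype.card_pos
  choose EF hF using hdim
  obtain ⟨R, hR⟩ := exists_blocks (2 * A * m) (Fintype.card κ ^ D)
  set r₁ : ℕ := R * D with hr₁
  refine ⟨R * D, ∑ r ∈ Finset.range (r₁ + 1), EF r, ?_⟩
  intro V hVf hVD H K ξ X hKf hKd hPt hξH hXξ S hS
  by_contra hcard
  rw [not_le] at hcard
  -- the dimension of `V`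
  set m₀ := finrank ℚ V with hm₀
  have hm₀0 : 0 < m₀ := by
    rw [Nat.pos_iff_ne_zero]
    intro h0
    have hS0 : S.Nonempty := Finset.card_pos.1 (by omega)
    obtain ⟨g, hg⟩ := hS0
    obtain ⟨-, c, hc0, hcV, -⟩ := hS g hg
    have hbot : V = ⊥ := Submodule.finrank_eq_zero.1 h0
    apply hc0
    funext e
    have := hcV e
    rw [hbot, Submodule.mem_bot] at this
    exact this
  set r : ℕ := R * m₀ with hr
  have hrr₁ : r ≤ r₁ := Nat.mul_le_mul_left _ hVD
  obtain ⟨f⟩ : Nonempty (Fin r ↪ S) := by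
    refine Function.Embedding.nonempty_of_card_le ?_
    rw [Fintype.card_fin, Fintype.card_coe]
    omega
  set g : Fin r → ℕ := fun l => (f l : ℕ) with hg
  have hginj : Function.Injective g := fun l l' h => f.injective (Subtype.ext h)
  have hH1 : (1 : ℝ) ≤ (H : ℝ) + 2 := by
    have : (0 : ℝ) ≤ H := Nat.cast_nonneg H
    linarith
  set y : Fin R → Fin m₀ → κ → ℂ := fun i l => val ξ (g (finProdFinEquiv (i, l))) with hy
  have hup := blocks_le (K := ℚ) y (fun i => dep_of_badQ V rfl hm₀0 (y i) fun l =>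
    (hS _ (f (finProdFinEquiv (i, l))).2).2)
  set Y : (Fin r → κ) → ℂ := fun b => ∏ l, val ξ (g l) (b l) with hY
  have hrange : Set.range Y ⊆ Set.range (fun e : Fin R → Fin m₀ → κ => ∏ i, ∏ l, y i l (e i l)) := by
    rintro _ ⟨e, rfl⟩
    refine ⟨fun i l => e (finProdFinEquiv (i, l)), ?_⟩
    show _ = ∏ l, val ξ (g l) (e l)
    rw [← finProdFinEquiv.prod_comp, Fintype.prod_prod_type]
  have hfin : Module.Finite ℚ (Submodule.span ℚ
      (Set.range (fun e : Fin R → Fin m₀ → κ => ∏ i, ∏ l, y i l (e i l)))) :=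
    Module.Finite.span_of_finite ℚ (Set.finite_range _)
  have h8 := (Submodule.finrank_mono (Submodule.span_mono (R := ℚ) hrange)).trans hup
  have h9 := hR (Fintype.card κ ^ m₀) (Nat.one_le_pow _ _ hκ) (Nat.pow_le_pow_right hκ hVD)
  have h10 : Fintype.card (Fin r → κ) = (Fintype.card κ ^ m₀) ^ R := by
    rw [Fintype.card_fun, Fintype.card_fin, hr, ← pow_mul, mul_comm]
  obtain ⟨a, ha, hrel⟩ := exists_rels Y
  refine hF r H K ξ X hKf hKd hPt ?_ hXξ g hginj (fun l => (hS _ (f l).2).1) _ a ha hrel ?_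
  · refine (pow_le_pow_right₀ hH1 ?_).trans hξH
    exact Finset.single_le_sum (f := EF) (fun _ _ => Nat.zero_le _) (Finset.mem_range.2 (show r < r₁ + 1 by omega))
  · have h11 : Fintype.card (Fin r → κ) - (Fintype.card (Fin r → κ) - finrank ℚ (Submodule.span ℚ (Set.range Y))) ≤
        finrank ℚ (Submodule.span ℚ (Set.range Y)) := by omega
    refine (Nat.mul_le_mul_left _ (h11.trans h8)).trans ?_
    rw [h10]
    exact h9

end Pool.Agent.NH25.DL
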